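import Mathlib

set_option autoImplicit false

/-! Turan's theorem for directed graphs without transitive quadruples. -/

namespace Pool.Agent.H579

open Finset

/-- the number of the ordered pairs of different elements of `V` which are related by `D` -/
noncomputable def ar {α : Type} (D : α → α → Prop) (x y : α) : ℕ := by
  classical exact if x ≠ y ∧ D x y then 1 else 0

theorem ar_le {α : Type} (D : α → α → Prop) (x y : α) : ar D x y ≤ 1 := by
  unfold ar; split_ifs <;> omega

theorem ar_self {α : Type} (D : α → α → Prop) (x : α) : ar D x x = 0 := by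
  unfold ar; rw [if_neg]; exact fun h => h.1 rfl

theorem ar_eq {α : Type} (D : α → α → Prop) (x y : α) : ar D x y = 1 ↔ x ≠ y ∧ D x y := by
  unfold ar; split_ifs with h
  · exact ⟨fun _ => h, fun _ => rfl⟩
  · exact ⟨fun h2 => False.elim (by simp at h2), fun h2 => absurd h2 h⟩

theorem sum_insert_arcs {α : Type} [DecidableEq α] (D : α → α → Prop) (V : Finset α) (a : α) (ha : a ∉ V) :
    ∑ x ∈ insert a V, ∑ y ∈ insert a V, ar D x y =
      ∑ x ∈ V, ∑ y ∈ V, ar D x y + ∑ v ∈ V, (ar D a v + ar D v a) := by
  rw [sum_insert ha, sum_insert ha, ar_self, zero_add]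
  have h1 : ∑ x ∈ V, ∑ y ∈ insert a V, ar D x y = ∑ x ∈ V, (ar D x a + ∑ y ∈ V, ar D x y) :=
    sum_congr rfl fun x _ => sum_insert ha
  rw [h1, sum_add_distrib, sum_add_distrib]
  ring

theorem turan_arcs {α : Type} [DecidableEq α] (D : α → α → Prop) : ∀ (n : ℕ) (V : Finset α), V.card = n →
    (∀ a ∈ V, ∀ b ∈ V, ∀ c ∈ V, ∀ d ∈ V, ¬ (ar D a b = 1 ∧ ar D a c = 1 ∧ ar D a d = 1 ∧
      ar D b c = 1 ∧ ar D b d = 1 ∧ ar D c d = 1)) →
    3 * ∑ x ∈ V, ∑ y ∈ V, ar D x y ≤ 2 * n ^ 2 := by
  intro n
  induction n using Nat.strong_induction_on with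
  | _ n ih =>
    intro V hV h4
    by_cases h3 : ∃ a ∈ V, ∃ b ∈ V, ∃ c ∈ V, ar D a b = 1 ∧ ar D a c = 1 ∧ ar D b c = 1
    · obtain ⟨a, ha, b, hb, c, hc, hab, hac, hbc⟩ := h3
      have nab := ((ar_eq D a b).1 hab).1
      have nac := ((ar_eq D a c).1 hac).1
      have nbc := ((ar_eq D b c).1 hbc).1
      set V' := ((V.erase a).erase b).erase c with hV'
      have hb1 : b ∈ V.erase a := mem_erase.2 ⟨nab.symm, hb⟩
      have hc1 : c ∈ (V.erase a).erase b := mem_erase.2 ⟨nbc.symm, mem_erase.2 ⟨nac.symm, hc⟩⟩
      have hcard : V'.card = n - 3 := by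
        rw [hV', card_erase_of_mem hc1, card_erase_of_mem hb1, card_erase_of_mem ha, hV]
        omega
      have hn3 : 3 ≤ n := by
        have h5 : ({a, b, c} : Finset α) ⊆ V := by
          intro x hx
          simp only [mem_insert, mem_singleton] at hx
          rcases hx with h | h | h <;> rw [h] <;> assumption
        have h6 := card_le_card h5
        rw [card_insert_of_notMem (by simp [nab, nac]), card_insert_of_notMem (by simp [nbc]), card_singleton,
          hV] at h6
        omega
      have hsub : ∀ x ∈ V', x ∈ V := fun x hx => mem_of_mem_erase (mem_of_mem_erase (mem_of_mem_erase hx))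
      have hIH := ih (n - 3) (by omega) V' hcard (fun a ha b hb c hc d hd =>
        h4 a (hsub a ha) b (hsub b hb) c (hsub c hc) d (hsub d hd))
      have e1 : V = insert a (insert b (insert c V')) := by
        rw [hV', insert_erase hc1, insert_erase hb1, insert_erase ha]
      have hcn : c ∉ V' := notMem_erase _ _
      have hbn : b ∉ insert c V' := by
        rw [hV', insert_erase hc1]; exact notMem_erase _ _
      have han : a ∉ insert b (insert c V') := by
        rw [hV', insert_erase hc1, insert_erase hb1]; exact notMem_erase _ _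
      have hbn' : b ∉ V' := fun h => hbn (mem_insert_of_mem h)
      have han' : a ∉ insert c V' := fun h => han (mem_insert_of_mem h)
      have e2 : ∑ x ∈ V, ∑ y ∈ V, ar D x y = ∑ x ∈ V', ∑ y ∈ V', ar D x y +
          (∑ v ∈ V', (ar D a v + ar D v a + ar D b v + ar D v b + ar D c v + ar D v c)) +
          (ar D a b + ar D b a + ar D a c + ar D c a + ar D b c + ar D c b) := by
        have f1 := sum_insert_arcs D _ _ han
        have f2 := sum_insert_arcs D _ _ hbn
        have f3 := sum_insert_arcs D _ _ hcn
        rw [← e1] at f1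
        rw [f1, f2, f3, sum_insert hbn, sum_insert hcn, sum_insert hcn]
        simp only [sum_add_distrib]
        ring
      have e3 : ∑ v ∈ V', (ar D a v + ar D v a + ar D b v + ar D v b + ar D c v + ar D v c) ≤ ∑ _v ∈ V', 4 := by
        apply sum_le_sum
        intro v hv
        have hvV := hsub v hv
        have g1 := h4 v hvV a ha b hb c hc
        have g2 := h4 a ha b hb c hc v hvV
        have i1 := ar_le D a v
        have i2 := ar_le D v a
        have i3 := ar_le D b v
        have i4 := ar_le D v b
        have i5 := ar_le D c v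
        have i6 := ar_le D v c
        by_contra hcon
        push Not at hcon
        have j1 : ar D v a = 1 ∧ ar D v b = 1 ∧ ar D v c = 1 ∨ ar D a v = 1 ∧ ar D b v = 1 ∧ ar D c v = 1 := by
          omega
        rcases j1 with ⟨j1, j2, j3⟩ | ⟨j1, j2, j3⟩
        · exact g1 ⟨j1, j2, j3, hab, hac, hbc⟩
        · exact g2 ⟨hab, hac, j1, hbc, j2, j3⟩
      rw [sum_const, smul_eq_mul, hcard] at e3
      have i1 := ar_le D a b
      have i2 := ar_le D b a
      have i3 := ar_le D a c
      have i4 := ar_le D c a
      have i5 := ar_le D b c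
      have i6 := ar_le D c b
      obtain ⟨m, rfl⟩ : ∃ m, n = m + 3 := ⟨n - 3, by omega⟩
      simp only [Nat.add_sub_cancel] at hIH e3
      nlinarith
    by_cases h2 : ∃ a ∈ V, ∃ b ∈ V, ar D a b = 1
    · obtain ⟨a, ha, b, hb, hab⟩ := h2
      have nab := ((ar_eq D a b).1 hab).1
      set V' := (V.erase a).erase b with hV'
      have hb1 : b ∈ V.erase a := mem_erase.2 ⟨nab.symm, hb⟩
      have hcard : V'.card = n - 2 := by
        rw [hV', card_erase_of_mem hb1, card_erase_of_mem ha, hV]
        omega
      have hn2 : 2 ≤ n := by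
        have h5 : ({a, b} : Finset α) ⊆ V := by
          intro x hx
          simp only [mem_insert, mem_singleton] at hx
          rcases hx with h | h <;> rw [h] <;> assumption
        have h6 := card_le_card h5
        rw [card_insert_of_notMem (by simp [nab]), card_singleton, hV] at h6
        omega
      have hsub : ∀ x ∈ V', x ∈ V := fun x hx => mem_of_mem_erase (mem_of_mem_erase hx)
      have hIH := ih (n - 2) (by omega) V' hcard (fun a ha b hb c hc d hd =>
        h4 a (hsub a ha) b (hsub b hb) c (hsub c hc) d (hsub d hd))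
      have e1 : V = insert a (insert b V') := by
        rw [hV', insert_erase hb1, insert_erase ha]
      have hbn : b ∉ V' := notMem_erase _ _
      have han : a ∉ insert b V' := by
        rw [hV', insert_erase hb1]; exact notMem_erase _ _
      have e2 : ∑ x ∈ V, ∑ y ∈ V, ar D x y = ∑ x ∈ V', ∑ y ∈ V', ar D x y +
          (∑ v ∈ V', (ar D a v + ar D v a + ar D b v + ar D v b)) + (ar D a b + ar D b a) := by
        have f1 := sum_insert_arcs D _ _ han
        have f2 := sum_insert_arcs D _ _ hbn
        rw [← e1] at f1
        rw [f1, f2, sum_insert hbn]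
        simp only [sum_add_distrib]
        ring
      have e3 : ∑ v ∈ V', (ar D a v + ar D v a + ar D b v + ar D v b) ≤ ∑ _v ∈ V', 2 := by
        apply sum_le_sum
        intro v hv
        have hvV := hsub v hv
        have i1 := ar_le D a v
        have i2 := ar_le D v a
        have i3 := ar_le D b v
        have i4 := ar_le D v b
        by_contra hcon
        push Not at hcon
        apply h3
        have j1 : ar D v a = 1 ∧ ar D v b = 1 ∨ ar D a v = 1 ∧ ar D b v = 1 := by
          omega
        rcases j1 with ⟨j1, j2⟩ | ⟨j1, j2⟩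
        · exact ⟨v, hvV, a, ha, b, hb, j1, j2, hab⟩
        · exact ⟨a, ha, b, hb, v, hvV, hab, j1, j2⟩
      rw [sum_const, smul_eq_mul, hcard] at e3
      have i1 := ar_le D a b
      have i2 := ar_le D b a
      obtain ⟨m, rfl⟩ : ∃ m, n = m + 2 := ⟨n - 2, by omega⟩
      simp only [Nat.add_sub_cancel] at hIH e3
      nlinarith
    · push Not at h2
      have e1 : ∑ x ∈ V, ∑ y ∈ V, ar D x y = 0 := by
        apply sum_eq_zero
        intro x hx
        apply sum_eq_zero
        intro y hy
        have i1 := ar_le D x y
        have i2 := h2 x hx y hy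
        omega
      rw [e1]
      exact Nat.zero_le _

end Pool.Agent.H579
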