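import Pool.Agent.H579.Third
import Pool.Agent.H579.Digraph

set_option autoImplicit false

/-! A third of the ordered pairs, for an abstract relation hit by every nice blown up quadruple. -/

namespace Pool.Agent.H579

open Finset

/-- the indicator of a proposition -/
noncomputable def ind (P : Prop) : ℝ := by
  classical exact if P then 1 else 0

theorem ind_pos {P : Prop} (h : P) : ind P = 1 := by unfold ind; rw [if_pos h]

theorem ind_neg {P : Prop} (h : ¬ P) : ind P = 0 := by unfold ind; rw [if_neg h]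

theorem ind_nonneg (P : Prop) : 0 ≤ ind P := by
  by_cases h : P
  · rw [ind_pos h]; exact zero_le_one
  · rw [ind_neg h]

theorem ind_le_one (P : Prop) : ind P ≤ 1 := by
  by_cases h : P
  · rw [ind_pos h]
  · rw [ind_neg h]; exact zero_le_one

theorem ind_not (P : Prop) : ind (¬ P) = 1 - ind P := by
  by_cases h : P
  · rw [ind_pos h, ind_neg (not_not.2 h), sub_self]
  · rw [ind_neg h, ind_pos h, sub_zero]

theorem ind_ne_zero {P : Prop} (h : ind P ≠ 0) : P := by
  by_contra h2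
  exact h (ind_neg h2)

theorem ind_mono {P Q : Prop} (h : P → Q) : ind P ≤ ind Q := by
  by_cases hP : P
  · rw [ind_pos hP, ind_pos (h hP)]
  · rw [ind_neg hP]; exact ind_nonneg _

theorem inj_four {k : ℕ} {a b c d : Fin k} (n1 : a ≠ b) (n2 : a ≠ c) (n3 : a ≠ d) (n4 : b ≠ c) (n5 : b ≠ d)
    (n6 : c ≠ d) : Function.Injective (![a, b, c, d] : Fin 4 → Fin k) := by
  intro i j hij
  fin_cases i <;> fin_cases j
  · rfl
  · exact absurd hij n1
  · exact absurd hij n2
  · exact absurd hij n3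
  · exact absurd hij.symm n1
  · rfl
  · exact absurd hij n4
  · exact absurd hij n5
  · exact absurd hij.symm n2
  · exact absurd hij.symm n4
  · rfl
  · exact absurd hij n6
  · exact absurd hij.symm n3
  · exact absurd hij.symm n5
  · exact absurd hij.symm n6
  · rfl

theorem rel_four {α : Type} (D : α → α → Prop) (a b c d : α) (h1 : D a b) (h2 : D a c) (h3 : D a d) (h4 : D b c)
    (h5 : D b d) (h6 : D c d) : ∀ g h : Fin 4, g < h → D ((![a, b, c, d] : Fin 4 → α) g) ((![a, b, c, d] : Fin 4 → α) h) := by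
  intro g h hgh
  fin_cases g <;> fin_cases h
  · exact absurd hgh (by decide)
  · exact h1
  · exact h2
  · exact h3
  · exact absurd hgh (by decide)
  · exact absurd hgh (by decide)
  · exact h4
  · exact h5
  · exact absurd hgh (by decide)
  · exact absurd hgh (by decide)
  · exact absurd hgh (by decide)
  · exact h6
  · exact absurd hgh (by decide)
  · exact absurd hgh (by decide)
  · exact absurd hgh (by decide)
  · exact absurd hgh (by decide)

/-- the pointwise inequality -/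
theorem pointwise {k : ℕ} (D : Fin k → Fin k → Prop) :
    ∑ i : Fin k, ∑ j : Fin k, (if i ≠ j then ind (D i j) else 0) ≤
      2 / 3 * (k : ℝ) ^ 2 + (k : ℝ) ^ 2 * ∑ τ : Fin 4 → Fin k,
        ind (Function.Injective τ) * ind (∀ g h : Fin 4, g < h → D (τ g) (τ h)) := by
  have hsn : 0 ≤ ∑ τ : Fin 4 → Fin k,
      ind (Function.Injective τ) * ind (∀ g h : Fin 4, g < h → D (τ g) (τ h)) :=
    Finset.sum_nonneg fun τ _ => mul_nonneg (ind_nonneg _) (ind_nonneg _)
  have hL : ∑ i : Fin k, ∑ j : Fin k, (if i ≠ j then ind (D i j) else 0) =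
      ((∑ i : Fin k, ∑ j : Fin k, ar D i j : ℕ) : ℝ) := by
    push_cast
    apply Finset.sum_congr rfl
    intro i _
    apply Finset.sum_congr rfl
    intro j _
    unfold ar
    by_cases hij : i = j
    · simp [hij]
    · by_cases hd : D i j
      · simp [hij, hd, ind_pos]
      · simp [hij, hd, ind_neg]
  rw [hL]
  by_cases hT : ∀ a ∈ (univ : Finset (Fin k)), ∀ b ∈ (univ : Finset (Fin k)), ∀ c ∈ (univ : Finset (Fin k)),
      ∀ d ∈ (univ : Finset (Fin k)), ¬ (ar D a b = 1 ∧ ar D a c = 1 ∧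
        ar D a d = 1 ∧ ar D b c = 1 ∧ ar D b d = 1 ∧ ar D c d = 1)
  · have h2 := turan_arcs D k univ (by rw [Finset.card_univ, Fintype.card_fin]) hT
    have h3 : (3 : ℝ) * ((∑ i : Fin k, ∑ j : Fin k, ar D i j : ℕ) : ℝ) ≤ 2 * (k : ℝ) ^ 2 := by
      exact_mod_cast h2
    have h4 : 0 ≤ (k : ℝ) ^ 2 * ∑ τ : Fin 4 → Fin k,
        ind (Function.Injective τ) * ind (∀ g h : Fin 4, g < h → D (τ g) (τ h)) :=
      mul_nonneg (by positivity) hsn
    linarith
  · push Not at hT
    obtain ⟨a, -, b, -, c, -, d, -, h2, h3, h4, h5, h6, h7⟩ := hT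
    rw [ar_eq] at h2 h3 h4 h5 h6 h7
    have h8 : ((∑ i : Fin k, ∑ j : Fin k, ar D i j : ℕ) : ℝ) ≤ (k : ℝ) ^ 2 := by
      have h9 : ∑ i : Fin k, ∑ j : Fin k, ar D i j ≤ ∑ _i : Fin k, ∑ _j : Fin k, 1 :=
        Finset.sum_le_sum fun i _ => Finset.sum_le_sum fun j _ => ar_le _ _ _
      simp only [Finset.sum_const, Finset.card_univ, Fintype.card_fin, smul_eq_mul, mul_one] at h9
      have h10 : ((∑ i : Fin k, ∑ j : Fin k, ar D i j : ℕ) : ℝ) ≤ ((k * k : ℕ) : ℝ) := by
        exact_mod_cast h9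
      push_cast at h10 ⊢
      linarith
    have h9 : (1 : ℝ) ≤ ∑ τ : Fin 4 → Fin k,
        ind (Function.Injective τ) * ind (∀ g h : Fin 4, g < h → D (τ g) (τ h)) := by
      have hinj := inj_four h2.1 h3.1 h4.1 h5.1 h6.1 h7.1
      have hval := rel_four D a b c d h2.2 h3.2 h4.2 h5.2 h6.2 h7.2
      have h10 := Finset.single_le_sum (s := (univ : Finset (Fin 4 → Fin k)))
        (f := fun τ : Fin 4 → Fin k => ind (Function.Injective τ) * ind (∀ g h : Fin 4, g < h → D (τ g) (τ h)))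
        (fun τ _ => mul_nonneg (ind_nonneg _) (ind_nonneg _)) (mem_univ ![a, b, c, d])
      rw [ind_pos hinj, ind_pos hval, one_mul] at h10
      exact h10
    have h10 : (0 : ℝ) ≤ (k : ℝ) ^ 2 := by positivity
    nlinarith

theorem sum_prod_one {α : Type} [Fintype α] [DecidableEq α] (w : α → ℝ) (h1 : ∑ a, w a = 1) (k : ℕ) :
    ∑ y : Fin k → α, ∏ g, w (y g) = 1 := by
  have e3 := Finset.prod_univ_sum (fun _ : Fin k => (univ : Finset α)) (fun _ a => w a)
  rw [Fintype.piFinset_univ] at e3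
  rw [← e3, Finset.prod_congr rfl (fun _ _ => h1), Finset.prod_const_one]

/-- dense relations contain many transitive quadruples -/
theorem many_quads (ε : ℝ) (hε : 0 < ε) : ∃ κ : ℝ, 0 < κ ∧ ∀ (α : Type) [Fintype α] (w : α → ℝ),
    (∀ a, 0 ≤ w a) → ∑ a, w a = 1 → ∀ D : α → α → Prop,
    2 / 3 + ε ≤ ∑ x, ∑ y, w x * w y * ind (D x y) →
    κ ≤ ∑ x : Fin 4 → α, (∏ g, w (x g)) * ind (∀ g h : Fin 4, g < h → D (x g) (x h)) := by
  classical
  obtain ⟨k, hk⟩ := exists_nat_ge ((2 + 2 * ε) / ε + 2)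
  have hk2 : (2 : ℝ) ≤ k := by
    have : 0 ≤ (2 + 2 * ε) / ε := by positivity
    linarith
  have hk0 : (0 : ℝ) < k := by linarith
  have hkε : (2 + 2 * ε) / ε ≤ k := by linarith
  rw [div_le_iff₀ hε] at hkε
  refine ⟨ε / 2 / (k : ℝ) ^ 4, by positivity, ?_⟩
  intro α _ w hw h1 D hD
  set β : ℝ := ∑ x, ∑ y, w x * w y * ind (D x y) with hβ
  set f : (Fin 4 → α) → ℝ := fun x => ind (∀ g h : Fin 4, g < h → D (x g) (x h)) with hf
  have hfn : ∀ x, 0 ≤ f x := fun x => ind_nonneg _
  set E : ℝ := ∑ x : Fin 4 → α, (∏ g, w (x g)) * f x with hE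
  -- expectation
  have hWn : ∀ x : Fin k → α, 0 ≤ ∏ i, w (x i) := fun x => Finset.prod_nonneg fun i _ => hw _
  have hsum := Finset.sum_le_sum (s := (univ : Finset (Fin k → α)))
    (fun x _ => mul_le_mul_of_nonneg_left (pointwise (fun i j => D (x i) (x j))) (hWn x))
  have hW1 := sum_prod_one w h1 k
  -- left side
  have hβ2 : ∀ i j : Fin k, i ≠ j → ∑ x : Fin k → α, (∏ i, w (x i)) * ind (D (x i) (x j)) = β := by
    intro i j hij
    have hinj : Function.Injective (![i, j] : Fin 2 → Fin k) := by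
      intro a b hab
      fin_cases a <;> fin_cases b
      · rfl
      · exact absurd hab hij
      · exact absurd hab.symm hij
      · rfl
    have e := marg w h1 (![i, j] : Fin 2 → Fin k) hinj (fun y : Fin 2 → α => ind (D (y 0) (y 1)))
    simp only [Matrix.cons_val_zero, Matrix.cons_val_one] at e
    rw [e, hβ, ← (finTwoArrowEquiv α).symm.sum_comp, Fintype.sum_prod_type]
    apply Finset.sum_congr rfl
    intro x _
    apply Finset.sum_congr rfl
    intro y _
    simp [finTwoArrowEquiv, Fin.prod_univ_two]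
  have hleft : ∑ x : Fin k → α, (∏ i, w (x i)) *
      ∑ i : Fin k, ∑ j : Fin k, (if i ≠ j then ind (D (x i) (x j)) else 0) =
      ((k : ℝ) ^ 2 - k) * β := by
    have e1 : ∀ x : Fin k → α, (∏ i, w (x i)) *
        ∑ i : Fin k, ∑ j : Fin k, (if i ≠ j then ind (D (x i) (x j)) else 0) =
        ∑ i : Fin k, ∑ j : Fin k, (if i ≠ j then (∏ i, w (x i)) * ind (D (x i) (x j)) else 0) := by
      intro x
      rw [Finset.mul_sum]
      apply Finset.sum_congr rfl
      intro i _
      rw [Finset.mul_sum]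
      apply Finset.sum_congr rfl
      intro j _
      split_ifs <;> simp
    rw [Finset.sum_congr rfl (fun x _ => e1 x), Finset.sum_comm]
    have e2 : ∀ i : Fin k, ∑ x : Fin k → α, ∑ j : Fin k,
        (if i ≠ j then (∏ i, w (x i)) * ind (D (x i) (x j)) else 0) =
        ((k : ℝ) - 1) * β := by
      intro i
      rw [Finset.sum_comm]
      have e3 : ∀ j : Fin k, ∑ x : Fin k → α,
          (if i ≠ j then (∏ i, w (x i)) * ind (D (x i) (x j)) else 0) =
          β - (if i = j then β else 0) := by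
        intro j
        by_cases hij : i = j
        · simp [hij]
        · simp only [ne_eq, hij, not_false_eq_true, if_true, if_false, sub_zero]
          exact hβ2 i j hij
      rw [Finset.sum_congr rfl (fun j _ => e3 j), Finset.sum_sub_distrib, Finset.sum_const, Finset.card_univ,
        Fintype.card_fin, Finset.sum_ite_eq, if_pos (mem_univ _), nsmul_eq_mul]
      ring
    rw [Finset.sum_congr rfl (fun i _ => e2 i), Finset.sum_const, Finset.card_univ, Fintype.card_fin, nsmul_eq_mul]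
    ring
  -- right side
  have hE2 : ∀ τ : Fin 4 → Fin k, ∑ x : Fin k → α, (∏ i, w (x i)) *
      (ind (Function.Injective τ) * f (fun g => x (τ g))) ≤ E := by
    intro τ
    by_cases hτ : Function.Injective τ
    · simp only [ind_pos hτ, one_mul]
      exact le_of_eq (marg w h1 τ hτ f)
    · simp only [ind_neg hτ, zero_mul, mul_zero, Finset.sum_const_zero]
      exact Finset.sum_nonneg fun x _ => mul_nonneg (Finset.prod_nonneg fun g _ => hw _) (hfn x)
  have hright : ∑ x : Fin k → α, (∏ i, w (x i)) * (2 / 3 * (k : ℝ) ^ 2 + (k : ℝ) ^ 2 * ∑ τ : Fin 4 → Fin k,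
        ind (Function.Injective τ) * ind (∀ g h : Fin 4, g < h → D (x (τ g)) (x (τ h)))) ≤
      2 / 3 * (k : ℝ) ^ 2 + (k : ℝ) ^ 2 * ((k : ℝ) ^ 4 * E) := by
    have e1 : ∀ x : Fin k → α, (∏ i, w (x i)) * (2 / 3 * (k : ℝ) ^ 2 + (k : ℝ) ^ 2 * ∑ τ : Fin 4 → Fin k,
        ind (Function.Injective τ) * ind (∀ g h : Fin 4, g < h → D (x (τ g)) (x (τ h)))) =
        2 / 3 * (k : ℝ) ^ 2 * (∏ i, w (x i)) + (k : ℝ) ^ 2 * ∑ τ : Fin 4 → Fin k,
          (∏ i, w (x i)) * (ind (Function.Injective τ) * f (fun g => x (τ g))) := by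
      intro x
      rw [← Finset.mul_sum]
      simp only [hf]
      ring
    rw [Finset.sum_congr rfl (fun x _ => e1 x), Finset.sum_add_distrib, ← Finset.mul_sum, hW1, mul_one,
      ← Finset.mul_sum, Finset.sum_comm]
    have e2 : ∑ τ : Fin 4 → Fin k, ∑ x : Fin k → α,
        (∏ i, w (x i)) * (ind (Function.Injective τ) * f (fun g => x (τ g))) ≤ ∑ _τ : Fin 4 → Fin k, E :=
      Finset.sum_le_sum fun τ _ => hE2 τ
    rw [Finset.sum_const, Finset.card_univ, Fintype.card_fun, Fintype.card_fin, Fintype.card_fin, nsmul_eq_mul] at e2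
    push_cast at e2
    have h10 : (0 : ℝ) ≤ (k : ℝ) ^ 2 := by positivity
    nlinarith
  rw [hleft] at hsum
  have hfin := hsum.trans hright
  -- conclusion
  rw [div_le_iff₀ (by positivity)]
  have hk2' : (0 : ℝ) < (k : ℝ) ^ 2 := by positivity
  have h5 : ((k : ℝ) ^ 2 - k) * (2 / 3 + ε) ≤ ((k : ℝ) ^ 2 - k) * β := by
    apply mul_le_mul_of_nonneg_left hD
    nlinarith
  have h6 : (k : ℝ) ^ 2 * (ε / 2) ≤ (k : ℝ) ^ 2 * (E * (k : ℝ) ^ 4) := by
    nlinarith
  exact le_of_mul_le_mul_left h6 hk2'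

/-- **a third of the ordered pairs** -/
theorem third_oriented (K : ℕ) (ε : ℝ) (hε : 0 < ε) : ∃ η : ℝ, 0 < η ∧ ∀ (α : Type) [Fintype α] (w : α → ℝ),
    (∀ a, 0 ≤ w a) → ∑ a, w a = 1 → ∀ (R : α → α → Prop) (N : (Fin 4 → Fin K → α) → Prop),
    (∀ A, N A → ∃ (g h : Fin 4) (i j : Fin K), g < h ∧ R (A g i) (A h j)) →
    (∑ A : Fin 4 → Fin K → α, ind (¬ N A) * ∏ g, ∏ i, w (A g i)) ≤ η →
    1 / 3 - ε ≤ ∑ x, ∑ y, w x * w y * ind (R x y) := by
  classical
  obtain ⟨κ, hκ, H⟩ := many_quads ε hε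
  refine ⟨κ ^ (K ^ 4) / 2, by positivity, ?_⟩
  intro α _ w hw h1 R N hN hη
  by_contra hcon
  push Not at hcon
  have h2 : ∑ x, ∑ y, w x * w y * ind (¬ R x y) =
      1 - ∑ x, ∑ y, w x * w y * ind (R x y) := by
    rw [eq_sub_iff_add_eq, ← Finset.sum_add_distrib]
    have e1 : ∀ x, ∑ y, w x * w y * ind (¬ R x y) + ∑ y, w x * w y * ind (R x y) = w x := by
      intro x
      rw [← Finset.sum_add_distrib]
      have e2 : ∀ y, w x * w y * ind (¬ R x y) + w x * w y * ind (R x y) = w x * w y := by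
        intro y
        rw [ind_not]; ring
      rw [Finset.sum_congr rfl (fun y _ => e2 y), ← Finset.mul_sum, h1, mul_one]
    rw [Finset.sum_congr rfl (fun x _ => e1 x), h1]
  have h3 := H α w hw h1 (fun x y => ¬ R x y) (by rw [h2]; linarith)
  set f : (Fin 4 → α) → ℝ := fun x => ind (∀ g h : Fin 4, g < h → ¬ R (x g) (x h)) with hf
  have hfn : ∀ x, 0 ≤ f x := fun x => ind_nonneg _
  have hf1 : ∀ x, f x ≤ 1 := fun x => ind_le_one _
  have h4 := blow w hw h1 K 4 f hfn
  have h5 : κ ^ (K ^ 4) ≤ ∑ A : Fin 4 → Fin K → α, (∏ g, ∏ i, w (A g i)) * ∏ c : Fin 4 → Fin K, f (fun g => A g (c g)) :=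
    le_trans (pow_le_pow_left₀ hκ.le h3 _) h4
  have h6 : 0 < κ ^ (K ^ 4) := by positivity
  -- a nice tuple with only bad transversals
  obtain ⟨A, hA1, hA2⟩ : ∃ A : Fin 4 → Fin K → α, N A ∧ ∏ c : Fin 4 → Fin K, f (fun g => A g (c g)) ≠ 0 := by
    by_contra hno
    push Not at hno
    have h7 : ∑ A : Fin 4 → Fin K → α, (∏ g, ∏ i, w (A g i)) * ∏ c : Fin 4 → Fin K, f (fun g => A g (c g)) ≤
        ∑ A : Fin 4 → Fin K → α, ind (¬ N A) * ∏ g, ∏ i, w (A g i) := by
      apply Finset.sum_le_sum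
      intro A _
      have hp : 0 ≤ ∏ g, ∏ i, w (A g i) := Finset.prod_nonneg fun g _ => Finset.prod_nonneg fun i _ => hw _
      by_cases hNA : N A
      · rw [hno A hNA, mul_zero]
        exact mul_nonneg (ind_nonneg _) hp
      · rw [ind_pos hNA, one_mul]
        have h8 : ∏ c : Fin 4 → Fin K, f (fun g => A g (c g)) ≤ 1 :=
          Finset.prod_le_one (fun c _ => hfn _) (fun c _ => hf1 _)
        calc _ ≤ (∏ g, ∏ i, w (A g i)) * 1 := mul_le_mul_of_nonneg_left h8 hp
          _ = _ := mul_one _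
    linarith
  obtain ⟨g, h, i, j, hgh, hR⟩ := hN A hA1
  have h8 := Finset.prod_ne_zero_iff.1 hA2 (Function.update (fun _ => i) h j) (mem_univ _)
  have h9 := ind_ne_zero h8 g h hgh
  simp only at h9
  rw [Function.update_self, Function.update_of_ne hgh.ne] at h9
  exact h9 hR

end Pool.Agent.H579
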