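import Pool.Agent.H579.Abs

set_option autoImplicit false

/-! Variants of `third_oriented`. -/

namespace Pool.Agent.H579

open Finset

theorem marg1 {κ α : Type} [Fintype κ] [Fintype α] [DecidableEq κ] (w : α → ℝ) (h1 : ∑ a, w a = 1) (x : κ) (F : α → ℝ) :
    ∑ A : κ → α, (∏ k, w (A k)) * F (A x) = ∑ a, w a * F a := by
  classical
  have e := marg w h1 (fun _ : Unit => x) (fun a b _ => Subsingleton.elim a b) (fun y : Unit → α => F (y ()))
  rw [e, ← (Equiv.funUnique Unit α).symm.sum_comp]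
  apply Finset.sum_congr rfl
  intro a _
  change (∏ _j : Unit, w a) * F a = w a * F a
  simp

theorem marg2 {κ α : Type} [Fintype κ] [Fintype α] [DecidableEq κ] (w : α → ℝ) (h1 : ∑ a, w a = 1) (x y : κ) (hxy : x ≠ y)
    (F : α → α → ℝ) :
    ∑ A : κ → α, (∏ k, w (A k)) * F (A x) (A y) = ∑ a, ∑ b, w a * w b * F a b := by
  classical
  have hinj : Function.Injective (![x, y] : Fin 2 → κ) := by
    intro a b hab
    fin_cases a <;> fin_cases b
    · rfl
    · exact absurd hab hxy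
    · exact absurd hab.symm hxy
    · rfl
  have e := marg w h1 (![x, y] : Fin 2 → κ) hinj (fun b : Fin 2 → α => F (b 0) (b 1))
  simp only [Matrix.cons_val_zero, Matrix.cons_val_one] at e
  rw [e, ← (finTwoArrowEquiv α).symm.sum_comp, Fintype.sum_prod_type]
  apply Finset.sum_congr rfl
  intro a _
  apply Finset.sum_congr rfl
  intro b _
  change (∏ j : Fin 2, w ((![a, b] : Fin 2 → α) j)) * F a b = w a * w b * F a b
  rw [Fin.prod_univ_two]
  rfl

theorem third_oriented' (K : ℕ) (ε : ℝ) (hε : 0 < ε) : ∃ η : ℝ, 0 < η ∧ ∀ (α : Type) [Fintype α] (w : α → ℝ),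
    (∀ a, 0 ≤ w a) → ∑ a, w a = 1 → ∀ (R : α → α → Prop) (N : (Fin 4 × Fin K → α) → Prop),
    (∀ A, N A → ∃ x y : Fin 4 × Fin K, x.1 < y.1 ∧ R (A x) (A y)) →
    (∑ A : Fin 4 × Fin K → α, ind (¬ N A) * ∏ x, w (A x)) ≤ η →
    1 / 3 - ε ≤ ∑ x, ∑ y, w x * w y * ind (R x y) := by
  classical
  obtain ⟨η, hη, H⟩ := third_oriented K ε hε
  refine ⟨η, hη, ?_⟩
  intro α _ w hw h1 R N hN hle
  refine H α w hw h1 R (fun A => N (fun x => A x.1 x.2)) ?_ ?_
  · intro A hA
    obtain ⟨x, y, hxy, hR⟩ := hN _ hA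
    exact ⟨x.1, y.1, x.2, y.2, hxy, hR⟩
  · refine le_trans (le_of_eq ?_) hle
    rw [← (Equiv.curry (Fin 4) (Fin K) α).sum_comp]
    apply Finset.sum_congr rfl
    intro A _
    rw [Fintype.prod_prod_type]
    rfl

/-- union bound over one and over two coordinates -/
theorem union_bound {κ α : Type} [Fintype κ] [Fintype α] [DecidableEq κ] (w : α → ℝ) (hw : ∀ a, 0 ≤ w a)
    (h1 : ∑ a, w a = 1) (N : (κ → α) → Prop) (G : α → ℝ) (F : α → α → ℝ) (hF : ∀ a b, 0 ≤ F a b)
    (h : ∀ A : κ → α, ind (¬ N A) ≤ ∑ x, G (A x) + ∑ z : κ × κ, (if z.1 = z.2 then 0 else F (A z.1) (A z.2)))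
    (γ φ : ℝ) (hγ : ∑ a, w a * G a ≤ γ) (hφ : ∑ a, ∑ b, w a * w b * F a b ≤ φ) :
    ∑ A : κ → α, ind (¬ N A) * ∏ x, w (A x) ≤ Fintype.card κ * γ + Fintype.card κ ^ 2 * φ := by
  have hφ0 : 0 ≤ φ := le_trans (Finset.sum_nonneg fun a _ => Finset.sum_nonneg fun b _ =>
    mul_nonneg (mul_nonneg (hw a) (hw b)) (hF a b)) hφ
  have s1 : ∑ A : κ → α, ind (¬ N A) * ∏ x, w (A x) ≤
      ∑ A : κ → α, (∏ k, w (A k)) * (∑ x, G (A x) + ∑ z : κ × κ, (if z.1 = z.2 then 0 else F (A z.1) (A z.2))) := by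
    apply Finset.sum_le_sum
    intro A _
    rw [mul_comm]
    have h2 := h A
    exact mul_le_mul_of_nonneg_left h2 (Finset.prod_nonneg fun k _ => hw _)
  refine s1.trans ?_
  have e1 : ∑ A : κ → α, (∏ k, w (A k)) * (∑ x, G (A x) + ∑ z : κ × κ, (if z.1 = z.2 then 0 else F (A z.1) (A z.2))) =
      ∑ x, ∑ A : κ → α, (∏ k, w (A k)) * G (A x) +
        ∑ z : κ × κ, ∑ A : κ → α, (∏ k, w (A k)) * (if z.1 = z.2 then 0 else F (A z.1) (A z.2)) := by
    rw [Finset.sum_comm, Finset.sum_comm (s := (univ : Finset (κ × κ))), ← Finset.sum_add_distrib]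
    apply Finset.sum_congr rfl
    intro A _
    rw [mul_add, Finset.mul_sum, Finset.mul_sum]
  rw [e1]
  apply add_le_add
  · calc ∑ x, ∑ A : κ → α, (∏ k, w (A k)) * G (A x) ≤ ∑ _x : κ, γ := by
          apply Finset.sum_le_sum
          intro x _
          rw [marg1 w h1 x G]
          exact hγ
      _ = Fintype.card κ * γ := by rw [Finset.sum_const, Finset.card_univ, nsmul_eq_mul]
  · calc ∑ z : κ × κ, ∑ A : κ → α, (∏ k, w (A k)) * (if z.1 = z.2 then 0 else F (A z.1) (A z.2)) ≤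
        ∑ _z : κ × κ, φ := by
          apply Finset.sum_le_sum
          rintro ⟨x, y⟩ _
          by_cases hxy : x = y
          · simp only [hxy, if_true, mul_zero, Finset.sum_const_zero]
            exact hφ0
          · simp only [hxy, if_false]
            rw [marg2 w h1 x y hxy F]
            exact hφ
      _ = Fintype.card κ ^ 2 * φ := by
          rw [Finset.sum_const, Finset.card_univ, nsmul_eq_mul, Fintype.card_prod]
          push_cast
          ring

end Pool.Agent.H579
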