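import Pool.Agent.H579.Spread3

set_option autoImplicit false

/-! A third of all pairs for every spread probability measure. -/

namespace Pool.Agent.H579

open Finset Filter Pool.Agent.V11150.RatC

/-- the part of `m` composed of the primes up to `z`, cut off -/
def sm (z E m : ℕ) : ℕ := Nat.gcd m (primorial z ^ E)

theorem primorial_dvd {z l : ℕ} (hl : l.Prime) : l ∣ primorial z ↔ l ≤ z := by
  unfold primorial
  constructor
  · intro h
    obtain ⟨q, hq, hlq⟩ := (hl.prime.dvd_finsetProd_iff _).1 h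
    obtain ⟨h1, h2⟩ := mem_filter.1 hq
    rw [(Nat.prime_dvd_prime_iff_eq hl h2).1 hlq]
    rw [mem_range] at h1
    omega
  · intro h
    apply dvd_prod_of_mem (fun p : ℕ => p)
    rw [mem_filter, mem_range]
    exact ⟨by omega, hl⟩

theorem primorial_pos' (z : ℕ) : 0 < primorial z := prod_pos fun p hp => (mem_filter.1 hp).2.pos

theorem sm_pos (z E m : ℕ) : 1 ≤ sm z E m :=
  Nat.gcd_pos_of_pos_right _ (pow_pos (primorial_pos' z) _)

theorem sm_le (z E m : ℕ) : sm z E m ≤ primorial z ^ E :=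
  Nat.le_of_dvd (pow_pos (primorial_pos' z) _) (Nat.gcd_dvd_right _ _)

theorem sm_dvd (z E m : ℕ) : sm z E m ∣ primorial z ^ (E + 1) :=
  (Nat.gcd_dvd_right _ _).trans (pow_dvd_pow _ (Nat.le_succ _))

theorem sm_mul_dvd (z E m l : ℕ) (hl : l.Prime) (h : l ∣ primorial z ^ (E + 1)) :
    sm z E m * l ∣ primorial z ^ (E + 1) := by
  rw [pow_succ]
  exact mul_dvd_mul (Nat.gcd_dvd_right _ _) (hl.dvd_of_dvd_pow h)

theorem rough_part {z E m : ℕ} (hm : 1 ≤ m) (hok : ¬ ∃ l : ℕ, l.Prime ∧ l ≤ z ∧ l ^ (E + 1) ∣ m) {l : ℕ}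
    (hl : l.Prime) (hlW : l ∣ primorial z ^ (E + 1)) : ¬ l ∣ m / sm z E m := by
  intro h
  have hlP := hl.dvd_of_dvd_pow hlW
  have hlz : l ≤ z := (primorial_dvd hl).1 hlP
  have hd : sm z E m ∣ m := Nat.gcd_dvd_left _ _
  set e := m.factorization l with he
  have h1 : l ^ e ∣ m := Nat.ordProj_dvd m l
  have h2 : ¬ l ^ (e + 1) ∣ m := Nat.pow_succ_factorization_not_dvd (by omega) hl
  have heE : e ≤ E := by
    by_contra hlt
    exact hok ⟨l, hl, hlz, (pow_dvd_pow l (by omega)).trans h1⟩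
  have h3 : l ^ e ∣ sm z E m := Nat.dvd_gcd h1 ((pow_dvd_pow_of_dvd hlP e).trans (pow_dvd_pow _ heE))
  apply h2
  rw [pow_succ]
  have h4 : sm z E m * (m / sm z E m) = m := Nat.mul_div_cancel' hd
  rw [← h4]
  exact mul_dvd_mul h3 h

/-- from solutions of `m p - n q = c` to the reduced triple -/
theorem good_reduced {C m n c : ℕ} (hm : 1 ≤ m) (hn : 1 ≤ n) (hc : 1 ≤ c) (h : Often C (Sol m n c)) :
    Nat.gcd m n ∣ c ∧ Good C (m / Nat.gcd m n) (n / Nat.gcd m n) ((c / Nat.gcd m n : ℕ) : ℤ) := by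
  obtain ⟨p, hp⟩ := (often_infinite h).nonempty
  set g := Nat.gcd m n with hg
  have hg0 : 0 < g := Nat.gcd_pos_of_pos_left _ hm
  have hgm : g ∣ m := Nat.gcd_dvd_left _ _
  have hgn : g ∣ n := Nat.gcd_dvd_right _ _
  have hgc : g ∣ c := by
    obtain ⟨-, q, -, hpq⟩ := hp
    have h1 : (g : ℤ) ∣ (c : ℤ) := by
      rw [← hpq]
      exact dvd_sub ((Int.natCast_dvd_natCast.2 hgm).mul_right _) ((Int.natCast_dvd_natCast.2 hgn).mul_right _)
    exact_mod_cast h1
  refine ⟨hgc, ?_⟩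
  obtain ⟨m', hm'⟩ := hgm
  obtain ⟨n', hn'⟩ := hgn
  obtain ⟨c', hc'⟩ := hgc
  have e1 : m / g = m' := by rw [hm']; exact Nat.mul_div_cancel_left _ hg0
  have e2 : n / g = n' := by rw [hn']; exact Nat.mul_div_cancel_left _ hg0
  have e3 : c / g = c' := by rw [hc']; exact Nat.mul_div_cancel_left _ hg0
  rw [e1, e2, e3]
  have hm0 : 1 ≤ m' := by
    rcases Nat.eq_zero_or_pos m' with h0 | h0
    · rw [h0] at hm'; omega
    · exact h0
  have hn0 : 1 ≤ n' := by
    rcases Nat.eq_zero_or_pos n' with h0 | h0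
    · rw [h0] at hn'; omega
    · exact h0
  have hc0 : c' ≠ 0 := by
    intro h0
    rw [h0] at hc'
    omega
  apply good_of hm0 hn0 (by exact_mod_cast hc0)
  · have := Nat.coprime_div_gcd_div_gcd (m := m) (n := n) hg0
    rw [← hg, e1, e2] at this
    exact this
  · have hset : Sol m n (c : ℤ) = Sol m' n' (c' : ℤ) := by
      ext p
      unfold Sol
      simp only [Set.mem_ofPred_eq]
      have key : ∀ q : ℕ, ((m : ℤ) * p - n * q = c ↔ (m' : ℤ) * p - n' * q = c') := by
        intro q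
        have hgZ : (g : ℤ) ≠ 0 := by positivity
        rw [hm', hn', hc']
        push_cast
        constructor
        · intro h
          apply mul_left_cancel₀ hgZ
          linear_combination h
        · intro h
          linear_combination (g : ℤ) * h
      simp only [key]
    rw [← hset]
    exact h

/-- the number of the solvable constants `c ≤ L` for the reduced fraction `m / n` -/
noncomputable def cnt (C L m n : ℕ) : ℕ :=
  {c : ℕ | 1 ≤ c ∧ c ≤ L ∧ Good C (m / Nat.gcd m n) (n / Nat.gcd m n) c}.ncard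

theorem cnt_ge {C L M m n : ℕ} (hm : 1 ≤ m) (hn : 1 ≤ n) (hML : M ≤ L) :
    {c : ℕ | 1 ≤ c ∧ c ≤ M ∧ Often C (Sol m n c)}.ncard ≤ cnt C L m n := by
  unfold cnt
  have hg0 : 0 < Nat.gcd m n := Nat.gcd_pos_of_pos_left _ hm
  apply Set.ncard_le_ncard_of_injOn (fun c => c / Nat.gcd m n) _ _ ((Set.finite_Iic L).subset fun c hc => hc.2.1)
  · rintro c ⟨h1, h2, h3⟩
    obtain ⟨h4, h5⟩ := good_reduced hm hn h1 h3
    refine ⟨?_, ?_, h5⟩
    · exact Nat.div_pos (Nat.le_of_dvd h1 h4) hg0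
    · exact (Nat.div_le_self _ _).trans (h2.trans hML)
  · rintro c ⟨h1, h2, h3⟩ c' ⟨h1', h2', h3'⟩ he
    obtain ⟨h4, -⟩ := good_reduced hm hn h1 h3
    obtain ⟨h4', -⟩ := good_reduced hm hn h1' h3'
    have he' : c / Nat.gcd m n = c' / Nat.gcd m n := he
    rw [← Nat.mul_div_cancel' h4, ← Nat.mul_div_cancel' h4', he']

theorem tendsto_two_pow {θ : ℝ} (hθ : 0 < θ) : Tendsto (fun E : ℕ => ((2 : ℝ) ^ (E + 1)) ^ (-θ)) atTop (nhds 0) := by
  have h1 := (tendsto_rpow_neg_atTop hθ).comp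
    ((tendsto_pow_atTop_atTop_of_one_lt (one_lt_two (α := ℝ))).comp (tendsto_add_atTop_nat 1))
  exact h1

theorem spread_third : ∃ C : ℕ, ∀ θ C₀ ε : ℝ, 1 / 2 < θ → 0 < ε → ∃ (δ : ℝ) (L₀ : ℕ), 0 < δ ∧
    ∀ (α : Type) [Fintype α] (w : α → ℝ) (f : α → ℕ), Spr w f C₀ θ → ∀ L : ℕ, L₀ ≤ L →
      1 / 3 - ε ≤ ∑ a, ∑ b, w a * w b * ind (δ * L ≤ (cnt C L (f a) (f b) : ℝ)) := by
  classical
  obtain ⟨K, C, hK, hit⟩ := exists_hit
  refine ⟨C, ?_⟩
  intro θ C₀ ε hθ hε
  have hθ0 : 0 < θ := by linarith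
  by_cases hC : 1 ≤ C₀
  swap
  · refine ⟨1, 0, one_pos, ?_⟩
    intro α _ w f h
    exact absurd h.one_le hC
  have hC0 : 0 < C₀ := by linarith
  have hKr : (1 : ℝ) ≤ K := by exact_mod_cast hK
  have hK0 : (0 : ℝ) < K := by linarith
  obtain ⟨η, hη, H⟩ := third_oriented' K ε hε
  obtain ⟨z₂, hz₂⟩ := tail_le (2 * θ) (by linarith) (η / (64 * K ^ 2 * C₀ ^ 2)) (by positivity)
  obtain ⟨z₃, hz₃⟩ := tail_le (1 + θ) (by linarith) (η / (256 * K ^ 2 * C₀)) (by positivity)
  obtain ⟨z, hz⟩ : ∃ z : ℕ, z = 4 * K + z₂ + z₃ := ⟨_, rfl⟩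
  obtain ⟨E, hE⟩ : ∃ E : ℕ, ((2 : ℝ) ^ (E + 1)) ^ (-θ) ≤ η / (16 * K * C₀ * (z + 1)) := by
    have h1 := (tendsto_two_pow hθ0).eventually (gt_mem_nhds (show (0 : ℝ) < η / (16 * K * C₀ * (z + 1)) by positivity))
    obtain ⟨E, hE⟩ := h1.exists
    exact ⟨E, hE.le⟩
  obtain ⟨W, hWdef⟩ : ∃ W : ℕ, W = primorial z ^ (E + 1) := ⟨_, rfl⟩
  obtain ⟨S₀, hS₀def⟩ : ∃ S₀ : ℕ, S₀ = primorial z ^ E := ⟨_, rfl⟩
  have hW : 0 < W := by rw [hWdef]; exact pow_pos (primorial_pos' z) _
  have hS : 1 ≤ S₀ := by rw [hS₀def]; exact pow_pos (primorial_pos' z) _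
  have hWz : ∀ l : ℕ, l.Prime → z < l → ¬ l ∣ W := by
    intro l hl hlz h
    rw [hWdef] at h
    have := (primorial_dvd hl).1 (hl.dvd_of_dvd_pow h)
    omega
  have hWι : ∀ l : ℕ, l.Prime → l ≤ 4 * K → l ∣ W := by
    intro l hl hle
    rw [hWdef]
    exact dvd_pow ((primorial_dvd hl).2 (by omega)) (by omega)
  have hS0r : (1 : ℝ) ≤ S₀ := by exact_mod_cast hS
  obtain ⟨U₀, hU₀⟩ : ∃ U₀ : ℕ, ∀ U : ℕ, U₀ ≤ U → (U : ℝ) ^ (-θ) ≤ η / (128 * K ^ 2 * S₀ ^ 2 * C₀) := by
    have h1 := ((tendsto_rpow_neg_atTop hθ0).comp tendsto_natCast_atTop_atTop).eventually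
      (gt_mem_nhds (show (0 : ℝ) < η / (128 * K ^ 2 * S₀ ^ 2 * C₀) by positivity))
    obtain ⟨U₀, hU₀⟩ := eventually_atTop.1 h1
    exact ⟨U₀, fun U hU => (hU₀ U hU).le⟩
  obtain ⟨β, hβ⟩ : ∃ β : ℕ, β = 10 * S₀ ^ 4 * W * K := ⟨_, rfl⟩
  have hβ0 : 0 < β := by rw [hβ]; positivity
  have hβr : (1 : ℝ) ≤ β := by exact_mod_cast hβ0
  refine ⟨1 / (64 * K ^ 2 * β), β * (U₀ + β + 1), by positivity, ?_⟩
  intro α _ w f hspr L hL
  obtain ⟨U, hU⟩ : ∃ U : ℕ, U = L / β := ⟨_, rfl⟩
  have hUge : U₀ + β + 1 ≤ U := by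
    rw [hU, Nat.le_div_iff_mul_le hβ0, mul_comm]
    exact hL
  have hU1 : 1 ≤ U := by omega
  have hUL : β * U ≤ L := by rw [hU]; exact Nat.mul_div_le _ _
  have hLU : L < β * (U + 1) := by
    rw [hU]
    exact Nat.lt_mul_div_succ L hβ0
  have hUr : (0 : ℝ) < U := by exact_mod_cast hU1
  set s : α → ℕ := fun a => sm z E (f a) with hs
  have hs0 : ∀ a, 1 ≤ s a := fun a => sm_pos _ _ _
  have hsS : ∀ a, s a ≤ S₀ := fun a => by rw [hS₀def]; exact sm_le _ _ _
  have hsW : ∀ a, s a ∣ W := fun a => by rw [hWdef]; exact sm_dvd _ _ _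
  set ok : α → Prop := fun a => ¬ ∃ l : ℕ, l.Prime ∧ l ≤ z ∧ l ^ (E + 1) ∣ f a with hok
  set com : α → α → Prop := fun a b => ∃ l : ℕ, l.Prime ∧ z < l ∧ l ∣ f a ∧ l ∣ f b with hcom
  set Ev : Fin 4 × Fin K → Fin 4 × Fin K → α → α → Fin U → Fin U → Prop := fun x y a b u v =>
    ∃ l : ℕ, l.Prime ∧ z < l ∧ l ∣ f a ∧ (l : ℤ) ∣ df W S₀ K U (s a) (s b) x y u v with hEv
  set Φ : Fin 4 × Fin K → Fin 4 × Fin K → α → α → ℝ := fun x y a b =>
    1 / (U : ℝ) ^ 2 * ∑ u : Fin U, ∑ v : Fin U, ind (Ev x y a b u v) with hΦ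
  have hΦn : ∀ x y a b, 0 ≤ Φ x y a b := fun x y a b =>
    mul_nonneg (by positivity) (Finset.sum_nonneg fun u _ => Finset.sum_nonneg fun v _ => ind_nonneg _)
  set Z : (Fin 4 × Fin K → α) → ℝ := fun A => ∑ a : Fin 4 × Fin K → Fin U, (∏ _x : Fin 4 × Fin K, (1 / (U : ℝ))) *
    ind (NiceA W S₀ K U (fun x => s (A x)) (fun x => f (A x) / s (A x)) a) with hZ
  refine H α w hspr.nn hspr.one (fun a b => 1 / (64 * K ^ 2 * β) * (L : ℝ) ≤ (cnt C L (f a) (f b) : ℝ))
    (fun A => (∀ x, ok (A x)) ∧ (∀ x y, x ≠ y → ¬ com (A x) (A y)) ∧ 1 / 2 ≤ Z A) ?_ ?_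
  · -- nice tuples
    rintro A ⟨hA1, hA2, hA3⟩
    have hsd : ∀ x, s (A x) ∣ f (A x) := fun x => Nat.gcd_dvd_left _ _
    have hsr : ∀ x, s (A x) * (f (A x) / s (A x)) = f (A x) := fun x => Nat.mul_div_cancel' (hsd x)
    have hr0 : ∀ x, 0 < f (A x) / s (A x) := fun x => Nat.div_pos (Nat.le_of_dvd (hspr.pos _) (hsd x)) (hs0 _)
    have hrW : ∀ x, ∀ l : ℕ, l.Prime → l ∣ W → ¬ l ∣ f (A x) / s (A x) := by
      intro x l hl hlW
      rw [hWdef] at hlW
      exact rough_part (hspr.pos _) (hA1 x) hl hlW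
    have hrz : ∀ x, ∀ l : ℕ, l.Prime → l ∣ f (A x) / s (A x) → z < l ∧ l ∣ f (A x) := by
      intro x l hl hlr
      refine ⟨?_, by rw [← hsr x]; exact hlr.mul_left _⟩
      by_contra hle
      apply hrW x l hl _ hlr
      rw [hWdef]
      exact dvd_pow ((primorial_dvd hl).2 (by omega)) (by omega)
    obtain ⟨x, y, hxy, hn⟩ := hit_many hK hit W S₀ U hW hS hU1 hWι (fun x => s (A x)) (fun x => f (A x) / s (A x))
      (fun x => hs0 _) (fun x => hsS _) (fun x => hsW _)
      (by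
        intro x l hl hlW
        rw [hWdef] at hlW ⊢
        exact sm_mul_dvd _ _ _ l hl hlW)
      hr0
      (by
        intro x y hxy
        by_contra hnc
        obtain ⟨l, hl, hl1, hl2⟩ := Nat.Prime.not_coprime_iff_dvd.1 hnc
        exact hA2 x y hxy ⟨l, hl, (hrz x l hl hl1).1, (hrz x l hl hl1).2, (hrz y l hl hl2).2⟩)
      hrW hA3
    refine ⟨x, y, hxy, ?_⟩
    simp only [hsr] at hn
    have h2 := cnt_ge (C := C) (L := L) (M := 10 * S₀ ^ 4 * W * K * U) (hspr.pos (A x)) (hspr.pos (A y))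
      (by rw [← hβ]; exact hUL)
    have h3 : (U : ℝ) / (32 * K ^ 2) ≤ (cnt C L (f (A x)) (f (A y)) : ℝ) := hn.trans (by exact_mod_cast h2)
    refine le_trans ?_ h3
    have h4 : (L : ℝ) ≤ 2 * β * U := by
      have h5 : (L : ℝ) ≤ β * (U + 1) := by exact_mod_cast hLU.le
      have h6 : (1 : ℝ) ≤ U := by exact_mod_cast hU1
      nlinarith
    rw [div_mul_eq_mul_div, one_mul, div_le_div_iff₀ (by positivity) (by positivity)]
    calc (L : ℝ) * (32 * K ^ 2) ≤ (2 * β * U) * (32 * K ^ 2) := mul_le_mul_of_nonneg_right h4 (by positivity)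
      _ = U * (64 * K ^ 2 * β) := by ring
  · -- few tuples are not nice
    have hU11 : ∑ _a : Fin U, (1 / (U : ℝ)) = 1 := by
      rw [Finset.sum_const, Finset.card_univ, Fintype.card_fin, nsmul_eq_mul]
      field_simp
    have hb := union_bound' (κ := Fin 4 × Fin K) w hspr.nn hspr.one
      (fun A => (∀ x, ok (A x)) ∧ (∀ x y, x ≠ y → ¬ com (A x) (A y)) ∧ 1 / 2 ≤ Z A)
      (fun a => ind (¬ ok a)) (fun x y a b => ind (com a b) + 2 * Φ x y a b)
      (by
        intro A
        have hn1 : 0 ≤ ∑ x, ind (¬ ok (A x)) := Finset.sum_nonneg fun _ _ => ind_nonneg _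
        have hnn : ∀ z ∈ (univ : Finset ((Fin 4 × Fin K) × (Fin 4 × Fin K))),
            0 ≤ (if z.1 = z.2 then 0 else (ind (com (A z.1) (A z.2)) + 2 * Φ z.1 z.2 (A z.1) (A z.2))) := by
          intro z _
          split_ifs
          · exact le_rfl
          · exact add_nonneg (ind_nonneg _) (mul_nonneg (by norm_num) (hΦn _ _ _ _))
        have hn2 := Finset.sum_nonneg hnn
        by_cases hA : (∀ x, ok (A x)) ∧ (∀ x y, x ≠ y → ¬ com (A x) (A y)) ∧ 1 / 2 ≤ Z A
        · rw [ind_neg (not_not.2 hA)]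
          exact add_nonneg hn1 hn2
        rw [ind_pos hA]
        by_cases hA1 : ∀ x, ok (A x)
        swap
        · rw [not_forall] at hA1
          obtain ⟨x, hx⟩ := hA1
          have h1 := Finset.single_le_sum (f := fun x => ind (¬ ok (A x))) (fun x _ => ind_nonneg _) (mem_univ x)
          rw [ind_pos hx] at h1
          linarith
        by_cases hA2 : ∀ x y, x ≠ y → ¬ com (A x) (A y)
        swap
        · push Not at hA2
          obtain ⟨x, y, hxy, hc⟩ := hA2
          have h1 := Finset.single_le_sum hnn (mem_univ (x, y))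
          rw [if_neg hxy, ind_pos hc] at h1
          have h2 := hΦn x y (A x) (A y)
          linarith
        · have hZlt : Z A < 1 / 2 := by
            by_contra hge
            exact hA ⟨hA1, hA2, not_lt.1 hge⟩
          -- the complementary event
          have hcompl : 1 - Z A ≤ ∑ z : (Fin 4 × Fin K) × (Fin 4 × Fin K),
              (if z.1 = z.2 then 0 else Φ z.1 z.2 (A z.1) (A z.2)) := by
            have hone : ∑ a : Fin 4 × Fin K → Fin U, (∏ _x : Fin 4 × Fin K, (1 / (U : ℝ))) = 1 := by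
              rw [Finset.sum_const, Finset.card_univ, Fintype.card_fun, Finset.prod_const, Finset.card_univ,
                Fintype.card_fin, nsmul_eq_mul]
              push_cast
              rw [← mul_pow]
              have : (U : ℝ) * (1 / U) = 1 := by field_simp
              rw [this, one_pow]
            have e1 : 1 - Z A = ∑ a : Fin 4 × Fin K → Fin U, (∏ _x : Fin 4 × Fin K, (1 / (U : ℝ))) *
                ind (¬ NiceA W S₀ K U (fun x => s (A x)) (fun x => f (A x) / s (A x)) a) := by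
              have e0 : 1 - Z A = ∑ a : Fin 4 × Fin K → Fin U, (∏ _x : Fin 4 × Fin K, (1 / (U : ℝ))) - Z A := by
                rw [hone]
              rw [e0, hZ, ← Finset.sum_sub_distrib]
              apply Finset.sum_congr rfl
              intro a _
              rw [ind_not, mul_sub, mul_one]
            rw [e1]
            have hpt : ∀ a : Fin 4 × Fin K → Fin U,
                ind (¬ NiceA W S₀ K U (fun x => s (A x)) (fun x => f (A x) / s (A x)) a) ≤
                ∑ z : (Fin 4 × Fin K) × (Fin 4 × Fin K),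
                  (if z.1 = z.2 then 0 else ind (Ev z.1 z.2 (A z.1) (A z.2) (a z.1) (a z.2))) := by
              intro a
              have hnn' : ∀ z ∈ (univ : Finset ((Fin 4 × Fin K) × (Fin 4 × Fin K))),
                  0 ≤ (if z.1 = z.2 then 0 else ind (Ev z.1 z.2 (A z.1) (A z.2) (a z.1) (a z.2))) := by
                intro z _
                split_ifs
                · exact le_rfl
                · exact ind_nonneg _
              by_cases hna : NiceA W S₀ K U (fun x => s (A x)) (fun x => f (A x) / s (A x)) a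
              · rw [ind_neg (not_not.2 hna)]
                exact Finset.sum_nonneg hnn'
              · rw [ind_pos hna]
                unfold NiceA at hna
                push Not at hna
                obtain ⟨x, y, hxy, l, hl, hlr, hld⟩ := hna
                have h1 := Finset.single_le_sum hnn' (mem_univ (x, y))
                rw [if_neg hxy] at h1
                refine le_trans (le_of_eq ?_) h1
                symm
                apply ind_pos
                have hlf : l ∣ f (A x) := hlr.trans (Nat.div_dvd_of_dvd (Nat.gcd_dvd_left _ _))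
                refine ⟨l, hl, ?_, hlf, hld⟩
                by_contra hle
                apply rough_part (hspr.pos _) (hA1 x) hl _ hlr
                exact dvd_pow ((primorial_dvd hl).2 (by omega)) (by omega)
            have hwn : 0 ≤ ∏ _x : Fin 4 × Fin K, (1 / (U : ℝ)) := Finset.prod_nonneg fun _ _ => by positivity
            refine (Finset.sum_le_sum fun a _ => mul_le_mul_of_nonneg_left (hpt a) hwn).trans (le_of_eq ?_)
            simp only [Finset.mul_sum]
            rw [Finset.sum_comm]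
            apply Finset.sum_congr rfl
            rintro ⟨x, y⟩ _
            by_cases hxy : x = y
            · simp [hxy]
            · simp only [hxy, if_false]
              have e2 := marg2 (fun _ : Fin U => 1 / (U : ℝ)) hU11 x y hxy
                (fun u v => ind (Ev x y (A x) (A y) u v))
              rw [e2, hΦ]
              simp only [Finset.mul_sum]
              apply Finset.sum_congr rfl
              intro u _
              apply Finset.sum_congr rfl
              intro v _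
              field_simp
          have hle2 : 2 * ∑ z : (Fin 4 × Fin K) × (Fin 4 × Fin K),
              (if z.1 = z.2 then 0 else Φ z.1 z.2 (A z.1) (A z.2)) ≤
              ∑ z : (Fin 4 × Fin K) × (Fin 4 × Fin K),
                (if z.1 = z.2 then 0 else (ind (com (A z.1) (A z.2)) + 2 * Φ z.1 z.2 (A z.1) (A z.2))) := by
            rw [Finset.mul_sum]
            apply Finset.sum_le_sum
            intro z _
            split_ifs
            · rw [mul_zero]
            · have := ind_nonneg (com (A z.1) (A z.2))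
              linarith
          linarith)
      ((z + 1) * (C₀ * ((2 : ℝ) ^ (E + 1)) ^ (-θ)))
      (C₀ ^ 2 * (η / (64 * K ^ 2 * C₀ ^ 2)) + 2 * (2 * C₀ * (η / (256 * K ^ 2 * C₀)) +
        (S₀ : ℝ) ^ 2 * (C₀ * (U : ℝ) ^ (-θ))))
      (by
        have h1 := hspr.powers hθ0 z E
        refine le_trans (le_of_eq ?_) h1
        apply Finset.sum_congr rfl
        intro a _
        simp only [hok, not_not])
      (by
        intro x y hxy
        have h1 := hspr.common z (η / (64 * K ^ 2 * C₀ ^ 2)) (fun F hF => hz₂ F (fun n hn => by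
          have := hF n hn
          omega))
        have h2 := hspr.shifts hθ0 hW hS hU1 (by rw [← hβ]; omega) hWz hK (by omega) s hs0 hsS hsW x y hxy
          (η / (256 * K ^ 2 * C₀)) (fun F hF => hz₃ F (fun n hn => by
          have := hF n hn
          omega))
        have e1 : ∑ a, ∑ b, w a * w b * (ind (com a b) + 2 * Φ x y a b) =
            ∑ a, ∑ b, w a * w b * ind (com a b) + 2 * ∑ a, ∑ b, w a * w b * Φ x y a b := by
          rw [Finset.mul_sum, ← Finset.sum_add_distrib]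
          apply Finset.sum_congr rfl
          intro a _
          rw [Finset.mul_sum, ← Finset.sum_add_distrib]
          apply Finset.sum_congr rfl
          intro b _
          ring
        rw [e1]
        exact add_le_add h1 (mul_le_mul_of_nonneg_left h2 (by norm_num)))
      (by
        have : 0 ≤ (U : ℝ) ^ (-θ) := Real.rpow_nonneg hUr.le _
        positivity)
    refine hb.trans ?_
    rw [Fintype.card_prod, Fintype.card_fin, Fintype.card_fin]
    push_cast
    have t1 : 4 * (K : ℝ) * ((z + 1) * (C₀ * ((2 : ℝ) ^ (E + 1)) ^ (-θ))) ≤ η / 4 := by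
      calc 4 * (K : ℝ) * ((z + 1) * (C₀ * ((2 : ℝ) ^ (E + 1)) ^ (-θ))) ≤
          4 * (K : ℝ) * ((z + 1) * (C₀ * (η / (16 * K * C₀ * (z + 1))))) := by gcongr
        _ = η / 4 := by field_simp; norm_num
    have t2 : (4 * (K : ℝ)) ^ 2 * (C₀ ^ 2 * (η / (64 * K ^ 2 * C₀ ^ 2))) = η / 4 := by
      field_simp; norm_num
    have t3 : (4 * (K : ℝ)) ^ 2 * (2 * (2 * C₀ * (η / (256 * K ^ 2 * C₀)))) = η / 4 := by
      field_simp; norm_num
    have t4 : (4 * (K : ℝ)) ^ 2 * (2 * ((S₀ : ℝ) ^ 2 * (C₀ * (U : ℝ) ^ (-θ)))) ≤ η / 4 := by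
      have h5 := hU₀ U (by omega)
      calc (4 * (K : ℝ)) ^ 2 * (2 * ((S₀ : ℝ) ^ 2 * (C₀ * (U : ℝ) ^ (-θ)))) ≤
          (4 * (K : ℝ)) ^ 2 * (2 * ((S₀ : ℝ) ^ 2 * (C₀ * (η / (128 * K ^ 2 * S₀ ^ 2 * C₀))))) := by gcongr
        _ = η / 4 := by field_simp; norm_num
    nlinarith [t1, t2, t3, t4]

end Pool.Agent.H579
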