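import Pool.Agent.H579.Hit
import Pool.Agent.H579.Abs2

set_option autoImplicit false

/-! Arbitrary sets of pairwise coprime coefficients. -/

namespace Pool.Agent.H579

open Finset Filter Pool.Agent.V11150.RatC

/-- passing from the subtype to pairs -/
theorem sum_ind_le (V : Finset ℕ) (R : ℕ → ℕ → Prop) (hV : 0 < V.card) (ρ : ℝ)
    (h : ρ ≤ ∑ x : ↥V, ∑ y : ↥V, (1 / (V.card : ℝ)) * (1 / (V.card : ℝ)) * ind (R x y)) :
    ρ * (V.card : ℝ) ^ 2 ≤ ({z : ℕ × ℕ | z.1 ∈ V ∧ z.2 ∈ V ∧ R z.1 z.2}.ncard : ℝ) := by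
  classical
  have hN : (0 : ℝ) < V.card := by exact_mod_cast hV
  have h1 : ∑ x : ↥V, ∑ y : ↥V, (1 / (V.card : ℝ)) * (1 / (V.card : ℝ)) * ind (R x y) =
      (1 / (V.card : ℝ) ^ 2) * (((V ×ˢ V).filter (fun z => R z.1 z.2)).card : ℝ) := by
    rw [Finset.card_filter]
    push_cast
    rw [Finset.sum_product, Finset.mul_sum, ← Finset.sum_coe_sort V]
    apply Finset.sum_congr rfl
    intro x _
    rw [Finset.mul_sum, ← Finset.sum_coe_sort V]
    apply Finset.sum_congr rfl
    intro y _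
    have e : ind (R x y) = if R x y then 1 else 0 := by
      by_cases hR : R x y
      · rw [ind_pos hR, if_pos hR]
      · rw [ind_neg hR, if_neg hR]
    simp only [e]
    ring
  rw [h1] at h
  have h2 : {z : ℕ × ℕ | z.1 ∈ V ∧ z.2 ∈ V ∧ R z.1 z.2} =
      (((V ×ˢ V).filter (fun z => R z.1 z.2) : Finset (ℕ × ℕ)) : Set (ℕ × ℕ)) := by
    ext z
    simp only [Set.mem_ofPred_eq, coe_filter, mem_product]
    tauto
  rw [h2, Set.ncard_coe_finset]
  calc ρ * (V.card : ℝ) ^ 2 ≤ ((1 / (V.card : ℝ) ^ 2) * (((V ×ˢ V).filter (fun z => R z.1 z.2)).card : ℝ)) *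
        (V.card : ℝ) ^ 2 := mul_le_mul_of_nonneg_right h (by positivity)
    _ = _ := by field_simp

open Classical in
/-- few elements of a pairwise coprime set have a small prime factor -/
theorem few_small (V : Finset ℕ) (hcop : ∀ a ∈ V, ∀ b ∈ V, a ≠ b → Nat.Coprime a b) (L : ℕ) :
    ({a ∈ V | ∃ l : ℕ, l.Prime ∧ l ≤ L ∧ l ∣ a} : Finset ℕ).card ≤ L := by
  have h1 : ({a ∈ V | ∃ l : ℕ, l.Prime ∧ l ≤ L ∧ l ∣ a} : Finset ℕ).card ≤ (Icc 1 L).card := by
    apply Finset.card_le_card_of_injOn (fun a => Nat.minFac a)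
    · intro a ha
      obtain ⟨ha1, l, hl, hlL, hla⟩ := mem_filter.1 (mem_coe.1 ha)
      rw [mem_coe, mem_Icc]
      exact ⟨Nat.minFac_pos _, (Nat.minFac_le_of_dvd hl.two_le hla).trans hlL⟩
    · intro a ha b hb hab
      obtain ⟨ha1, l, hl, hlL, hla⟩ := mem_filter.1 (mem_coe.1 ha)
      obtain ⟨hb1, -⟩ := mem_filter.1 (mem_coe.1 hb)
      by_contra hne
      have h2 : a ≠ 1 := by
        intro h
        rw [h] at hla
        exact hl.one_lt.ne' (Nat.dvd_one.1 hla)
      have h3 := Nat.minFac_prime h2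
      have hab' : Nat.minFac a = Nat.minFac b := hab
      have h4 := Nat.dvd_gcd (Nat.minFac_dvd a) (hab' ▸ Nat.minFac_dvd b : Nat.minFac a ∣ b)
      rw [hcop a ha1 b hb1 hne] at h4
      exact h3.one_lt.ne' (Nat.dvd_one.1 h4)
  rwa [Nat.card_Icc, Nat.add_sub_cancel] at h1

theorem arbitrary_sets : ∃ (C : ℕ) (δ : ℝ) (L₀ : ℕ), 0 < δ ∧ ∀ ε : ℝ, 0 < ε → ∃ N₁ : ℕ, ∀ L : ℕ, L₀ ≤ L →
    ∀ V : Finset ℕ, (∀ a ∈ V, 1 ≤ a) → (∀ a ∈ V, ∀ b ∈ V, a ≠ b → Nat.Coprime a b) → N₁ * L ≤ V.card →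
    (1 / 3 - ε) * (V.card : ℝ) ^ 2 ≤ ({z : ℕ × ℕ | z.1 ∈ V ∧ z.2 ∈ V ∧
      δ * L ≤ ({c : ℕ | 1 ≤ c ∧ c ≤ L ∧ Good C z.1 z.2 c}.ncard : ℝ)}.ncard : ℝ) := by
  classical
  obtain ⟨K, C, hK, hit⟩ := exists_hit
  obtain ⟨W, hWdef⟩ : ∃ W : ℕ, W = (4 * K).factorial := ⟨_, rfl⟩
  have hW : 0 < W := by rw [hWdef]; exact Nat.factorial_pos _
  have hWι : ∀ l : ℕ, l.Prime → l ≤ 4 * K → l ∣ W := by
    intro l hl hle
    rw [hWdef]
    exact (hl.dvd_factorial).2 hle
  have hWr : (1 : ℝ) ≤ W := by exact_mod_cast hW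
  have hKr : (1 : ℝ) ≤ K := by exact_mod_cast hK
  refine ⟨C, 1 / (640 * W * K ^ 3), 20 * W * K, by positivity, ?_⟩
  intro ε hε
  obtain ⟨η, hη, H⟩ := third_oriented' K ε hε
  obtain ⟨N₁, hN₁⟩ := exists_nat_ge ((16 * (K : ℝ) ^ 2 + 4 * K) / η + 1)
  refine ⟨N₁, ?_⟩
  intro L hL V hVpos hcop hcard
  have hWK : 1 ≤ W * K := Nat.mul_pos hW hK
  have hL1 : 1 ≤ L := by nlinarith
  have hLr : (1 : ℝ) ≤ L := by exact_mod_cast hL1
  have hN₁' : (16 * (K : ℝ) ^ 2 + 4 * K) / η ≤ N₁ := by linarith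
  have hN₁1 : (1 : ℝ) ≤ N₁ := by
    have : 0 ≤ (16 * (K : ℝ) ^ 2 + 4 * K) / η := by positivity
    linarith
  have hVr : (N₁ : ℝ) * L ≤ V.card := by exact_mod_cast hcard
  have hV0r : (0 : ℝ) < V.card := by nlinarith
  have hV0 : 0 < V.card := by exact_mod_cast hV0r
  -- the range of the shifts
  obtain ⟨U, hU⟩ : ∃ U : ℕ, U = L / (10 * W * K) := ⟨_, rfl⟩
  have hUL : 10 * W * K * U ≤ L := by rw [hU]; exact Nat.mul_div_le _ _
  have hU2 : L < 10 * W * K * (U + 1) := by
    rw [hU]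
    have h1 := Nat.lt_mul_div_succ L (show 0 < 10 * W * K by positivity)
    exact h1
  have hU1 : 1 ≤ U := by
    by_contra hlt
    have h0 : U = 0 := by omega
    rw [h0] at hU2
    nlinarith
  have hU3 : L ≤ 20 * W * K * U := by nlinarith
  apply sum_ind_le V (fun a b => 1 / (640 * W * K ^ 3) * (L : ℝ) ≤
    ({c : ℕ | 1 ≤ c ∧ c ≤ L ∧ Good C a b c}.ncard : ℝ)) hV0
  refine H (↥V) (fun _ => 1 / (V.card : ℝ)) (fun _ => by positivity) ?_ (fun a b => 1 / (640 * W * K ^ 3) * (L : ℝ) ≤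
    ({c : ℕ | 1 ≤ c ∧ c ≤ L ∧ Good C a b c}.ncard : ℝ))
    (fun A => (∀ x y, x ≠ y → A x ≠ A y) ∧ ∀ x, ¬ ∃ l : ℕ, l.Prime ∧ l ≤ L ∧ l ∣ (A x : ℕ)) ?_ ?_
  · rw [Finset.sum_const, Finset.card_univ, Fintype.card_coe, nsmul_eq_mul]
    field_simp
  · -- nice tuples
    rintro A ⟨hA1, hA2⟩
    have hA3 : ∀ x, ∀ l : ℕ, l.Prime → l ∣ (A x : ℕ) → L < l := by
      intro x l hl hlA
      by_contra hle
      exact hA2 x ⟨l, hl, by omega, hlA⟩
    have h4K : 4 * K ≤ W := by rw [hWdef]; exact Nat.self_le_factorial _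
    obtain ⟨x, y, hxy, hn⟩ := hit_many hK hit W 1 U hW le_rfl hU1 hWι (fun _ => 1) (fun x => (A x : ℕ))
      (fun _ => one_pos) (fun _ => le_rfl) (fun _ => one_dvd _) (fun _ l _ hlW => by rw [one_mul]; exact hlW)
      (fun x => hVpos _ (A x).2)
      (fun x y hxy => hcop _ (A x).2 _ (A y).2 (fun h => hA1 x y hxy (Subtype.ext h)))
      (by
        intro x l hl hlW hlA
        have h1 := hA3 x l hl hlA
        -- primes dividing `(4 K)!` are at most `4 K`
        rw [hWdef] at hlW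
        have h2 := (hl.dvd_factorial).1 hlW
        have h3 : W * K ≤ L := by nlinarith
        nlinarith)
      (by
        have hall : ∀ a : Fin 4 × Fin K → Fin U, ind (NiceA W 1 K U (fun _ => 1) (fun x => (A x : ℕ)) a) = 1 := by
          intro a
          apply ind_pos
          intro x y hxy l hl hlA hd
          have h1 := hA3 x l hl hlA
          unfold df at hd
          have e1 := sh_le hW (le_refl 1) x (K := K) (a x).2 (le_refl 1)
          have e2 := sh_le hW (le_refl 1) y (K := K) (a y).2 (le_refl 1)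
          have e3 := sh_ne hW (le_refl 1) hK hxy (a x).2 (a y).2 (le_refl 1) (one_dvd _) (le_refl 1) (one_dvd _)
            (le_refl 1) (le_refl 1)
          simp only [one_mul, one_pow, mul_one] at e1 e2 e3
          have e4 : (sh W 1 K U x (a x) : ℤ) ≤ L := by exact_mod_cast e1.trans hUL
          have e5 : (sh W 1 K U y (a y) : ℤ) ≤ L := by exact_mod_cast e2.trans hUL
          have e6 : (0 : ℤ) ≤ sh W 1 K U x (a x) := Nat.cast_nonneg _
          have e7 : (0 : ℤ) ≤ sh W 1 K U y (a y) := Nat.cast_nonneg _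
          have e8 : (L : ℤ) < l := by exact_mod_cast h1
          have e9 := Int.eq_zero_of_abs_lt_dvd hd (by
            push_cast
            rw [one_mul, one_mul, abs_lt]
            constructor <;> linarith)
          push_cast at e9
          rw [one_mul, one_mul] at e9
          apply e3
          have : (sh W 1 K U x (a x) : ℤ) = sh W 1 K U y (a y) := by linarith
          exact_mod_cast this
        have hs : ∑ a : Fin 4 × Fin K → Fin U, (∏ _x : Fin 4 × Fin K, (1 / (U : ℝ))) *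
            ind (NiceA W 1 K U (fun _ => 1) (fun x => (A x : ℕ)) a) = 1 := by
          simp only [hall, mul_one]
          rw [Finset.sum_const, Finset.card_univ, Fintype.card_fun, Finset.prod_const, Finset.card_univ,
            Fintype.card_fin, nsmul_eq_mul]
          push_cast
          rw [← mul_pow]
          have : (U : ℝ) * (1 / U) = 1 := by
            have : (0 : ℝ) < U := by exact_mod_cast hU1
            field_simp
          rw [this, one_pow]
        rw [hs]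
        norm_num)
    refine ⟨x, y, hxy, ?_⟩
    have hne : x ≠ y := fun h => hxy.ne (congrArg Prod.fst h)
    have hAc := hcop _ (A x).2 _ (A y).2 (fun h => hA1 x y hne (Subtype.ext h))
    have hle : (U : ℝ) / (32 * K ^ 2) ≤ ({c : ℕ | 1 ≤ c ∧ c ≤ L ∧ Good C (A x) (A y) c}.ncard : ℝ) := by
      refine hn.trans ?_
      rw [Nat.cast_le]
      apply Set.ncard_le_ncard _ ((Set.finite_Iic L).subset fun c hc => hc.2.1)
      rintro c ⟨h1, h2, h3⟩
      rw [one_pow, mul_one] at h2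
      rw [one_mul, one_mul] at h3
      refine ⟨h1, h2.trans hUL, good_of (hVpos _ (A x).2) (hVpos _ (A y).2) ?_ hAc h3⟩
      exact_mod_cast (by omega : c ≠ 0)
    refine le_trans ?_ hle
    have hU3r : (L : ℝ) ≤ 20 * W * K * U := by exact_mod_cast hU3
    rw [div_mul_eq_mul_div, one_mul, div_le_div_iff₀ (by positivity) (by positivity)]
    calc (L : ℝ) * (32 * K ^ 2) ≤ (20 * W * K * U) * (32 * K ^ 2) := mul_le_mul_of_nonneg_right hU3r (by positivity)
      _ = U * (640 * W * K ^ 3) := by ring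
  · -- few tuples are not nice
    have hb := union_bound (κ := Fin 4 × Fin K) (fun _ : ↥V => 1 / (V.card : ℝ)) (fun _ => by positivity)
      (by
        rw [Finset.sum_const, Finset.card_univ, Fintype.card_coe, nsmul_eq_mul]
        field_simp)
      (fun A => (∀ x y, x ≠ y → A x ≠ A y) ∧ ∀ x, ¬ ∃ l : ℕ, l.Prime ∧ l ≤ L ∧ l ∣ (A x : ℕ))
      (fun a => ind (∃ l : ℕ, l.Prime ∧ l ≤ L ∧ l ∣ (a : ℕ))) (fun a b => ind (a = b)) (fun _ _ => ind_nonneg _)
      (by
        intro A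
        have hn1 : 0 ≤ ∑ x, ind (∃ l : ℕ, l.Prime ∧ l ≤ L ∧ l ∣ (A x : ℕ)) := Finset.sum_nonneg fun _ _ => ind_nonneg _
        have hnn : ∀ z ∈ (univ : Finset ((Fin 4 × Fin K) × (Fin 4 × Fin K))),
            0 ≤ (if z.1 = z.2 then 0 else ind (A z.1 = A z.2)) := by
          intro z _
          split_ifs
          · exact le_rfl
          · exact ind_nonneg _
        have hn2 := Finset.sum_nonneg hnn
        by_cases hA : (∀ x y, x ≠ y → A x ≠ A y) ∧ ∀ x, ¬ ∃ l : ℕ, l.Prime ∧ l ≤ L ∧ l ∣ (A x : ℕ)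
        · rw [ind_neg (not_not.2 hA)]
          exact add_nonneg hn1 hn2
        · rw [ind_pos hA]
          by_cases hA2 : ∀ x, ¬ ∃ l : ℕ, l.Prime ∧ l ≤ L ∧ l ∣ (A x : ℕ)
          · have hA1 : ¬ ∀ x y, x ≠ y → A x ≠ A y := fun h => hA ⟨h, hA2⟩
            push Not at hA1
            obtain ⟨x, y, hxy, he⟩ := hA1
            have h1 := Finset.single_le_sum hnn (mem_univ (x, y))
            rw [if_neg hxy, ind_pos he] at h1
            linarith
          · push Not at hA2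
            obtain ⟨x, hx⟩ := hA2
            have h1 := Finset.single_le_sum (f := fun x => ind (∃ l : ℕ, l.Prime ∧ l ≤ L ∧ l ∣ (A x : ℕ)))
              (fun x _ => ind_nonneg _) (mem_univ x)
            rw [ind_pos hx] at h1
            linarith)
      (L / V.card) (1 / V.card)
      (by
        rw [← Finset.mul_sum]
        have h1 : ∑ a : ↥V, ind (∃ l : ℕ, l.Prime ∧ l ≤ L ∧ l ∣ (a : ℕ)) =
            (({a ∈ V | ∃ l : ℕ, l.Prime ∧ l ≤ L ∧ l ∣ a} : Finset ℕ).card : ℝ) := by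
          rw [Finset.card_filter, ← Finset.sum_coe_sort V]
          push_cast
          apply Finset.sum_congr rfl
          intro a _
          by_cases h : ∃ l : ℕ, l.Prime ∧ l ≤ L ∧ l ∣ (a : ℕ)
          · rw [ind_pos h, if_pos h]
          · rw [ind_neg h, if_neg h]
        rw [h1]
        have h2 : (({a ∈ V | ∃ l : ℕ, l.Prime ∧ l ≤ L ∧ l ∣ a} : Finset ℕ).card : ℝ) ≤ L := by
          exact_mod_cast few_small V hcop L
        rw [one_div, inv_mul_eq_div]
        exact div_le_div_of_nonneg_right h2 hV0r.le)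
      (by
        have h1 : ∀ a : ↥V, ∑ b : ↥V, (1 / (V.card : ℝ)) * (1 / (V.card : ℝ)) * ind (a = b) =
            (1 / (V.card : ℝ)) * (1 / (V.card : ℝ)) := by
          intro a
          rw [Finset.sum_eq_single a]
          · rw [ind_pos rfl, mul_one]
          · intro b _ hb
            rw [ind_neg (fun h => hb h.symm), mul_zero]
          · intro h
            exact absurd (mem_univ _) h
        simp only [h1]
        rw [Finset.sum_const, Finset.card_univ, Fintype.card_coe, nsmul_eq_mul]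
        apply le_of_eq
        field_simp)
    refine hb.trans ?_
    rw [Fintype.card_prod, Fintype.card_fin, Fintype.card_fin]
    push_cast
    have h1 : 4 * (K : ℝ) * (L / V.card) + (4 * (K : ℝ)) ^ 2 * (1 / V.card) ≤
        ((16 * (K : ℝ) ^ 2 + 4 * K) * L) / V.card := by
      have h2 : 4 * (K : ℝ) * (L / V.card) + (4 * (K : ℝ)) ^ 2 * (1 / V.card) =
          (4 * K * L + 16 * K ^ 2) / V.card := by ring
      rw [h2]
      apply div_le_div_of_nonneg_right _ hV0r.le
      nlinarith [sq_nonneg (K : ℝ)]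
    refine h1.trans ?_
    rw [div_le_iff₀ hV0r]
    have h3 : (16 * (K : ℝ) ^ 2 + 4 * K) ≤ η * N₁ := by
      rw [div_le_iff₀ hη] at hN₁'
      linarith
    calc (16 * (K : ℝ) ^ 2 + 4 * K) * L ≤ (η * N₁) * L := mul_le_mul_of_nonneg_right h3 (by positivity)
      _ = η * (N₁ * L) := by ring
      _ ≤ η * V.card := mul_le_mul_of_nonneg_left hVr hη.le

end Pool.Agent.H579
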