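import Pool.Graph.R_pool_sql_team_seeded_35f281b4.K7.H63.RT.Sum
import Pool.Agent.H579.AllPairs
import Pool.Agent.H579.Pairwise

set_option autoImplicit false

/-! The theorem for finite sets with weights, for all pairs and for coprime pairs. -/

namespace Pool.Agent.H579

open Finset Filter Pool.Agent.V11150.RatC

/-- the property of `C` for finite sets with weights -/
def SP (C : ℕ) : Prop := ∀ θ C₀ ε : ℝ, 1 / 2 < θ → 0 < ε → ∃ (δ : ℝ) (L₀ : ℕ), 0 < δ ∧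
    ∀ (A : Finset ℕ) (w : ℕ → ℝ), (∀ m ∈ A, 1 ≤ m ∧ 0 ≤ w m) → ∑ m ∈ A, w m = 1 →
      (∀ d : ℕ, 1 ≤ d → ∑ m ∈ A, w m * ind (d ∣ m) ≤ C₀ * (d : ℝ) ^ (-θ)) → ∀ L : ℕ, L₀ ≤ L →
      1 / 3 - ε ≤ ∑ m ∈ A, ∑ n ∈ A, w m * w n * ind (δ * L ≤ (cnt C L m n : ℝ))

/-- finite sets with weights -/
theorem spread_finset : ∃ C : ℕ, SP C := by
  obtain ⟨C, H⟩ := spread_third
  refine ⟨C, ?_⟩
  intro θ C₀ ε hθ hε
  obtain ⟨δ, L₀, hδ, H2⟩ := H θ C₀ ε hθ hε
  refine ⟨δ, L₀, hδ, ?_⟩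
  intro A w hA h1 hd L hL
  have h := H2 (↥A) (fun a => w a) (fun a => (a : ℕ))
    { nn := fun a => (hA a a.2).2
      one := by rw [Finset.sum_coe_sort A (fun m => w m)]; exact h1
      pos := fun a => (hA a a.2).1
      spr := fun d hd1 => by
        rw [Finset.sum_coe_sort A (fun m => w m * ind (d ∣ m))]
        exact hd d hd1 } L hL
  refine h.trans (le_of_eq ?_)
  rw [← Finset.sum_coe_sort A]
  apply Finset.sum_congr rfl
  intro a _
  rw [← Finset.sum_coe_sort A]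

theorem rpow_neg_one' (d : ℕ) : (d : ℝ) ^ (-(1 : ℝ)) = 1 / d := by
  rw [Real.rpow_neg_one, one_div]

/-- all pairs up to `X` -/
theorem all_pairs {C : ℕ} (H : SP C) : ∀ ε : ℝ, 0 < ε → ∃ (δ : ℝ) (L₀ : ℕ), 0 < δ ∧ ∀ X L : ℕ, 1 ≤ X → L₀ ≤ L →
    (1 / 3 - ε) * (X : ℝ) ^ 2 ≤ ({z : ℕ × ℕ | z.1 ∈ Icc 1 X ∧ z.2 ∈ Icc 1 X ∧
      δ * L ≤ (cnt C L z.1 z.2 : ℝ)}.ncard : ℝ) := by
  intro ε hε
  obtain ⟨δ, L₀, hδ, H2⟩ := H 1 1 ε (by norm_num) hε
  refine ⟨δ, L₀, hδ, ?_⟩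
  intro X L hX hL
  have hXr : (0 : ℝ) < X := by exact_mod_cast hX
  have h := H2 (Icc 1 X) (fun _ => 1 / (X : ℝ)) (fun m hm => ⟨(mem_Icc.1 hm).1, by positivity⟩)
    (by rw [Finset.sum_const, Nat.card_Icc, nsmul_eq_mul, Nat.add_sub_cancel]; field_simp)
    (by
      intro d hd
      have hdr : (0 : ℝ) < d := by exact_mod_cast hd
      rw [rpow_neg_one', one_mul, ← Finset.mul_sum]
      have e1 : ∑ m ∈ Icc 1 X, ind (d ∣ m) = (((Ioc 0 X).filter (fun m => d ∣ m)).card : ℝ) := by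
        rw [Finset.card_filter]
        push_cast
        apply Finset.sum_congr
        · ext m; rw [mem_Icc, mem_Ioc]; omega
        · intro m _
          by_cases hm : d ∣ m
          · rw [ind_pos hm, if_pos hm]
          · rw [ind_neg hm, if_neg hm]
      rw [e1, Nat.Ioc_filter_dvd_card_eq_div]
      have h3 : ((X / d : ℕ) : ℝ) ≤ (X : ℝ) / d := Nat.cast_div_le
      calc 1 / (X : ℝ) * ((X / d : ℕ) : ℝ) ≤ 1 / (X : ℝ) * ((X : ℝ) / d) :=
            mul_le_mul_of_nonneg_left h3 (by positivity)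
        _ = 1 / d := by field_simp) L hL
  have h2 := sum_ind_le (Icc 1 X) (fun a b => δ * L ≤ (cnt C L a b : ℝ)) (by rw [Nat.card_Icc]; omega) (1 / 3 - ε)
    (by
      refine h.trans (le_of_eq ?_)
      rw [Nat.card_Icc, Nat.add_sub_cancel, ← Finset.sum_coe_sort (Icc 1 X)]
      apply Finset.sum_congr rfl
      intro a _
      rw [← Finset.sum_coe_sort (Icc 1 X)])
  rw [Nat.card_Icc, Nat.add_sub_cancel] at h2
  exact h2

/-- the harmonic weights are spread -/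
theorem harm_spread (X d : ℕ) (hd : 1 ≤ d) (hW : 0 < Pool.Agent.K7.H63.RT.W 1 X) :
    ∑ m ∈ Pool.Agent.K7.H63.RT.V 1 X, (1 / ((m : ℝ) * Pool.Agent.K7.H63.RT.W 1 X)) * ind (d ∣ m) ≤
      1 * (d : ℝ) ^ (-(1 : ℝ)) := by
  classical
  have hdr : (0 : ℝ) < d := by exact_mod_cast hd
  rw [rpow_neg_one', one_mul]
  set V := Pool.Agent.K7.H63.RT.V 1 X with hV
  set W := Pool.Agent.K7.H63.RT.W 1 X with hWdef
  have e1 : ∑ m ∈ V, (1 / ((m : ℝ) * W)) * ind (d ∣ m) =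
      (1 / W) * ∑ m ∈ V.filter (fun m => d ∣ m), 1 / (m : ℝ) := by
    rw [Finset.sum_filter, Finset.mul_sum]
    apply Finset.sum_congr rfl
    intro m _
    by_cases hm : d ∣ m
    · rw [ind_pos hm, if_pos hm, mul_one, one_div_mul_one_div, mul_comm W]
    · rw [ind_neg hm, if_neg hm, mul_zero, mul_zero]
  rw [e1]
  have e2 : ∑ m ∈ V.filter (fun m => d ∣ m), 1 / (m : ℝ) ≤ (1 / d) * W := by
    have e3 : ∑ m ∈ V.filter (fun m => d ∣ m), 1 / (m : ℝ) =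
        ∑ k ∈ (V.filter (fun m => d ∣ m)).image (fun m => m / d), 1 / ((d : ℝ) * k) := by
      rw [Finset.sum_image]
      · apply Finset.sum_congr rfl
        intro m hm
        have h1 := (mem_filter.1 hm).2
        have h2 : ((d * (m / d) : ℕ) : ℝ) = m := by rw [Nat.mul_div_cancel' h1]
        rw [← h2]
        push_cast
        rfl
      · intro m hm m' hm' h
        have h1 := (mem_filter.1 (mem_coe.1 hm)).2
        have h1' := (mem_filter.1 (mem_coe.1 hm')).2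
        have h2 : m / d = m' / d := h
        rw [← Nat.mul_div_cancel' h1, ← Nat.mul_div_cancel' h1', h2]
    rw [e3, hWdef]
    unfold Pool.Agent.K7.H63.RT.W
    rw [Finset.mul_sum]
    have hsub : (V.filter (fun m => d ∣ m)).image (fun m => m / d) ⊆ Pool.Agent.K7.H63.RT.V 1 X := by
      intro k hk
      obtain ⟨m, hm, rfl⟩ := mem_image.1 hk
      obtain ⟨h1, h2⟩ := mem_filter.1 hm
      rw [hV, Pool.Agent.K7.H63.RT.mem_V] at h1
      rw [Pool.Agent.K7.H63.RT.mem_V]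
      refine ⟨⟨Nat.div_pos (Nat.le_of_dvd h1.1.1 h2) hd, (Nat.div_le_self _ _).trans h1.1.2⟩, Nat.coprime_one_right _⟩
    refine (Finset.sum_le_sum_of_subset_of_nonneg hsub fun _ _ _ => by positivity).trans (le_of_eq ?_)
    apply Finset.sum_congr rfl
    intro k _
    rw [one_div_mul_one_div]
  calc (1 / W) * ∑ m ∈ V.filter (fun m => d ∣ m), 1 / (m : ℝ) ≤ (1 / W) * ((1 / d) * W) :=
        mul_le_mul_of_nonneg_left e2 (by positivity)
    _ = 1 / d := by field_simp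

theorem cnt_mul (C L d a b : ℕ) (hd : 1 ≤ d) (hab : Nat.Coprime a b) : cnt C L (d * a) (d * b) = cnt C L a b := by
  unfold cnt
  have h1 : Nat.gcd (d * a) (d * b) = d := by rw [Nat.gcd_mul_left, hab.gcd_eq_one, mul_one]
  have h2 : Nat.gcd a b = 1 := hab
  rw [h1, h2, Nat.mul_div_cancel_left _ hd, Nat.mul_div_cancel_left _ hd, Nat.div_one, Nat.div_one]

open Classical in
/-- coprime pairs with the weight `1 / (a b)` -/
theorem coprime_pairs {C : ℕ} (H : SP C) : ∀ ε : ℝ, 0 < ε → ∃ (δ : ℝ) (L₀ X₀ : ℕ), 0 < δ ∧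
    ∀ X L : ℕ, X₀ ≤ X → L₀ ≤ L → (1 / 3 - ε) * Pool.Agent.K7.H63.RT.T 1 X ≤
      Pool.Agent.K7.H63.RT.S 1 X (fun a b => δ * L ≤ (cnt C L a b : ℝ)) := by
  intro ε hε
  by_cases hε1 : ε ≤ 1 / 3
  swap
  · refine ⟨1, 0, 0, one_pos, ?_⟩
    intro X L _ _
    have h1 := Pool.Agent.K7.H63.RT.T_nonneg 1 X
    have h2 := Pool.Agent.K7.H63.RT.S_nonneg 1 X (fun a b => 1 * (L : ℝ) ≤ (cnt C L a b : ℝ))
    nlinarith
  obtain ⟨δ, L₀, hδ, H2⟩ := H 1 1 (ε / 4) (by norm_num) (by positivity)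
  obtain ⟨D, hD⟩ := exists_nat_ge (4 / ε)
  have hD0 : (0 : ℝ) < D := lt_of_lt_of_le (by positivity) hD
  have hD1 : 1 ≤ D := by exact_mod_cast hD0
  have hDε : 1 / (D : ℝ) ≤ ε / 4 := by
    rw [div_le_iff₀ hD0]
    rw [div_le_iff₀ hε] at hD
    linarith
  have hlogD : 0 ≤ Real.log D := Real.log_nonneg (by exact_mod_cast hD1)
  obtain ⟨X₀, hX₀⟩ := eventually_atTop.1 ((Pool.Agent.K7.H63.RT.W_tendsto 1 le_rfl).eventually_ge_atTop
    (max 1 (16 * (1 + Real.log D) / ε)))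
  refine ⟨δ, L₀, X₀ + 1, hδ, ?_⟩
  intro X L hX hL
  have hW := hX₀ X (by omega)
  have hW1 : 1 ≤ Pool.Agent.K7.H63.RT.W 1 X := (le_max_left _ _).trans hW
  have hW2 : 16 * (1 + Real.log D) / ε ≤ Pool.Agent.K7.H63.RT.W 1 X := (le_max_right _ _).trans hW
  have hT0 := Pool.Agent.K7.H63.RT.T_nonneg 1 X
  have hZ1 := Pool.Agent.K7.H63.RT.le_Z 1 X (by omega)
  have hZ2 := Pool.Agent.K7.H63.RT.Z_le 1 X
  have g1 := Pool.Agent.K7.H63.RT.le_W_sq 1 X D hD1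
  have g2 := Pool.Agent.K7.H63.RT.T_diff 1 X D (by omega) hD1
  have g3 := Pool.Agent.K7.H63.RT.W_sq_le 1 X
  set W := Pool.Agent.K7.H63.RT.W 1 X with hWdef
  set Z := Pool.Agent.K7.H63.RT.Z 1 X
  set T := Pool.Agent.K7.H63.RT.T 1 X
  set P : ℕ → ℕ → Prop := fun a b => δ * L ≤ (cnt C L a b : ℝ) with hP
  have hW0 : 0 < W := by linarith
  have h := H2 (Pool.Agent.K7.H63.RT.V 1 X) (fun m => 1 / ((m : ℝ) * W)) (fun m hm => ⟨
    (Pool.Agent.K7.H63.RT.mem_V.1 hm).1.1, by positivity⟩)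
    (by
      have e1 : ∀ m : ℕ, 1 / ((m : ℝ) * W) = (1 / W) * (1 / (m : ℝ)) := fun m => by
        rw [one_div_mul_one_div, mul_comm W]
      simp only [e1]
      rw [← Finset.mul_sum]
      change (1 / W) * Pool.Agent.K7.H63.RT.W 1 X = 1
      rw [← hWdef]
      field_simp)
    (fun d hd => harm_spread X d hd hW0) L hL
  -- the sum over the coprime pairs
  have hS : ∑ m ∈ Pool.Agent.K7.H63.RT.V 1 X, ∑ n ∈ Pool.Agent.K7.H63.RT.V 1 X,
      (1 / ((m : ℝ) * W)) * (1 / ((n : ℝ) * W)) * ind (δ * L ≤ (cnt C L m n : ℝ)) ≤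
      (1 / W ^ 2) * (Z * Pool.Agent.K7.H63.RT.S 1 X P) := by
    rw [Pool.Agent.K7.H63.RT.split]
    have e1 : ∀ d ∈ Pool.Agent.K7.H63.RT.V 1 X, ∑ x ∈ Pool.Agent.K7.H63.RT.CP 1 (X / d),
        (1 / (((d * x.1 : ℕ) : ℝ) * W)) * (1 / (((d * x.2 : ℕ) : ℝ) * W)) *
          ind (δ * L ≤ (cnt C L (d * x.1) (d * x.2) : ℝ)) ≤
        (1 / W ^ 2) * (1 / (d : ℝ) ^ 2 * Pool.Agent.K7.H63.RT.S 1 X P) := by
      intro d hd
      have hd1 := (Pool.Agent.K7.H63.RT.mem_V.1 hd).1.1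
      have h1 : ∑ x ∈ Pool.Agent.K7.H63.RT.CP 1 (X / d),
          (1 / (((d * x.1 : ℕ) : ℝ) * W)) * (1 / (((d * x.2 : ℕ) : ℝ) * W)) *
          ind (δ * L ≤ (cnt C L (d * x.1) (d * x.2) : ℝ)) =
          (1 / W ^ 2) * (1 / (d : ℝ) ^ 2 * Pool.Agent.K7.H63.RT.S 1 (X / d) P) := by
        unfold Pool.Agent.K7.H63.RT.S
        rw [Finset.mul_sum, Finset.mul_sum]
        apply Finset.sum_congr rfl
        intro x hx
        have hx2 := (Pool.Agent.K7.H63.RT.mem_CP.1 hx).2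
        rw [cnt_mul C L d x.1 x.2 hd1 hx2]
        push_cast
        by_cases hp : δ * L ≤ (cnt C L x.1 x.2 : ℝ)
        · rw [ind_pos hp, if_pos (show P x.1 x.2 from hp)]
          ring
        · rw [ind_neg hp, if_neg (show ¬ P x.1 x.2 from hp)]
          ring
      rw [h1]
      apply mul_le_mul_of_nonneg_left _ (by positivity)
      apply mul_le_mul_of_nonneg_left _ (by positivity)
      exact Pool.Agent.K7.H63.RT.S_mono 1 (Nat.div_le_self _ _) P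
    refine (Finset.sum_le_sum e1).trans (le_of_eq ?_)
    rw [← Finset.mul_sum, ← Finset.sum_mul]
    rfl
  have h5 : (1 / 3 - ε / 4) * W ^ 2 ≤ Z * Pool.Agent.K7.H63.RT.S 1 X P := by
    have h6 := h.trans hS
    have hW2' : 0 < W ^ 2 := by positivity
    calc (1 / 3 - ε / 4) * W ^ 2 ≤ ((1 / W ^ 2) * (Z * Pool.Agent.K7.H63.RT.S 1 X P)) * W ^ 2 :=
          mul_le_mul_of_nonneg_right h6 hW2'.le
      _ = _ := by field_simp
  -- numerical estimates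
  have h7 : 2 * (1 + Real.log D) * W ≤ ε / 4 * T := by
    have h8 : 16 * (1 + Real.log D) ≤ W * ε := by rwa [div_le_iff₀ hε] at hW2
    have h9 : W ^ 2 ≤ 2 * T := g3.trans (mul_le_mul_of_nonneg_right hZ2 hT0)
    nlinarith
  have h10 : (1 - ε / 4) * T ≤ Pool.Agent.K7.H63.RT.T 1 (X / D) := by linarith
  have h11 : (1 - ε / 4) * Z ≤ Z - 1 / D := by nlinarith
  have h12 : ((1 - ε / 4) * Z) * ((1 - ε / 4) * T) ≤ W ^ 2 := by
    refine le_trans ?_ g1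
    apply mul_le_mul h11 h10 (mul_nonneg (by linarith) hT0)
    have : 0 ≤ (1 - ε / 4) * Z := mul_nonneg (by linarith) (by linarith)
    linarith
  have hZ0 : 0 < Z := by linarith
  have h13 : Z * ((1 / 3 - ε) * T) ≤ Z * Pool.Agent.K7.H63.RT.S 1 X P := by
    refine le_trans ?_ h5
    calc Z * ((1 / 3 - ε) * T) ≤ (1 / 3 - ε / 4) * (((1 - ε / 4) * Z) * ((1 - ε / 4) * T)) := by
          have h14 : (1 / 3 - ε) ≤ (1 / 3 - ε / 4) * ((1 - ε / 4) * (1 - ε / 4)) := by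
            have i1 : 1 - ε / 2 ≤ (1 - ε / 4) * (1 - ε / 4) := by nlinarith [sq_nonneg ε]
            have i2 : (1 / 3 - ε / 4) * (1 - ε / 2) ≤ (1 / 3 - ε / 4) * ((1 - ε / 4) * (1 - ε / 4)) :=
              mul_le_mul_of_nonneg_left i1 (by linarith)
            have i3 : 1 / 3 - ε ≤ (1 / 3 - ε / 4) * (1 - ε / 2) := by nlinarith [sq_nonneg ε]
            linarith
          have h15 : 0 ≤ Z * T := mul_nonneg hZ0.le hT0
          nlinarith
      _ ≤ (1 / 3 - ε / 4) * W ^ 2 := mul_le_mul_of_nonneg_left h12 (by linarith)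
  exact le_of_mul_le_mul_left h13 hZ0

end Pool.Agent.H579
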