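import Pool.Graph.R_pool_sql_team_seeded_843ab51a.V11150.RatC

set_option autoImplicit false

/-! Basic facts on the equation `a p - b q = c`. -/

namespace Pool.Agent.H579

open Finset Filter Pool.Agent.V11150.RatC

/-- the hypotheses of the question -/
def Adm (a b : ℕ) (c : ℤ) : Prop :=
  1 ≤ a ∧ 1 ≤ b ∧ c ≠ 0 ∧ IsCoprime (a : ℤ) b ∧ IsCoprime (a : ℤ) c ∧ IsCoprime (b : ℤ) c ∧
    ¬ (Odd a ∧ Odd b ∧ Odd c)

/-- the primes `p` of the solutions of `a p - b q = c` -/
def Sol (a b : ℕ) (c : ℤ) : Set ℕ :=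
  {p : ℕ | p.Prime ∧ ∃ q : ℕ, q.Prime ∧ (a : ℤ) * p - b * q = c}

theorem tendsto_div_log (C : ℕ) : Tendsto (fun x : ℕ => (x : ℝ) / Real.log x ^ C) atTop atTop := by
  have h1 : Tendsto (fun y : ℝ => Real.exp y / y ^ C) atTop atTop := Real.tendsto_exp_div_pow_atTop C
  have h2 := h1.comp (Real.tendsto_log_atTop.comp tendsto_natCast_atTop_atTop)
  refine h2.congr' ?_
  filter_upwards [eventually_ge_atTop 1] with x hx
  have hx' : (0 : ℝ) < x := by exact_mod_cast hx
  simp only [Function.comp_apply]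
  rw [Real.exp_log hx']

theorem often_infinite {C : ℕ} {F : Set ℕ} (h : Often C F) : F.Infinite := by
  intro hfin
  have h1 : ∀ᶠ x : ℕ in atTop, (F.ncard : ℝ) + 1 ≤ (x : ℝ) / Real.log x ^ C :=
    (tendsto_div_log C).eventually_ge_atTop _
  obtain ⟨x, hx1, hx2⟩ := (h.and_eventually h1).exists
  have h2 : ({n : ℕ | n ∈ F ∧ n ≤ x}.ncard : ℝ) ≤ F.ncard := by
    rw [Nat.cast_le]
    exact Set.ncard_le_ncard (fun n hn => hn.1) hfin
  linarith

/-- the hypotheses of the question are necessary for infinitely many solutions -/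
theorem adm_of_infinite {a b : ℕ} {c : ℤ} (ha : 1 ≤ a) (hb : 1 ≤ b) (hc : c ≠ 0) (hab : Nat.Coprime a b)
    (h : (Sol a b c).Infinite) : Adm a b c := by
  have ha' : (a : ℤ) ≠ 0 := by positivity
  have hb' : (b : ℤ) ≠ 0 := by positivity
  refine ⟨ha, hb, hc, Nat.isCoprime_iff_coprime.2 hab, ?_, ?_, ?_⟩
  · -- a, c
    rw [Int.isCoprime_iff_gcd_eq_one]
    by_contra hne
    obtain ⟨l, hl, hld⟩ := Nat.exists_prime_and_dvd hne
    have h1 : (l : ℤ) ∣ (Int.gcd (a : ℤ) c : ℤ) := Int.natCast_dvd_natCast.2 hld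
    have hla := h1.trans (Int.gcd_dvd_left _ _)
    have hlc := h1.trans (Int.gcd_dvd_right _ _)
    apply h
    refine Set.Subsingleton.finite ?_
    rintro p ⟨hp, q, hq, hpq⟩ p' ⟨hp', q', hq', hpq'⟩
    have key : ∀ p q : ℕ, q.Prime → (a : ℤ) * p - b * q = c → q = l := by
      intro p q hq hpq
      have h2 : (l : ℤ) ∣ (b : ℤ) * q := by
        have e : (b : ℤ) * q = a * p - c := by linarith
        rw [e]; exact dvd_sub (hla.mul_right _) hlc
      have h3 : l ∣ b * q := by exact_mod_cast h2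
      rcases (hl.dvd_mul).1 h3 with h4 | h4
      · exfalso
        have h5 : l ∣ Nat.gcd a b := Nat.dvd_gcd (by exact_mod_cast hla) h4
        rw [hab] at h5
        exact hl.one_lt.ne' (Nat.dvd_one.1 h5)
      · exact ((Nat.prime_dvd_prime_iff_eq hl hq).1 h4).symm
    have e1 := key p q hq hpq
    have e2 := key p' q' hq' hpq'
    subst e1
    subst e2
    have h6 : (a : ℤ) * p = a * p' := by linarith
    exact_mod_cast mul_left_cancel₀ ha' h6
  · rw [Int.isCoprime_iff_gcd_eq_one]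
    by_contra hne
    obtain ⟨l, hl, hld⟩ := Nat.exists_prime_and_dvd hne
    have h1 : (l : ℤ) ∣ (Int.gcd (b : ℤ) c : ℤ) := Int.natCast_dvd_natCast.2 hld
    have hlb := h1.trans (Int.gcd_dvd_left _ _)
    have hlc := h1.trans (Int.gcd_dvd_right _ _)
    apply h
    refine (Set.finite_singleton l).subset ?_
    rintro p ⟨hp, q, hq, hpq⟩
    have h2 : (l : ℤ) ∣ (a : ℤ) * p := by
      have e : (a : ℤ) * p = b * q + c := by linarith
      rw [e]; exact dvd_add (hlb.mul_right _) hlc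
    have h3 : l ∣ a * p := by exact_mod_cast h2
    rcases (hl.dvd_mul).1 h3 with h4 | h4
    · exfalso
      have h5 : l ∣ Nat.gcd a b := Nat.dvd_gcd h4 (by exact_mod_cast hlb)
      rw [hab] at h5
      exact hl.one_lt.ne' (Nat.dvd_one.1 h5)
    · rw [Set.mem_singleton_iff]
      exact ((Nat.prime_dvd_prime_iff_eq hl hp).1 h4).symm
  · rintro ⟨h1, h2, h3⟩
    apply h
    have hfin2 : {p : ℕ | (a : ℤ) * p - b * (2 : ℕ) = c}.Finite := by
      refine Set.Subsingleton.finite ?_
      intro p hp p' hp'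
      rw [Set.mem_ofPred_eq] at hp hp'
      have h6 : (a : ℤ) * p = a * p' := by linarith
      exact_mod_cast mul_left_cancel₀ ha' h6
    refine ((Set.finite_singleton 2).union hfin2).subset ?_
    rintro p ⟨hp, q, hq, hpq⟩
    rcases hp.eq_two_or_odd' with h4 | h4
    · left; exact h4
    · rcases hq.eq_two_or_odd' with h5 | h5
      · right
        rw [Set.mem_ofPred_eq, ← h5]; exact hpq
      · exfalso
        have h6 : Odd ((a : ℤ) * p) := by
          exact_mod_cast h1.mul h4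
        have h7 : Odd ((b : ℤ) * q) := by
          exact_mod_cast h2.mul h5
        have h8 : Even ((a : ℤ) * p - b * q) := h6.sub_odd h7
        rw [hpq] at h8
        exact (Int.not_even_iff_odd.2 h3) h8

theorem sol_pairs_infinite {a b : ℕ} {c : ℤ} (h : (Sol a b c).Infinite) :
    {z : ℕ × ℕ | z.1.Prime ∧ z.2.Prime ∧ (a : ℤ) * z.1 - b * z.2 = c}.Infinite := by
  apply Set.Infinite.of_image Prod.fst
  refine h.mono ?_
  rintro p ⟨hp, q, hq, hpq⟩
  exact ⟨(p, q), ⟨hp, hq, hpq⟩, rfl⟩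

theorem toNat_cast {z : ℤ} (h : z.toNat.Prime) : ((z.toNat : ℕ) : ℤ) = z := by
  apply Int.toNat_of_nonneg
  by_contra hneg
  rw [Int.toNat_of_nonpos (by omega)] at h
  exact Nat.not_prime_zero h

/-- from simultaneous prime values of two forms to solutions of the equation -/
theorem often_sol {C : ℕ} {F : Set ℕ} (hF : Often C F) (α β α' β' : ℤ) (hα : 0 < α) (a b : ℕ) (c : ℤ)
    (h1 : ∀ n ∈ F, (α * (n : ℤ) + β).toNat.Prime ∧ (α' * (n : ℤ) + β').toNat.Prime)
    (hid : ∀ n : ℤ, (a : ℤ) * (α * n + β) - b * (α' * n + β') = c) : Often (C + 1) (Sol a b c) := by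
  refine hF.image (fun n => (α * (n : ℤ) + β).toNat) (α.natAbs + β.natAbs) ?_ ?_
  · intro n hn
    obtain ⟨h2, h3⟩ := h1 n hn
    refine ⟨⟨h2, (α' * (n : ℤ) + β').toNat, h3, ?_⟩, ?_⟩
    · rw [toNat_cast h2, toNat_cast h3]
      exact hid n
    · have h4 : (((α * (n : ℤ) + β).toNat : ℕ) : ℤ) ≤ (((α.natAbs + β.natAbs) * (n + 1) : ℕ) : ℤ) := by
        rw [toNat_cast h2]
        push_cast
        have h5 : α ≤ |α| := le_abs_self _
        have h6 : β ≤ |β| := le_abs_self _
        have h7 : (0 : ℤ) ≤ n := Nat.cast_nonneg _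
        have h8 := abs_nonneg α
        have h9 := abs_nonneg β
        nlinarith
      exact_mod_cast h4
  · intro n hn m hm hnm
    simp only at hnm
    have h2 := toNat_cast (h1 n hn).1
    have h3 := toNat_cast (h1 m hm).1
    have h4 : α * (n : ℤ) + β = α * (m : ℤ) + β := by
      rw [← h2, ← h3, hnm]
    have h5 : α * (n : ℤ) = α * (m : ℤ) := by linarith
    exact_mod_cast mul_left_cancel₀ hα.ne' h5

/-- the triple satisfies the hypotheses of the question, and for arbitrarily large `x` there are at least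
`x / (log x) ^ C` solutions with `p ≤ x` -/
def Good (C a b : ℕ) (c : ℤ) : Prop := Adm a b c ∧ Often C (Sol a b c)

theorem good_of {C a b : ℕ} {c : ℤ} (ha : 1 ≤ a) (hb : 1 ≤ b) (hc : c ≠ 0) (hab : Nat.Coprime a b)
    (h : Often C (Sol a b c)) : Good C a b c :=
  ⟨adm_of_infinite ha hb hc hab (often_infinite h), h⟩

end Pool.Agent.H579
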