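import Mathlib

set_option autoImplicit false

/-! Linear forms `α x * n + β x` with `t x * P x * (α x * n + β x) - t y * P y * (α y * n + β y) = c * (t x - t y)`. -/

namespace Pool.Agent.H579

open Finset

theorem exists_avoid {ι : Type} [Fintype ι] {p : ℕ} (hp : p.Prime) (hmp : Fintype.card ι < p) (A B : ι → ℤ)
    (hA : ∀ i, ¬ ((p : ℤ) ∣ A i ∧ (p : ℤ) ∣ B i)) : ∃ n : ℤ, ∀ i, ¬ (p : ℤ) ∣ A i * n + B i := by
  classical
  by_contra hcon
  push Not at hcon
  choose f hf using fun n : ℕ => hcon (n : ℤ)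
  have hmaps : ∀ n ∈ range p, f n ∈ (univ : Finset ι) := fun n _ => mem_univ _
  have hcard : (univ : Finset ι).card < (range p).card := by
    rw [card_univ, card_range]; exact hmp
  obtain ⟨x, hx, y, hy, hxy, hfe⟩ := exists_ne_map_eq_of_card_lt_of_maps_to hcard hmaps
  have h1 := hf x
  have h2 := hf y
  rw [hfe] at h1
  have h3 := dvd_sub h1 h2
  have h4 : (A (f y) * (x : ℤ) + B (f y)) - (A (f y) * (y : ℤ) + B (f y)) =
      (A (f y) : ℤ) * ((x : ℤ) - y) := by ring
  rw [h4] at h3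
  have hpI : Prime (p : ℤ) := Nat.prime_iff_prime_int.1 hp
  rcases hpI.dvd_or_dvd h3 with h5 | h5
  · exact hA (f y) ⟨h5, (dvd_add_right (Dvd.dvd.mul_right h5 _)).1 h2⟩
  · rw [mem_range] at hx hy
    have h6 : (x : ℤ) ≡ y [ZMOD p] := (Int.modEq_iff_dvd.2 (by
      have := (dvd_neg (a := (p : ℤ))).2 h5
      rwa [neg_sub] at this))
    have h7 : x ≡ y [MOD p] := (Int.natCast_modEq_iff).1 h6
    exact hxy (Nat.ModEq.eq_of_lt_of_lt h7 hx hy)

theorem not_dvd_of_isCoprime {a : ℕ} {c : ℤ} (h : IsCoprime (a : ℤ) c) {p : ℕ} (hp : p.Prime)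
    (hpc : (p : ℤ) ∣ c) : ¬ p ∣ a := by
  intro hpa
  have h1 : (p : ℤ) ∣ (a : ℤ) := by exact_mod_cast hpa
  have h2 := h.isUnit_of_dvd' h1 hpc
  exact (Nat.prime_iff_prime_int.1 hp).not_isUnit h2

/-- simultaneous congruences -/
theorem exists_crt {ι : Type} [Fintype ι] (P : ι → ℕ) (hP : ∀ x, 0 < P x)
    (hcop : ∀ x y, x ≠ y → Nat.Coprime (P x) (P y)) (m : ι → ℕ) (hm : ∀ x, Nat.Coprime (m x) (P x))
    (e : ι → ℤ) : ∃ s : ℤ, ∀ x, (P x : ℤ) ∣ e x + m x * s := by
  classical
  have h1 : ∀ x, ∃ a : ℕ, (P x : ℤ) ∣ e x + m x * a := by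
    intro x
    obtain ⟨u, v, huv⟩ := Nat.isCoprime_iff_coprime.2 (hm x)
    have hPx : (0 : ℤ) < P x := by exact_mod_cast hP x
    refine ⟨((-(u * e x)) % (P x : ℤ)).toNat, ?_⟩
    rw [Int.toNat_of_nonneg (Int.emod_nonneg _ hPx.ne')]
    have h2 := Int.emod_add_mul_ediv (-(u * e x)) (P x : ℤ)
    have h3 : (-(u * e x)) % (P x : ℤ) = -(u * e x) - P x * (-(u * e x) / P x) := by linarith
    rw [h3]
    refine ⟨v * e x - m x * (-(u * e x) / P x), ?_⟩
    linear_combination (-(e x)) * huv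
  choose a ha using h1
  obtain ⟨k, hk⟩ := Nat.chineseRemainderOfFinset a P univ (fun x _ => (hP x).ne')
    (fun x _ y _ hxy => hcop x y hxy)
  refine ⟨(k : ℤ), fun x => ?_⟩
  have h2 := hk x (mem_univ x)
  have h3 : (P x : ℤ) ∣ (a x : ℤ) - k := Int.modEq_iff_dvd.1 ((Int.natCast_modEq_iff).2 h2)
  have h4 := dvd_sub (ha x) (h3.mul_left (m x : ℤ))
  have e1 : e x + m x * (a x : ℤ) - m x * ((a x : ℤ) - k) = e x + m x * (k : ℤ) := by ring
  rwa [e1] at h4

theorem exists_forms {ι : Type} [Fintype ι] (c : ℤ) (hc : c ≠ 0) (t : ι → ℕ)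
    (ht : ∀ x, 0 < t x) (htinj : Function.Injective t) (htc : ∀ x, IsCoprime (t x : ℤ) c) :
    ∃ B : ℕ, (∀ x, t x ≤ B) ∧ c.natAbs ≤ B ∧ ∀ P : ι → ℕ, (∀ x, 0 < P x) →
      (∀ x y, x ≠ y → Nat.Coprime (P x) (P y)) → (∀ x, ∀ l : ℕ, l.Prime → l ∣ P x → B < l) →
      ∃ α β : ι → ℤ, (∀ x, 0 < α x) ∧ Function.Injective (fun x => (α x, β x)) ∧
        (∀ p : ℕ, p.Prime → ∃ n : ℤ, ∀ x, ¬ (p : ℤ) ∣ α x * n + β x) ∧
        ∀ x y, ∀ n : ℤ, ((t x * P x : ℕ) : ℤ) * (α x * n + β x) -
          ((t y * P y : ℕ) : ℤ) * (α y * n + β y) = c * ((t x : ℤ) - t y) := by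
  classical
  set D : ℕ := ∏ p ∈ (range (Fintype.card ι + 1)).filter (fun p : ℕ => p.Prime ∧ ¬ (p : ℤ) ∣ c), p with hD
  set R : ℕ := (∏ x, t x) * D with hR
  have hDpos : 0 < D := prod_pos fun p hp => (mem_filter.1 hp).2.1.pos
  have htpos : 0 < ∏ x, t x := prod_pos fun x _ => ht x
  have hRpos : 0 < R := Nat.mul_pos htpos hDpos
  have hRc : ∀ p : ℕ, p.Prime → (p : ℤ) ∣ c → ¬ p ∣ R := by
    intro p hp hpc h
    rcases (hp.dvd_mul).1 h with h1 | h1
    · obtain ⟨x, -, hx⟩ := (hp.prime.dvd_finsetProd_iff _).1 h1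
      exact not_dvd_of_isCoprime (htc x) hp hpc hx
    · obtain ⟨q, hq, hpq⟩ := (hp.prime.dvd_finsetProd_iff _).1 h1
      obtain ⟨-, hq1, hq2⟩ := mem_filter.1 hq
      rw [(Nat.prime_dvd_prime_iff_eq hp hq1).1 hpq] at hpc
      exact hq2 hpc
  have htR : ∀ x, t x ∣ R := fun x => (dvd_prod_of_mem t (mem_univ x)).mul_right _
  choose u hu using htR
  set m : ι → ℕ := fun x => R * u x with hm
  have hupos : ∀ x, 0 < u x := by
    intro x
    rcases Nat.eq_zero_or_pos (u x) with h | h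
    · have := hu x
      rw [h, mul_zero] at this
      omega
    · exact h
  have hmpos : ∀ x, 0 < m x := fun x => Nat.mul_pos hRpos (hupos x)
  have htm : ∀ x, t x * m x = R ^ 2 := by
    intro x
    have h1 := hu x
    calc t x * (R * u x) = R * (t x * u x) := by ring
      _ = R * R := by rw [← h1]
      _ = R ^ 2 := by ring
  have hmle : ∀ x, m x ≤ R ^ 2 := by
    intro x
    rw [← htm x]
    exact Nat.le_mul_of_pos_left _ (ht x)
  have hminj : Function.Injective m := by
    intro x y hxy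
    apply htinj
    have h1 := htm x
    have h2 := htm y
    rw [← h2, hxy] at h1
    exact Nat.eq_of_mul_eq_mul_right (hmpos y) h1
  refine ⟨max (R ^ 2) c.natAbs, ?_, le_max_right _ _, ?_⟩
  · intro x
    refine le_trans ?_ (le_max_left _ _)
    rw [← htm x]
    exact Nat.le_mul_of_pos_right _ (hmpos x)
  intro P hP hcop hrough
  -- primes dividing `P x`
  have hPR : ∀ x, ∀ l : ℕ, l.Prime → l ∣ P x → R ^ 2 < l ∧ c.natAbs < l := by
    intro x l hl hlx
    have := hrough x l hl hlx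
    exact ⟨lt_of_le_of_lt (le_max_left _ _) this, lt_of_le_of_lt (le_max_right _ _) this⟩
  have hmd : ∀ x, ∀ l : ℕ, l.Prime → l ∣ m x → l ∣ R := by
    intro x l hl hlm
    have h1 : l ∣ R ^ 2 := by rw [← htm x]; exact hlm.mul_left _
    exact hl.dvd_of_dvd_pow h1
  have hRle : R ≤ R ^ 2 := by nlinarith
  have hmP : ∀ x y, Nat.Coprime (m x) (P y) := by
    intro x y
    by_contra hnc
    obtain ⟨l, hl, hl1, hl2⟩ := Nat.Prime.not_coprime_iff_dvd.1 hnc
    have h1 := Nat.le_of_dvd hRpos (hmd x l hl hl1)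
    have h2 := (hPR y l hl hl2).1
    omega
  obtain ⟨s, hs⟩ := exists_crt P hP hcop m (fun x => hmP x x) (fun _ => 1)
  choose w hw using hs
  set Pi0 : ℕ := ∏ z, P z with hPi
  set Q : ι → ℕ := fun x => ∏ z ∈ univ.erase x, P z with hQ
  have hPQ : ∀ x, P x * Q x = Pi0 := fun x => mul_prod_erase univ P (mem_univ x)
  have hQpos : ∀ x, 0 < Q x := fun x => prod_pos fun z _ => hP z
  set α : ι → ℤ := fun x => (m x : ℤ) * Q x with hα
  set β : ι → ℤ := fun x => c * w x with hβ
  have hαe : ∀ x, ∀ p : ℕ, (p : ℤ) ∣ α x ↔ p ∣ m x * Q x := by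
    intro x p
    have h1 : α x = ((m x * Q x : ℕ) : ℤ) := by
      simp only [hα]
      push_cast
      ring
    rw [h1, Int.natCast_dvd_natCast]
  have hαpos : ∀ x, 0 < α x := by
    intro x
    have h1 : (0 : ℤ) < m x := by exact_mod_cast hmpos x
    have h2 : (0 : ℤ) < Q x := by exact_mod_cast hQpos x
    exact mul_pos h1 h2
  have hPβ : ∀ x, (P x : ℤ) * β x = c * (1 + m x * s) := by
    intro x
    rw [hw x]
    simp only [hβ]
    ring
  have key : ∀ x, ∀ n : ℤ, (P x : ℤ) * (α x * n + β x) = m x * (Pi0 * n + c * s) + c := by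
    intro x n
    have h1 := hPβ x
    have h2 : (P x : ℤ) * Q x = Pi0 := by exact_mod_cast hPQ x
    simp only [hα]
    calc (P x : ℤ) * ((m x : ℤ) * Q x * n + β x) = m x * (P x * Q x) * n + P x * β x := by ring
      _ = m x * (Pi0 * n + c * s) + c := by rw [h1, h2]; ring
  have hrel : ∀ x y, ∀ n : ℤ, ((t x * P x : ℕ) : ℤ) * (α x * n + β x) -
          ((t y * P y : ℕ) : ℤ) * (α y * n + β y) = c * ((t x : ℤ) - t y) := by
    intro x y n
    have h1 := key x n
    have h2 := key y n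
    have h3 : (t x : ℤ) * m x = (R : ℤ) ^ 2 := by exact_mod_cast htm x
    have h4 : (t y : ℤ) * m y = (R : ℤ) ^ 2 := by exact_mod_cast htm y
    push_cast
    calc (t x : ℤ) * P x * (α x * n + β x) - t y * P y * (α y * n + β y)
        = t x * (P x * (α x * n + β x)) - t y * (P y * (α y * n + β y)) := by ring
      _ = (t x * m x) * (Pi0 * n + c * s) + c * t x - ((t y * m y) * (Pi0 * n + c * s) + c * t y) := by
          rw [h1, h2]; ring
      _ = c * ((t x : ℤ) - t y) := by rw [h3, h4]; ring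
  refine ⟨α, β, hαpos, ?_, ?_, hrel⟩
  · -- injectivity
    intro x y hxy
    simp only [Prod.mk.injEq] at hxy
    obtain ⟨h1, h2⟩ := hxy
    have e0 := hrel x y 0
    have e1 := hrel x y 1
    rw [h1, h2] at e0 e1
    have h3 : (((t x * P x : ℕ) : ℤ) - ((t y * P y : ℕ) : ℤ)) * α y = 0 := by linear_combination e1 - e0
    have h4 : ((t x * P x : ℕ) : ℤ) - ((t y * P y : ℕ) : ℤ) = 0 := by
      rcases mul_eq_zero.1 h3 with h | h
      · exact h
      · exact absurd h (hαpos y).ne'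
    have h5 : c * ((t x : ℤ) - t y) = 0 := by
      rw [← e0]
      linear_combination (α y * 0 + β y) * h4
    rcases mul_eq_zero.1 h5 with h | h
    · exact absurd h hc
    · apply htinj
      have : (t x : ℤ) = t y := by linarith
      exact_mod_cast this
  · intro p hp
    have hpI : Prime (p : ℤ) := Nat.prime_iff_prime_int.1 hp
    by_cases hpc : (p : ℤ) ∣ c
    · -- `p ∣ c`
      refine ⟨1, fun x hx => ?_⟩
      have h1 : (p : ℤ) ∣ β x := hpc.mul_right _
      have h2 : (p : ℤ) ∣ α x := by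
        have h3 := dvd_sub hx h1
        have e : α x * 1 + β x - β x = α x := by ring
        rwa [e] at h3
      have h3 : p ∣ m x * Q x := (hαe x p).1 h2
      rcases (hp.dvd_mul).1 h3 with h4 | h4
      · exact hRc p hp hpc (hmd x p hp h4)
      · obtain ⟨z, -, hz⟩ := (hp.prime.dvd_finsetProd_iff _).1 h4
        have h5 := (hPR z p hp hz).2
        have h6 := Nat.le_of_dvd (Int.natAbs_pos.2 hc) (Int.natCast_dvd.1 hpc)
        omega
    by_cases hpR : p ∣ R
    · refine ⟨0, fun x hx => ?_⟩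
      have h1 : (p : ℤ) ∣ P x * β x := by
        have e : α x * 0 + β x = β x := by ring
        rw [e] at hx
        exact hx.mul_left _
      rw [hPβ x] at h1
      have h2 : (p : ℤ) ∣ (m x : ℤ) := by
        have : p ∣ m x := hpR.mul_right _
        exact_mod_cast this
      apply hpc
      have h3 := dvd_sub h1 ((h2.mul_right s).mul_left c)
      have e : c * (1 + (m x : ℤ) * s) - c * (m x * s) = c := by ring
      rwa [e] at h3
    by_cases hpP : ∃ k, p ∣ P k
    · obtain ⟨k, hk⟩ := hpP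
      have hpk := (hPR k p hp hk).1
      -- the form `k`
      have hαk : ¬ (p : ℤ) ∣ α k := by
        intro h
        have h3 : p ∣ m k * Q k := (hαe k p).1 h
        rcases (hp.dvd_mul).1 h3 with h4 | h4
        · exact hpR (hmd k p hp h4)
        · obtain ⟨z, hz1, hz⟩ := (hp.prime.dvd_finsetProd_iff _).1 h4
          have hzk : z ≠ k := (mem_erase.1 hz1).1
          have h5 := Nat.dvd_gcd hz hk
          rw [hcop z k hzk] at h5
          exact hp.one_lt.ne' (Nat.dvd_one.1 h5)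
      obtain ⟨n, hn⟩ : ∃ n : ℤ, ¬ (p : ℤ) ∣ α k * n + β k := by
        by_cases h0 : (p : ℤ) ∣ β k
        · refine ⟨1, fun h => hαk ?_⟩
          have h3 := dvd_sub h h0
          have e : α k * 1 + β k - β k = α k := by ring
          rwa [e] at h3
        · refine ⟨0, fun h => h0 ?_⟩
          have e : α k * 0 + β k = β k := by ring
          rwa [e] at h
      refine ⟨n, fun x hx => ?_⟩
      by_cases hxk : x = k
      · subst hxk; exact hn hx
      have h1 : (p : ℤ) ∣ α x := by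
        have h2 : P k ∣ Q x := dvd_prod_of_mem P (mem_erase.2 ⟨fun h => hxk h.symm, mem_univ k⟩)
        have h3 : p ∣ m x * Q x := (hk.trans h2).mul_left _
        exact (hαe x p).2 h3
      have h2 : (p : ℤ) ∣ β x := (dvd_add_right (h1.mul_right n)).1 hx
      have h3 : (p : ℤ) ∣ c * (1 + m x * s) := by rw [← hPβ x]; exact h2.mul_left _
      have h4 : (p : ℤ) ∣ 1 + m x * s := (hpI.dvd_or_dvd h3).resolve_left hpc
      have h5 : (p : ℤ) ∣ 1 + m k * s := by
        have h6 : (p : ℤ) ∣ (P k : ℤ) := by exact_mod_cast hk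
        exact h6.trans ⟨w k, hw k⟩
      have h6 : (p : ℤ) ∣ ((m x : ℤ) - m k) * s := by
        have h7 := dvd_sub h4 h5
        have e : 1 + (m x : ℤ) * s - (1 + m k * s) = ((m x : ℤ) - m k) * s := by ring
        rwa [e] at h7
      rcases hpI.dvd_or_dvd h6 with h7 | h7
      · have h8 : |(m x : ℤ) - m k| < p := by
          have h9 : (m x : ℤ) ≤ ((R ^ 2 : ℕ) : ℤ) := by exact_mod_cast hmle x
          have h10 : (m k : ℤ) ≤ ((R ^ 2 : ℕ) : ℤ) := by exact_mod_cast hmle k
          have h11 : ((R ^ 2 : ℕ) : ℤ) < p := by exact_mod_cast hpk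
          have h12 : (0 : ℤ) ≤ m x := Nat.cast_nonneg _
          have h13 : (0 : ℤ) ≤ m k := Nat.cast_nonneg _
          rw [abs_lt]
          constructor <;> linarith
        have h9 := Int.eq_zero_of_abs_lt_dvd h7 h8
        apply hxk
        apply hminj
        have : (m x : ℤ) = m k := by linarith
        exact_mod_cast this
      · have h8 := dvd_sub h5 (h7.mul_left (m k : ℤ))
        have e : 1 + (m k : ℤ) * s - m k * s = 1 := by ring
        rw [e] at h8
        exact hpI.not_isUnit (isUnit_of_dvd_one h8)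
    · push Not at hpP
      have hbig : Fintype.card ι < p := by
        by_contra hle
        apply hpR
        apply Dvd.dvd.mul_left
        apply dvd_prod_of_mem (fun p : ℕ => p)
        rw [mem_filter, mem_range]
        exact ⟨by omega, hp, hpc⟩
      apply exists_avoid hp hbig
      rintro x ⟨h1, -⟩
      have h3 : p ∣ m x * Q x := (hαe x p).1 h1
      rcases (hp.dvd_mul).1 h3 with h4 | h4
      · exact hpR (hmd x p hp h4)
      · obtain ⟨z, hz1, hz⟩ := (hp.prime.dvd_finsetProd_iff _).1 h4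
        exact hpP z hz

end Pool.Agent.H579
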