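import Pool.Agent.H579.Base
import Pool.Agent.H579.Fam
import Pool.Agent.H579.Forms

set_option autoImplicit false

/-! `T` classes of pairwise coprime integers: solvable equations with a prescribed constant. -/

namespace Pool.Agent.H579

open Finset Filter Pool.Agent.V11150.RatC

theorem core (T M : ℕ) (hT : 1 ≤ T) (hTM : (18 / 5 : ℝ) * M < T) : ∃ K C : ℕ, 1 ≤ K ∧
    ∀ c : ℤ, c ≠ 0 → (∀ l : ℕ, l.Prime → (l : ℤ) ∣ c → T < l) →
    ∃ (F : Fin T → Fin K → ℕ) (B : ℕ), (∀ g i, 1 ≤ F g i ∧ F g i ≤ B) ∧ c.natAbs ≤ B ∧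
    ∀ P : Fin T → Fin K → ℕ, (∀ g i, 1 ≤ P g i) →
      (∀ x y : Fin T × Fin K, x ≠ y → Nat.Coprime (P x.1 x.2) (P y.1 y.2)) →
      (∀ g i, ∀ l : ℕ, l.Prime → l ∣ P g i → B < l) →
      ∃ (S : Finset (Fin T)) (σ : Fin T → Fin K), M + 1 ≤ S.card ∧
        ∀ g ∈ S, ∀ h ∈ S, g < h → ∃ u v : ℕ, 1 ≤ u ∧ 1 ≤ v ∧ u ≤ B ∧ v ≤ B ∧
          u * F h (σ h) = v * F g (σ g) ∧ Good C (u * P g (σ g)) (v * P h (σ h)) c := by
  classical
  obtain ⟨K, hK, C, H⟩ := coloured T M hT hTM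
  refine ⟨K, C + 1, hK, ?_⟩
  intro c hc hcT
  set Q : ℕ := ∏ l ∈ c.natAbs.primeFactors, l with hQ
  have hQpos : 0 < Q := prod_pos fun l hl => (Nat.prime_of_mem_primeFactors hl).pos
  have hQd : ∀ l : ℕ, l.Prime → ((l : ℤ) ∣ c ↔ l ∣ Q) := by
    intro l hl
    constructor
    · intro h
      apply dvd_prod_of_mem (fun l : ℕ => l)
      rw [Nat.mem_primeFactors]
      exact ⟨hl, Int.natCast_dvd.1 h, Int.natAbs_ne_zero.2 hc⟩
    · intro h
      obtain ⟨q, hq, hlq⟩ := (hl.prime.dvd_finsetProd_iff _).1 h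
      rw [(Nat.prime_dvd_prime_iff_eq hl (Nat.prime_of_mem_primeFactors hq)).1 hlq]
      exact Int.natCast_dvd.2 (Nat.dvd_of_mem_primeFactors hq)
  have hQT : ∀ l : ℕ, l.Prime → l ∣ Q → T ≤ l := fun l hl h => (hcT l hl ((hQd l hl).2 h)).le
  obtain ⟨F, hF1, hF2, hF3, hF4⟩ := exists_classes T K Q hQpos hQT
  -- `F` is prime to `c`
  have hFc : ∀ g i, IsCoprime (F g i : ℤ) c := by
    intro g i
    rw [Int.isCoprime_iff_gcd_eq_one]
    by_contra hne
    obtain ⟨l, hl, hld⟩ := Nat.exists_prime_and_dvd hne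
    have h1 : (l : ℤ) ∣ (Int.gcd (F g i : ℤ) c : ℤ) := Int.natCast_dvd_natCast.2 hld
    have h2 := h1.trans (Int.gcd_dvd_left _ _)
    have h3 := h1.trans (Int.gcd_dvd_right _ _)
    have h4 : (l : ℤ) ∣ (Q : ℤ) := by exact_mod_cast (hQd l hl).1 h3
    have h5 := dvd_sub h2 (h4.trans (hF2 g i))
    have e : (F g i : ℤ) - ((F g i : ℤ) - ((g : ℕ) + 1)) = (((g : ℕ) + 1 : ℕ) : ℤ) := by push_cast; ring
    rw [e] at h5
    have h6 : l ∣ (g : ℕ) + 1 := by exact_mod_cast h5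
    have h7 := Nat.le_of_dvd (by omega) h6
    have h8 := hcT l hl h3
    have h9 := g.2
    omega
  obtain ⟨B, hB1, hB2, hB3⟩ := exists_forms (ι := Fin T × Fin K) c hc (fun x => F x.1 x.2)
    (fun x => hF1 _ _) (fun x y h => hF3 x y h) (fun x => hFc _ _)
  refine ⟨F, B, fun g i => ⟨hF1 g i, hB1 (g, i)⟩, hB2, ?_⟩
  intro P hP hcop hrough
  obtain ⟨α, β, hα, hinj, hadm, hrel⟩ := hB3 (fun x => P x.1 x.2) (fun x => hP _ _) hcop
    (fun x => hrough _ _)
  obtain ⟨S, σ, hS, hO⟩ := H (fun g i => α (g, i)) (fun g i => β (g, i)) (fun g i => hα _) hinj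
    (by
      intro p hp
      obtain ⟨n, hn⟩ := hadm p hp
      exact ⟨n, fun g i => hn (g, i)⟩)
  refine ⟨S, σ, hS, ?_⟩
  intro g hg h hh hgh
  obtain ⟨hlt, hd1, hd2⟩ := hF4 g h hgh (σ g) (σ h)
  set f1 := F g (σ g) with hf1
  set f2 := F h (σ h) with hf2
  obtain ⟨d, hd⟩ : ∃ d, d = f1 - f2 := ⟨_, rfl⟩
  have hdpos : 0 < d := by omega
  rw [← hd] at hd1 hd2
  obtain ⟨u, hu⟩ := hd1
  obtain ⟨v, hv⟩ := hd2
  have hf2pos : 0 < f2 := hF1 _ _
  have hvpos : 0 < v := by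
    rcases Nat.eq_zero_or_pos v with h0 | h0
    · rw [h0] at hv; omega
    · exact h0
  have huv : u = v + 1 := by
    have h1 : d * u = d * (v + 1) := by
      rw [mul_add, ← hu, ← hv, mul_one]; omega
    exact Nat.eq_of_mul_eq_mul_left hdpos h1
  have huB : u ≤ B := by
    have h1 : u ≤ f1 := by rw [hu]; exact Nat.le_mul_of_pos_left _ hdpos
    exact h1.trans (hB1 (g, σ g))
  have hvB : v ≤ B := by omega
  refine ⟨u, v, by omega, hvpos, huB, hvB, ?_, ?_⟩
  · rw [hu, hv]; ring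
  · apply good_of
    · exact Nat.mul_pos (by omega) (hP _ _)
    · exact Nat.mul_pos hvpos (hP _ _)
    · exact hc
    · -- coprimality
      have hxy : ((g, σ g) : Fin T × Fin K) ≠ (h, σ h) := by
        intro he
        exact hgh.ne (congrArg Prod.fst he)
      have h1 : Nat.Coprime u v := by
        rw [huv]
        exact (Nat.coprime_self_add_left (m := v) (n := 1)).2 (Nat.coprime_one_left v)
      have hrc : ∀ (w : ℕ) (g' : Fin T) (i' : Fin K), 0 < w → w ≤ B → Nat.Coprime w (P g' i') := by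
        intro w g' i' hw hwB
        by_contra hnc
        obtain ⟨l, hl, hl1, hl2⟩ := Nat.Prime.not_coprime_iff_dvd.1 hnc
        have h3 := Nat.le_of_dvd hw hl1
        have h4 := hrough g' i' l hl hl2
        omega
      refine Nat.Coprime.mul_left ?_ ?_
      · exact Nat.Coprime.mul_right h1 (hrc u _ _ (by omega) huB)
      · exact Nat.Coprime.mul_right (hrc v _ _ hvpos hvB).symm (hcop _ _ hxy)
    · refine often_sol hO (α (g, σ g)) (β (g, σ g)) (α (h, σ h)) (β (h, σ h)) (hα _) _ _ c ?_ ?_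
      · intro n hn
        exact ⟨hn g hg, hn h hh⟩
      · intro n
        have e := hrel (g, σ g) (h, σ h) n
        simp only at e
        rw [← hf1, ← hf2] at e
        have hdZ : (d : ℤ) ≠ 0 := by positivity
        apply mul_left_cancel₀ hdZ
        have hf12 : (f1 : ℤ) - f2 = d := by
          rw [hd]; push_cast [hlt.le]; ring
        rw [hf12] at e
        have e1 : (f1 : ℤ) = d * u := by exact_mod_cast hu
        have e2 : (f2 : ℤ) = d * v := by exact_mod_cast hv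
        push_cast at e ⊢
        rw [e1, e2] at e
        linear_combination e

end Pool.Agent.H579
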