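import Pool.Agent.H579.Fam

set_option autoImplicit false

/-! Several families of classes without common prime factors. -/

namespace Pool.Agent.H579

open Finset

/-- the properties of the classes -/
def IsFam (T K : ℕ) (F : Fin T → Fin K → ℕ) : Prop :=
  (∀ g i, 0 < F g i) ∧ (∀ x y : Fin T × Fin K, F x.1 x.2 = F y.1 y.2 → x = y) ∧
    (∀ g h : Fin T, g < h → ∀ i j, F h j < F g i ∧ ((F g i - F h j) ∣ F g i) ∧
      ((F g i - F h j) ∣ F h j))

theorem exists_families (T K : ℕ) : ∀ r : ℕ, ∃ (Y : ℕ) (Fs : ℕ → Fin T → Fin K → ℕ),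
    (∀ j < r, IsFam T K (Fs j)) ∧ (∀ j < r, ∀ g i, Fs j g i ≤ Y) ∧
    (∀ i j, i < j → j < r → ∀ l : ℕ, l.Prime → T < l → ∀ g x h y, l ∣ Fs i g x → ¬ l ∣ Fs j h y) := by
  classical
  intro r
  induction r with
  | zero =>
    exact ⟨0, fun _ _ _ => 1, fun j hj => absurd hj (Nat.not_lt_zero _), fun j hj => absurd hj (Nat.not_lt_zero _),
      fun i j _ hj => absurd hj (Nat.not_lt_zero _)⟩
  | succ r ih =>
    obtain ⟨Y, Fs, h1, h2, h3⟩ := ih
    set Q : ℕ := ∏ l ∈ (range (Y + 1)).filter (fun l : ℕ => l.Prime ∧ T < l), l with hQ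
    have hQpos : 0 < Q := prod_pos fun l hl => (mem_filter.1 hl).2.1.pos
    obtain ⟨F, f1, f2, f3, f4⟩ := exists_classes T K Q hQpos (by
      intro l hl hlQ
      obtain ⟨q, hq, hlq⟩ := (hl.prime.dvd_finsetProd_iff _).1 hlQ
      obtain ⟨-, hq1, hq2⟩ := mem_filter.1 hq
      rw [(Nat.prime_dvd_prime_iff_eq hl hq1).1 hlq]
      exact hq2.le)
    have hFn : ∀ l : ℕ, l.Prime → T < l → l ≤ Y → ∀ g i, ¬ l ∣ F g i := by
      intro l hl hlT hlY g i hlF
      have h4 : l ∣ Q := dvd_prod_of_mem (fun l : ℕ => l) (by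
        rw [mem_filter, mem_range]; exact ⟨by omega, hl, hlT⟩)
      have h5 : (l : ℤ) ∣ (F g i : ℤ) - ((g : ℕ) + 1) := by
        have h6 : (l : ℤ) ∣ (Q : ℤ) := by exact_mod_cast h4
        exact h6.trans (f2 g i)
      have h6 : (l : ℤ) ∣ (F g i : ℤ) := by exact_mod_cast hlF
      have h7 := dvd_sub h6 h5
      have e : (F g i : ℤ) - ((F g i : ℤ) - ((g : ℕ) + 1)) = (((g : ℕ) + 1 : ℕ) : ℤ) := by push_cast; ring
      rw [e] at h7
      have h8 : l ∣ (g : ℕ) + 1 := by exact_mod_cast h7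
      have h9 := Nat.le_of_dvd (by omega) h8
      have := g.2
      omega
    refine ⟨Y + ∑ x : Fin T × Fin K, F x.1 x.2, fun j => if j = r then F else Fs j, ?_, ?_, ?_⟩
    · intro j hj
      by_cases hjr : j = r
      · simp only [hjr, if_true]
        exact ⟨f1, f3, f4⟩
      · simp only [hjr, if_false]
        exact h1 j (by omega)
    · intro j hj g i
      by_cases hjr : j = r
      · simp only [hjr, if_true]
        have := single_le_sum (f := fun x : Fin T × Fin K => F x.1 x.2) (fun _ _ => Nat.zero_le _) (mem_univ (g, i))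
        simp only at this
        omega
      · simp only [hjr, if_false]
        have := h2 j (by omega) g i
        omega
    · intro i j hij hj l hl hlT g x h y
      have hir : i ≠ r := by omega
      by_cases hjr : j = r
      · simp only [hjr, hir, if_true, if_false]
        intro h4
        apply hFn l hl hlT
        have h5 := h1 i (by omega)
        exact (Nat.le_of_dvd (h5.1 g x) h4).trans (h2 i (by omega) g x)
      · simp only [hjr, hir, if_false]
        exact h3 i j hij (by omega) l hl hlT g x h y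

/-- uniformity in `c`: one of boundedly many families is prime to `c` -/
theorem exists_family (T K r : ℕ) : ∃ Y : ℕ, ∀ c : ℤ, c ≠ 0 → c.natAbs.primeFactors.card ≤ r →
    (∀ l : ℕ, l.Prime → (l : ℤ) ∣ c → T < l) →
    ∃ F : Fin T → Fin K → ℕ, IsFam T K F ∧ (∀ g i, F g i ≤ Y) ∧ ∀ g i, IsCoprime (F g i : ℤ) c := by
  classical
  obtain ⟨Y, Fs, h1, h2, h3⟩ := exists_families T K (r + 1)
  refine ⟨Y, ?_⟩
  intro c hc hr hcT
  by_contra hcon
  push Not at hcon
  have h4 : ∀ j : Fin (r + 1), ∃ l : ℕ, l ∈ c.natAbs.primeFactors ∧ ∃ g x, l ∣ Fs j g x := by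
    intro j
    obtain ⟨g, i, hgi⟩ := hcon (Fs j) (h1 j j.2) (h2 j j.2)
    rw [Int.isCoprime_iff_gcd_eq_one] at hgi
    obtain ⟨l, hl, hld⟩ := Nat.exists_prime_and_dvd hgi
    have e1 : (l : ℤ) ∣ (Int.gcd (Fs j g i : ℤ) c : ℤ) := Int.natCast_dvd_natCast.2 hld
    have e2 := e1.trans (Int.gcd_dvd_left _ _)
    have e3 := e1.trans (Int.gcd_dvd_right _ _)
    refine ⟨l, ?_, g, i, by exact_mod_cast e2⟩
    rw [Nat.mem_primeFactors]
    exact ⟨hl, Int.natCast_dvd.1 e3, Int.natAbs_ne_zero.2 hc⟩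
  choose l hl g x hlF using h4
  have hinj : Function.Injective l := by
    intro i j hij
    by_contra hne
    have hp : ∀ j, (l j).Prime := fun j => Nat.prime_of_mem_primeFactors (hl j)
    have hT : ∀ j, T < l j := fun j => hcT _ (hp j) (Int.natCast_dvd.2 (Nat.dvd_of_mem_primeFactors (hl j)))
    rcases lt_or_gt_of_ne hne with h | h
    · have h5 := h3 i j h j.2 (l i) (hp i) (hT i) _ _ (g j) (x j) (hlF i)
      rw [hij] at h5
      exact h5 (hlF j)
    · have h5 := h3 j i h i.2 (l j) (hp j) (hT j) _ _ (g i) (x i) (hlF j)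
      rw [← hij] at h5
      exact h5 (hlF i)
  have h6 : (univ : Finset (Fin (r + 1))).card ≤ c.natAbs.primeFactors.card :=
    card_le_card_of_injOn l (fun j _ => hl j) (hinj.injOn)
  rw [card_univ, Fintype.card_fin] at h6
  omega

end Pool.Agent.H579
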