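import Pool.Agent.H579.Base
import Pool.Agent.H579.Families
import Pool.Agent.H579.Forms2

set_option autoImplicit false

/-! `T` classes of pairwise coprime integers: solvable equations with a prescribed constant, uniformly in the
constant. -/

namespace Pool.Agent.H579

open Finset Filter Pool.Agent.V11150.RatC

theorem core_unif (T M : ℕ) (hT : 1 ≤ T) (hTM : (18 / 5 : ℝ) * M < T) : ∃ K C : ℕ, 1 ≤ K ∧
    ∀ r : ℕ, ∃ B : ℕ, ∀ c : ℤ, c ≠ 0 → c.natAbs.primeFactors.card ≤ r → (∀ l : ℕ, l.Prime → (l : ℤ) ∣ c → T < l) →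
    ∀ P : Fin T × Fin K → ℕ, (∀ x, 1 ≤ P x) → (∀ x y, x ≠ y → Nat.Coprime (P x) (P y)) →
      (∀ x, ∀ l : ℕ, l.Prime → l ∣ P x → B < l) → (∀ x, IsCoprime (P x : ℤ) c) →
      ∃ (S : Finset (Fin T)) (σ : Fin T → Fin K), M + 1 ≤ S.card ∧
        ∀ g ∈ S, ∀ h ∈ S, g < h → ∃ v : ℕ, 1 ≤ v ∧ v ≤ B ∧
          Good C ((v + 1) * P (g, σ g)) (v * P (h, σ h)) c := by
  classical
  obtain ⟨K, hK, C, H⟩ := coloured T M hT hTM
  refine ⟨K, C + 1, hK, ?_⟩
  intro r
  obtain ⟨Y, hY⟩ := exists_family T K r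
  refine ⟨(Y ^ (T * K) * (T * K).factorial) ^ 2 + Y, ?_⟩
  intro c hc hr hcT P hP hcop hrough hPc
  obtain ⟨F, ⟨hF1, hF3, hF4⟩, hFY, hFc⟩ := hY c hc hr hcT
  have hcard : Fintype.card (Fin T × Fin K) = T * K := by
    rw [Fintype.card_prod, Fintype.card_fin, Fintype.card_fin]
  have hB : ((∏ x : Fin T × Fin K, F x.1 x.2) * (Fintype.card (Fin T × Fin K)).factorial) ^ 2 ≤
      (Y ^ (T * K) * (T * K).factorial) ^ 2 + Y := by
    refine le_trans ?_ (Nat.le_add_right _ _)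
    apply Nat.pow_le_pow_left
    rw [hcard]
    apply Nat.mul_le_mul_right
    calc ∏ x : Fin T × Fin K, F x.1 x.2 ≤ ∏ _x : Fin T × Fin K, Y := Finset.prod_le_prod' fun x _ => hFY _ _
      _ = Y ^ (T * K) := by rw [Finset.prod_const, Finset.card_univ, hcard]
  obtain ⟨α, β, hα, hinj, hadm, hrel⟩ := exists_forms_unif (ι := Fin T × Fin K) c hc (fun x => F x.1 x.2)
    (fun x => hF1 _ _) (fun x y h => hF3 x y h) (fun x => hFc _ _) _ hB P (fun x => hP _) hcop hrough hPc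
  obtain ⟨S, σ, hS, hO⟩ := H (fun g i => α (g, i)) (fun g i => β (g, i)) (fun g i => hα _) hinj
    (by
      intro p hp
      obtain ⟨n, hn⟩ := hadm p hp
      exact ⟨n, fun g i => hn (g, i)⟩)
  refine ⟨S, σ, hS, ?_⟩
  intro g hg h hh hgh
  obtain ⟨hlt, hd1, hd2⟩ := hF4 g h hgh (σ g) (σ h)
  set f1 := F g (σ g) with hf1
  set f2 := F h (σ h) with hf2
  obtain ⟨d, hd⟩ : ∃ d, d = f1 - f2 := ⟨_, rfl⟩
  have hdpos : 0 < d := by omega
  rw [← hd] at hd1 hd2
  obtain ⟨u, hu⟩ := hd1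
  obtain ⟨v, hv⟩ := hd2
  have hf2pos : 0 < f2 := hF1 _ _
  have hvpos : 0 < v := by
    rcases Nat.eq_zero_or_pos v with h0 | h0
    · rw [h0] at hv; omega
    · exact h0
  have huv : u = v + 1 := by
    have h1 : d * u = d * (v + 1) := by
      rw [mul_add, ← hu, ← hv, mul_one]; omega
    exact Nat.eq_of_mul_eq_mul_left hdpos h1
  have huY : u ≤ Y := by
    have h1 : u ≤ f1 := by rw [hu]; exact Nat.le_mul_of_pos_left _ hdpos
    exact h1.trans (hFY g (σ g))
  have hvY : v ≤ Y := by omega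
  refine ⟨v, hvpos, by omega, ?_⟩
  rw [← huv]
  apply good_of
  · exact Nat.mul_pos (by omega) (hP _)
  · exact Nat.mul_pos hvpos (hP _)
  · exact hc
  · -- coprimality
    have hxy : ((g, σ g) : Fin T × Fin K) ≠ (h, σ h) := by
      intro he
      exact hgh.ne (congrArg Prod.fst he)
    have h1 : Nat.Coprime u v := by
      rw [huv]
      exact (Nat.coprime_self_add_left (m := v) (n := 1)).2 (Nat.coprime_one_left v)
    have hrc : ∀ (w : ℕ) (x : Fin T × Fin K), 0 < w → w ≤ Y → Nat.Coprime w (P x) := by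
      intro w x hw hwB
      by_contra hnc
      obtain ⟨l, hl, hl1, hl2⟩ := Nat.Prime.not_coprime_iff_dvd.1 hnc
      have h3 := Nat.le_of_dvd hw hl1
      have h4 := hrough x l hl hl2
      omega
    refine Nat.Coprime.mul_left ?_ ?_
    · exact Nat.Coprime.mul_right h1 (hrc u _ (by omega) huY)
    · exact Nat.Coprime.mul_right (hrc v _ hvpos hvY).symm (hcop _ _ hxy)
  · refine often_sol hO (α (g, σ g)) (β (g, σ g)) (α (h, σ h)) (β (h, σ h)) (hα _) _ _ c ?_ ?_
    · intro n hn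
      exact ⟨hn g hg, hn h hh⟩
    · intro n
      have e := hrel (g, σ g) (h, σ h) n
      simp only at e
      rw [← hf1, ← hf2] at e
      have hdZ : (d : ℤ) ≠ 0 := by positivity
      apply mul_left_cancel₀ hdZ
      have hf12 : (f1 : ℤ) - f2 = d := by
        rw [hd]; push_cast [hlt.le]; ring
      rw [hf12] at e
      have e1 : (f1 : ℤ) = d * u := by exact_mod_cast hu
      have e2 : (f2 : ℤ) = d * v := by exact_mod_cast hv
      push_cast at e ⊢
      rw [e1, e2] at e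
      linear_combination e

end Pool.Agent.H579
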