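import Pool.Agent.H579.Core2
import Pool.Agent.H579.Pairwise

set_option autoImplicit false

/-! Arbitrary sets of pairwise coprime coefficients and a prescribed constant. -/

namespace Pool.Agent.H579

open Finset Filter Pool.Agent.V11150.RatC

open Classical in
/-- few elements of a pairwise coprime set are not prime to `c` -/
theorem few_not_coprime (V : Finset ℕ) (hcop : ∀ a ∈ V, ∀ b ∈ V, a ≠ b → Nat.Coprime a b) (c : ℤ) (hc : c ≠ 0) :
    ({a ∈ V | ¬ IsCoprime (a : ℤ) c} : Finset ℕ).card ≤ c.natAbs.primeFactors.card := by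
  have hex : ∀ a : ℕ, ¬ IsCoprime (a : ℤ) c → ∃ l : ℕ, l ∈ c.natAbs.primeFactors ∧ l ∣ a := by
    intro a ha
    rw [Int.isCoprime_iff_gcd_eq_one] at ha
    obtain ⟨l, hl, hld⟩ := Nat.exists_prime_and_dvd ha
    have e1 : (l : ℤ) ∣ (Int.gcd (a : ℤ) c : ℤ) := Int.natCast_dvd_natCast.2 hld
    have e2 := e1.trans (Int.gcd_dvd_left _ _)
    have e3 := e1.trans (Int.gcd_dvd_right _ _)
    refine ⟨l, ?_, by exact_mod_cast e2⟩
    rw [Nat.mem_primeFactors]
    exact ⟨hl, Int.natCast_dvd.1 e3, Int.natAbs_ne_zero.2 hc⟩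
  choose! f hf1 hf2 using hex
  apply Finset.card_le_card_of_injOn f
  · intro a ha
    exact hf1 a (mem_filter.1 (mem_coe.1 ha)).2
  · intro a ha b hb hab
    obtain ⟨ha1, ha2⟩ := mem_filter.1 (mem_coe.1 ha)
    obtain ⟨hb1, hb2⟩ := mem_filter.1 (mem_coe.1 hb)
    by_contra hne
    have h3 := Nat.prime_of_mem_primeFactors (hf1 a ha2)
    have h5 : f a ∣ b := by rw [hab]; exact hf2 b hb2
    have h4 := Nat.dvd_gcd (hf2 a ha2) h5
    rw [hcop a ha1 b hb1 hne] at h4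
    exact h3.one_lt.ne' (Nat.dvd_one.1 h4)

theorem prime_gt_four {c : ℤ} (hc : IsCoprime c 6) (l : ℕ) (hl : l.Prime) (hlc : (l : ℤ) ∣ c) : 4 < l := by
  by_contra hle
  have hlt : l ≤ 4 := by omega
  have h23 : l = 2 ∨ l = 3 := by
    have := hl.two_le
    interval_cases l
    · exact Or.inl rfl
    · exact Or.inr rfl
    · exact absurd hl (by norm_num)
  have h6 : (l : ℤ) ∣ 6 := by
    rcases h23 with h | h
    · rw [h]; norm_num
    · rw [h]; norm_num
  exact (Nat.prime_iff_prime_int.1 hl).not_isUnit (hc.isUnit_of_dvd' hlc h6)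

theorem ne_zero_of_coprime_six {c : ℤ} (hc : IsCoprime c 6) : c ≠ 0 := by
  intro h
  rw [h] at hc
  have := (isCoprime_zero_left.1 hc)
  rw [Int.isUnit_iff] at this
  omega

theorem fixed_const_sets : ∃ C : ℕ, ∀ r : ℕ, ∃ B : ℕ, ∀ ε : ℝ, 0 < ε → ∃ N₀ : ℕ,
    ∀ c : ℤ, IsCoprime c 6 → c.natAbs.primeFactors.card ≤ r →
    ∀ V : Finset ℕ, (∀ a ∈ V, 1 ≤ a) → (∀ a ∈ V, ∀ b ∈ V, a ≠ b → Nat.Coprime a b) → N₀ ≤ V.card →
    (1 / 3 - ε) * (V.card : ℝ) ^ 2 ≤ ({z : ℕ × ℕ | z.1 ∈ V ∧ z.2 ∈ V ∧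
      ∃ v : ℕ, 1 ≤ v ∧ v ≤ B ∧ Good C ((v + 1) * z.1) (v * z.2) c}.ncard : ℝ) := by
  classical
  obtain ⟨K, C, hK, hcore⟩ := core_unif 4 1 (by norm_num) (by norm_num)
  refine ⟨C, ?_⟩
  intro r
  obtain ⟨B, HB⟩ := hcore r
  refine ⟨B, ?_⟩
  intro ε hε
  obtain ⟨η, hη, H⟩ := third_oriented' K ε hε
  obtain ⟨N₀, hN₀⟩ := exists_nat_ge ((16 * (K : ℝ) ^ 2 + 4 * K * (B + r)) / η + 1)
  refine ⟨N₀, ?_⟩
  intro c hc6 hcr V hVpos hcop hcard
  have hc0 := ne_zero_of_coprime_six hc6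
  have hN₀' : (16 * (K : ℝ) ^ 2 + 4 * K * (B + r)) / η ≤ N₀ := by linarith
  have hVr : (N₀ : ℝ) ≤ V.card := by exact_mod_cast hcard
  have hV0r : (0 : ℝ) < V.card := by
    have : 0 ≤ (16 * (K : ℝ) ^ 2 + 4 * K * (B + r)) / η := by positivity
    linarith
  have hV0 : 0 < V.card := by exact_mod_cast hV0r
  apply sum_ind_le V (fun a b => ∃ v : ℕ, 1 ≤ v ∧ v ≤ B ∧ Good C ((v + 1) * a) (v * b) c) hV0
  refine H (↥V) (fun _ => 1 / (V.card : ℝ)) (fun _ => by positivity) ?_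
    (fun a b => ∃ v : ℕ, 1 ≤ v ∧ v ≤ B ∧ Good C ((v + 1) * a) (v * b) c)
    (fun A => (∀ x y, x ≠ y → A x ≠ A y) ∧
      ∀ x, ¬ ((∃ l : ℕ, l.Prime ∧ l ≤ B ∧ l ∣ (A x : ℕ)) ∨ ¬ IsCoprime ((A x : ℕ) : ℤ) c)) ?_ ?_
  · rw [Finset.sum_const, Finset.card_univ, Fintype.card_coe, nsmul_eq_mul]
    field_simp
  · -- nice tuples
    rintro A ⟨hA1, hA2⟩
    obtain ⟨S, σ, hS, hG⟩ := HB c hc0 hcr (fun l hl hlc => prime_gt_four hc6 l hl hlc) (fun x => (A x : ℕ))
      (fun x => hVpos _ (A x).2)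
      (fun x y hxy => hcop _ (A x).2 _ (A y).2 (fun h => hA1 x y hxy (Subtype.ext h)))
      (by
        intro x l hl hlA
        by_contra hle
        exact hA2 x (Or.inl ⟨l, hl, by omega, hlA⟩))
      (by
        intro x
        by_contra hcon
        exact hA2 x (Or.inr hcon))
    obtain ⟨g, hg, h, hh, hgh⟩ := Finset.one_lt_card.1 (by omega : 1 < S.card)
    rcases lt_or_gt_of_ne hgh with h1 | h1
    · exact ⟨(g, σ g), (h, σ h), h1, hG g hg h hh h1⟩
    · exact ⟨(h, σ h), (g, σ g), h1, hG h hh g hg h1⟩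
  · -- few tuples are not nice
    have hb := union_bound (κ := Fin 4 × Fin K) (fun _ : ↥V => 1 / (V.card : ℝ)) (fun _ => by positivity)
      (by
        rw [Finset.sum_const, Finset.card_univ, Fintype.card_coe, nsmul_eq_mul]
        field_simp)
      (fun A => (∀ x y, x ≠ y → A x ≠ A y) ∧
        ∀ x, ¬ ((∃ l : ℕ, l.Prime ∧ l ≤ B ∧ l ∣ (A x : ℕ)) ∨ ¬ IsCoprime ((A x : ℕ) : ℤ) c))
      (fun a => ind ((∃ l : ℕ, l.Prime ∧ l ≤ B ∧ l ∣ (a : ℕ)) ∨ ¬ IsCoprime ((a : ℕ) : ℤ) c)) (fun a b => ind (a = b))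
      (fun _ _ => ind_nonneg _)
      (by
        intro A
        have hn1 : 0 ≤ ∑ x, ind ((∃ l : ℕ, l.Prime ∧ l ≤ B ∧ l ∣ (A x : ℕ)) ∨ ¬ IsCoprime ((A x : ℕ) : ℤ) c) :=
          Finset.sum_nonneg fun _ _ => ind_nonneg _
        have hnn : ∀ z ∈ (univ : Finset ((Fin 4 × Fin K) × (Fin 4 × Fin K))),
            0 ≤ (if z.1 = z.2 then 0 else ind (A z.1 = A z.2)) := by
          intro z _
          split_ifs
          · exact le_rfl
          · exact ind_nonneg _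
        have hn2 := Finset.sum_nonneg hnn
        by_cases hA : (∀ x y, x ≠ y → A x ≠ A y) ∧
            ∀ x, ¬ ((∃ l : ℕ, l.Prime ∧ l ≤ B ∧ l ∣ (A x : ℕ)) ∨ ¬ IsCoprime ((A x : ℕ) : ℤ) c)
        · rw [ind_neg (not_not.2 hA)]
          exact add_nonneg hn1 hn2
        · rw [ind_pos hA]
          by_cases hA2 : ∀ x, ¬ ((∃ l : ℕ, l.Prime ∧ l ≤ B ∧ l ∣ (A x : ℕ)) ∨ ¬ IsCoprime ((A x : ℕ) : ℤ) c)
          · have hA1 : ¬ ∀ x y, x ≠ y → A x ≠ A y := fun h => hA ⟨h, hA2⟩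
            push Not at hA1
            obtain ⟨x, y, hxy, he⟩ := hA1
            have h1 := Finset.single_le_sum hnn (mem_univ (x, y))
            rw [if_neg hxy, ind_pos he] at h1
            linarith
          · rw [not_forall] at hA2
            obtain ⟨x, hx⟩ := hA2
            rw [not_not] at hx
            have h1 := Finset.single_le_sum
              (f := fun x => ind ((∃ l : ℕ, l.Prime ∧ l ≤ B ∧ l ∣ (A x : ℕ)) ∨ ¬ IsCoprime ((A x : ℕ) : ℤ) c))
              (fun x _ => ind_nonneg _) (mem_univ x)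
            rw [ind_pos hx] at h1
            linarith)
      ((B + r) / V.card) (1 / V.card)
      (by
        rw [← Finset.mul_sum]
        have h1 : ∑ a : ↥V, ind ((∃ l : ℕ, l.Prime ∧ l ≤ B ∧ l ∣ (a : ℕ)) ∨ ¬ IsCoprime ((a : ℕ) : ℤ) c) ≤
            (({a ∈ V | ∃ l : ℕ, l.Prime ∧ l ≤ B ∧ l ∣ a} : Finset ℕ).card : ℝ) +
            (({a ∈ V | ¬ IsCoprime (a : ℤ) c} : Finset ℕ).card : ℝ) := by
          rw [Finset.card_filter, Finset.card_filter, ← Finset.sum_coe_sort V, ← Finset.sum_coe_sort V]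
          push_cast
          rw [← Finset.sum_add_distrib]
          apply Finset.sum_le_sum
          intro a _
          by_cases h : ∃ l : ℕ, l.Prime ∧ l ≤ B ∧ l ∣ (a : ℕ)
          · rw [ind_pos (Or.inl h), if_pos h]
            split_ifs <;> norm_num
          · by_cases h' : ¬ IsCoprime ((a : ℕ) : ℤ) c
            · rw [ind_pos (Or.inr h'), if_neg h, if_pos h']
              norm_num
            · rw [ind_neg (fun h2 => h2.elim h h'), if_neg h, if_neg h']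
              norm_num
        have h2 : (({a ∈ V | ∃ l : ℕ, l.Prime ∧ l ≤ B ∧ l ∣ a} : Finset ℕ).card : ℝ) ≤ B := by
          exact_mod_cast few_small V hcop B
        have h3 : (({a ∈ V | ¬ IsCoprime (a : ℤ) c} : Finset ℕ).card : ℝ) ≤ r := by
          exact_mod_cast (few_not_coprime V hcop c hc0).trans hcr
        rw [one_div, inv_mul_eq_div]
        exact div_le_div_of_nonneg_right (by linarith) hV0r.le)
      (by
        have h1 : ∀ a : ↥V, ∑ b : ↥V, (1 / (V.card : ℝ)) * (1 / (V.card : ℝ)) * ind (a = b) =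
            (1 / (V.card : ℝ)) * (1 / (V.card : ℝ)) := by
          intro a
          rw [Finset.sum_eq_single a]
          · rw [ind_pos rfl, mul_one]
          · intro b _ hb
            rw [ind_neg (fun h => hb h.symm), mul_zero]
          · intro h
            exact absurd (mem_univ _) h
        simp only [h1]
        rw [Finset.sum_const, Finset.card_univ, Fintype.card_coe, nsmul_eq_mul]
        apply le_of_eq
        field_simp)
    refine hb.trans ?_
    rw [Fintype.card_prod, Fintype.card_fin, Fintype.card_fin]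
    push_cast
    have h2 : 4 * (K : ℝ) * ((B + r) / V.card) + (4 * (K : ℝ)) ^ 2 * (1 / V.card) =
        (16 * (K : ℝ) ^ 2 + 4 * K * (B + r)) / V.card := by ring
    rw [h2, div_le_iff₀ hV0r]
    have h3 : (16 * (K : ℝ) ^ 2 + 4 * K * (B + r)) ≤ η * N₀ := by
      rw [div_le_iff₀ hη] at hN₀'
      linarith
    exact h3.trans (mul_le_mul_of_nonneg_left hVr hη.le)

end Pool.Agent.H579
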