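import Pool.Agent.H579.Forms

set_option autoImplicit false

/-! Linear forms `α x * n + β x` with `s x * r x * (α x * n + β x) = W * ν + s x * t x`. -/

namespace Pool.Agent.H579

open Finset

theorem shift_forms {ι : Type} [Fintype ι] (W : ℕ) (hW : 0 < W)
    (hWι : ∀ l : ℕ, l.Prime → l ≤ Fintype.card ι → l ∣ W) (s r : ι → ℕ) (t : ι → ℤ)
    (hs0 : ∀ x, 0 < s x) (hs1 : ∀ x, s x ∣ W) (hs : ∀ x, ∀ l : ℕ, l.Prime → l ∣ W → s x * l ∣ W)
    (hr0 : ∀ x, 0 < r x) (hr : ∀ x y, x ≠ y → Nat.Coprime (r x) (r y))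
    (hrW : ∀ x, ∀ l : ℕ, l.Prime → l ∣ W → ¬ l ∣ r x)
    (ht : ∀ x, ∀ l : ℕ, l.Prime → l ∣ W → ¬ (l : ℤ) ∣ t x)
    (hd : ∀ x y, x ≠ y → ∀ l : ℕ, l.Prime → l ∣ r x → ¬ (l : ℤ) ∣ s x * t x - s y * t y)
    (hinj : ∀ x y, x ≠ y → (s x : ℤ) * t x ≠ s y * t y) :
    ∃ α β : ι → ℤ, (∀ x, 0 < α x) ∧ Function.Injective (fun x => (α x, β x)) ∧
      (∀ p : ℕ, p.Prime → ∃ n : ℤ, ∀ x, ¬ (p : ℤ) ∣ α x * n + β x) ∧
      ∀ x y, ∀ n : ℤ, ((s x * r x : ℕ) : ℤ) * (α x * n + β x) -
        ((s y * r y : ℕ) : ℤ) * (α y * n + β y) = s x * t x - s y * t y := by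
  classical
  choose u hu using hs1
  have hupos : ∀ x, 0 < u x := by
    intro x
    rcases Nat.eq_zero_or_pos (u x) with h | h
    · have := hu x
      rw [h, mul_zero] at this
      omega
    · exact h
  have hul : ∀ x, ∀ l : ℕ, l.Prime → l ∣ W → l ∣ u x := by
    intro x l hl hlW
    have h1 := hs x l hl hlW
    rw [hu x] at h1
    exact Nat.dvd_of_mul_dvd_mul_left (hs0 x) h1
  have hud : ∀ x, u x ∣ W := fun x => ⟨s x, by rw [hu x]; ring⟩
  have hur : ∀ x y, Nat.Coprime (u x) (r y) := by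
    intro x y
    by_contra hnc
    obtain ⟨l, hl, hl1, hl2⟩ := Nat.Prime.not_coprime_iff_dvd.1 hnc
    exact hrW y l hl (hl1.trans (hud x)) hl2
  obtain ⟨ν, hν⟩ := exists_crt r hr0 hr u (fun x => hur x x) t
  choose w hw using hν
  set Q : ι → ℕ := fun x => ∏ z ∈ univ.erase x, r z with hQ
  set Pi0 : ℕ := ∏ z, r z with hPi0
  have hPQ : ∀ x, r x * Q x = Pi0 := fun x => mul_prod_erase univ r (mem_univ x)
  have hQpos : ∀ x, 0 < Q x := fun x => prod_pos fun z _ => hr0 z
  set α : ι → ℤ := fun x => (u x : ℤ) * Q x with hα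
  have hαe : ∀ x, ∀ p : ℕ, (p : ℤ) ∣ α x ↔ p ∣ u x * Q x := by
    intro x p
    have h1 : α x = ((u x * Q x : ℕ) : ℤ) := by
      simp only [hα]
      push_cast
      ring
    rw [h1, Int.natCast_dvd_natCast]
  have hαpos : ∀ x, 0 < α x := by
    intro x
    have h1 : (0 : ℤ) < u x := by exact_mod_cast hupos x
    have h2 : (0 : ℤ) < Q x := by exact_mod_cast hQpos x
    exact mul_pos h1 h2
  have key : ∀ x, ∀ n : ℤ, ((s x * r x : ℕ) : ℤ) * (α x * n + w x) = W * (Pi0 * n + ν) + s x * t x := by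
    intro x n
    have h1 := hw x
    have h2 : (r x : ℤ) * Q x = Pi0 := by exact_mod_cast hPQ x
    have h3 : (s x : ℤ) * u x = W := by exact_mod_cast (hu x).symm
    simp only [hα]
    push_cast
    calc (s x : ℤ) * r x * ((u x : ℤ) * Q x * n + w x) = (s x * u x) * (r x * Q x) * n + s x * (r x * w x) := by ring
      _ = W * (Pi0 * n + ν) + s x * t x := by rw [← h1, h2, h3]; linear_combination (ν : ℤ) * h3
  have hrel : ∀ x y, ∀ n : ℤ, ((s x * r x : ℕ) : ℤ) * (α x * n + w x) -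
        ((s y * r y : ℕ) : ℤ) * (α y * n + w y) = s x * t x - s y * t y := by
    intro x y n
    rw [key x n, key y n]; ring
  refine ⟨α, w, hαpos, ?_, ?_, hrel⟩
  · intro x y hxy
    by_contra hne
    simp only [Prod.mk.injEq] at hxy
    obtain ⟨h1, h2⟩ := hxy
    have e0 := hrel x y 0
    have e1 := hrel x y 1
    rw [h1, h2] at e0 e1
    have h3 : (((s x * r x : ℕ) : ℤ) - ((s y * r y : ℕ) : ℤ)) * α y = 0 := by linear_combination e1 - e0
    have h4 : ((s x * r x : ℕ) : ℤ) - ((s y * r y : ℕ) : ℤ) = 0 := by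
      rcases mul_eq_zero.1 h3 with h | h
      · exact h
      · exact absurd h (hαpos y).ne'
    apply hinj x y hne
    have h5 : (s x : ℤ) * t x - s y * t y = 0 := by
      rw [← e0]
      linear_combination (α y * 0 + w y) * h4
    linarith
  · intro p hp
    have hpI : Prime (p : ℤ) := Nat.prime_iff_prime_int.1 hp
    by_cases hpW : p ∣ W
    · refine ⟨0, fun x hx => ?_⟩
      have e : α x * 0 + w x = w x := by ring
      rw [e] at hx
      have h1 : (p : ℤ) ∣ t x + u x * ν := by rw [hw x]; exact hx.mul_left _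
      have h2 : (p : ℤ) ∣ (u x : ℤ) := by exact_mod_cast hul x p hp hpW
      exact ht x p hp hpW ((dvd_add_left (h2.mul_right ν)).1 h1)
    by_cases hpP : ∃ k, p ∣ r k
    · obtain ⟨k, hk⟩ := hpP
      have hαk : ¬ (p : ℤ) ∣ α k := by
        intro h
        have h3 : p ∣ u k * Q k := (hαe k p).1 h
        rcases (hp.dvd_mul).1 h3 with h4 | h4
        · exact hpW (h4.trans (hud k))
        · obtain ⟨z, hz1, hz⟩ := (hp.prime.dvd_finsetProd_iff _).1 h4
          have hzk : z ≠ k := (mem_erase.1 hz1).1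
          have h5 := Nat.dvd_gcd hz hk
          rw [hr z k hzk] at h5
          exact hp.one_lt.ne' (Nat.dvd_one.1 h5)
      obtain ⟨n, hn⟩ : ∃ n : ℤ, ¬ (p : ℤ) ∣ α k * n + w k := by
        by_cases h0 : (p : ℤ) ∣ w k
        · refine ⟨1, fun h => hαk ?_⟩
          have h3 := dvd_sub h h0
          have e : α k * 1 + w k - w k = α k := by ring
          rwa [e] at h3
        · refine ⟨0, fun h => h0 ?_⟩
          have e : α k * 0 + w k = w k := by ring
          rwa [e] at h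
      refine ⟨n, fun x hx => ?_⟩
      by_cases hxk : x = k
      · subst hxk; exact hn hx
      have h1 := (hx.mul_left ((s x * r x : ℕ) : ℤ))
      rw [key x n] at h1
      have h2 : (p : ℤ) ∣ W * (Pi0 * n + ν) + s k * t k := by
        rw [← key k n]
        have h3 : (p : ℤ) ∣ ((s k * r k : ℕ) : ℤ) := by
          exact_mod_cast hk.mul_left (s k)
        exact h3.mul_right _
      have h3 := dvd_sub h2 h1
      have e : (W : ℤ) * (Pi0 * n + ν) + s k * t k - (W * (Pi0 * n + ν) + s x * t x) =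
          s k * t k - s x * t x := by ring
      rw [e] at h3
      exact hd k x (fun h => hxk h.symm) p hp hk h3
    · push Not at hpP
      have hbig : Fintype.card ι < p := by
        by_contra hle
        exact hpW (hWι p hp (by omega))
      apply exists_avoid hp hbig
      rintro x ⟨h1, -⟩
      have h3 : p ∣ u x * Q x := (hαe x p).1 h1
      rcases (hp.dvd_mul).1 h3 with h4 | h4
      · exact hpW (h4.trans (hud x))
      · obtain ⟨z, hz1, hz⟩ := (hp.prime.dvd_finsetProd_iff _).1 h4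
        exact hpP z hz

end Pool.Agent.H579
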