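import Pool.Agent.H579.Base
import Pool.Agent.H579.Shift
import Pool.Agent.H579.Abs

set_option autoImplicit false

/-! Positive proportions of constants for one cross pair of four classes. -/

namespace Pool.Agent.H579

open Finset Filter Pool.Agent.V11150.RatC

/-- the property of `K` and `C` provided by the coloured Maynard-Tao theorem -/
def Hit (K C : ℕ) : Prop := ∀ (W : ℕ), 0 < W → (∀ l : ℕ, l.Prime → l ≤ 4 * K → l ∣ W) →
    ∀ (s r : Fin 4 × Fin K → ℕ) (t : Fin 4 × Fin K → ℤ),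
    (∀ x, 0 < s x) → (∀ x, s x ∣ W) → (∀ x, ∀ l : ℕ, l.Prime → l ∣ W → s x * l ∣ W) →
    (∀ x, 0 < r x) → (∀ x y, x ≠ y → Nat.Coprime (r x) (r y)) →
    (∀ x, ∀ l : ℕ, l.Prime → l ∣ W → ¬ l ∣ r x) →
    (∀ x, ∀ l : ℕ, l.Prime → l ∣ W → ¬ (l : ℤ) ∣ t x) →
    (∀ x y, x ≠ y → ∀ l : ℕ, l.Prime → l ∣ r x → ¬ (l : ℤ) ∣ s x * t x - s y * t y) →
    (∀ x y, x ≠ y → (s x : ℤ) * t x ≠ s y * t y) →
    ∃ x y : Fin 4 × Fin K, x.1 < y.1 ∧ Often C (Sol (s x * r x) (s y * r y) (s x * t x - s y * t y))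

theorem exists_hit : ∃ K C : ℕ, 1 ≤ K ∧ Hit K C := by
  classical
  obtain ⟨K, hK, C, H⟩ := coloured 4 1 (by norm_num) (by norm_num)
  refine ⟨K, C + 1, hK, ?_⟩
  intro W hW hWι s r t hs0 hs1 hs hr0 hr hrW ht hd hinj
  obtain ⟨α, β, hα, hinj', hadm, hrel⟩ := shift_forms W hW (by
    intro l hl hle
    apply hWι l hl
    rw [Fintype.card_prod, Fintype.card_fin, Fintype.card_fin] at hle
    exact hle) s r t hs0 hs1 hs hr0 hr hrW ht hd hinj
  obtain ⟨S, σ, hS, hO⟩ := H (fun g i => α (g, i)) (fun g i => β (g, i)) (fun g i => hα _) hinj'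
    (by
      intro p hp
      obtain ⟨n, hn⟩ := hadm p hp
      exact ⟨n, fun g i => hn (g, i)⟩)
  obtain ⟨g, hg, h, hh, hgh⟩ := Finset.one_lt_card.1 (by omega : 1 < S.card)
  have key : ∀ g ∈ S, ∀ h ∈ S, g < h → Often (C + 1) (Sol (s (g, σ g) * r (g, σ g)) (s (h, σ h) * r (h, σ h))
      (s (g, σ g) * t (g, σ g) - s (h, σ h) * t (h, σ h))) := by
    intro g hg h hh hgh
    refine often_sol hO (α (g, σ g)) (β (g, σ g)) (α (h, σ h)) (β (h, σ h)) (hα _) _ _ _ ?_ ?_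
    · intro n hn
      exact ⟨hn g hg, hn h hh⟩
    · intro n
      exact hrel (g, σ g) (h, σ h) n
  rcases lt_or_gt_of_ne hgh with h1 | h1
  · exact ⟨(g, σ g), (h, σ h), h1, key g hg h hh h1⟩
  · exact ⟨(h, σ h), (g, σ g), h1, key h hh g hg h1⟩

/-- the offsets of the classes -/
def off (S₀ K U : ℕ) (g : Fin 4) : ℕ := (2 * S₀) ^ (3 - (g : ℕ)) * (K * U)

/-- the shifts -/
def sh (W S₀ K U : ℕ) (x : Fin 4 × Fin K) (u : ℕ) : ℕ := 1 + W * (K * u + x.2 + off S₀ K U x.1)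

theorem off_le (S₀ K U : ℕ) (hS : 1 ≤ S₀) (g : Fin 4) : off S₀ K U g ≤ 8 * S₀ ^ 3 * (K * U) := by
  unfold off
  apply Nat.mul_le_mul_right
  calc (2 * S₀) ^ (3 - (g : ℕ)) ≤ (2 * S₀) ^ 3 := Nat.pow_le_pow_right (by omega) (by omega)
    _ = 8 * S₀ ^ 3 := by ring

theorem off_step (S₀ K U : ℕ) (hS : 1 ≤ S₀) (g h : Fin 4) (hgh : g < h) :
    S₀ * (K * U + off S₀ K U h) ≤ off S₀ K U g := by
  unfold off
  have h1 : (3 - (h : ℕ)) + 1 ≤ 3 - (g : ℕ) := by
    have := h.2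
    have : (g : ℕ) < h := hgh
    omega
  have h2 : (2 * S₀) ^ ((3 - (h : ℕ)) + 1) ≤ (2 * S₀) ^ (3 - (g : ℕ)) := Nat.pow_le_pow_right (by omega) h1
  have h3 : 1 ≤ (2 * S₀) ^ (3 - (h : ℕ)) := Nat.one_le_pow _ _ (by omega)
  calc S₀ * (K * U + (2 * S₀) ^ (3 - (h : ℕ)) * (K * U))
      ≤ S₀ * ((2 * S₀) ^ (3 - (h : ℕ)) * (K * U) + (2 * S₀) ^ (3 - (h : ℕ)) * (K * U)) := by
        apply Nat.mul_le_mul_left
        apply Nat.add_le_add_right
        exact Nat.le_mul_of_pos_left _ h3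
    _ = (2 * S₀) ^ ((3 - (h : ℕ)) + 1) * (K * U) := by rw [pow_succ]; ring
    _ ≤ _ := Nat.mul_le_mul_right _ h2

theorem sh_lt {W S₀ K U : ℕ} (hW : 0 < W) (hS : 1 ≤ S₀) {x y : Fin 4 × Fin K} (hxy : x.1 < y.1)
    {u v : ℕ} (hv : v < U) {s s' : ℕ} (hs : 1 ≤ s) (hs' : s' ≤ S₀) :
    s' * sh W S₀ K U y v < s * sh W S₀ K U x u := by
  unfold sh
  have h1 := off_step S₀ K U hS x.1 y.1 hxy
  have h2 : K * v + y.2 + 1 ≤ K * U := by
    have := y.2.2
    calc K * v + y.2 + 1 ≤ K * v + K := by omega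
      _ = K * (v + 1) := by ring
      _ ≤ K * U := Nat.mul_le_mul_left _ hv
  set o := off S₀ K U x.1
  set o' := off S₀ K U y.1
  calc s' * (1 + W * (K * v + y.2 + o')) ≤ S₀ * (1 + W * (K * v + y.2 + o')) := Nat.mul_le_mul_right _ hs'
    _ ≤ S₀ * (W + W * (K * v + y.2 + o')) := Nat.mul_le_mul_left _ (Nat.add_le_add_right hW _)
    _ = W * (S₀ * ((K * v + y.2 + 1) + o')) := by ring
    _ ≤ W * (S₀ * (K * U + o')) := by
        apply Nat.mul_le_mul_left
        apply Nat.mul_le_mul_left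
        omega
    _ ≤ W * o := Nat.mul_le_mul_left _ h1
    _ < 1 + W * (K * u + x.2 + o) := by
        have : W * o ≤ W * (K * u + x.2 + o) := Nat.mul_le_mul_left _ (by omega)
        omega
    _ ≤ s * (1 + W * (K * u + x.2 + o)) := Nat.le_mul_of_pos_left _ hs

theorem sh_le {W S₀ K U : ℕ} (hW : 0 < W) (hS : 1 ≤ S₀) (x : Fin 4 × Fin K)
    {u : ℕ} (hu : u < U) {s : ℕ} (hs : s ≤ S₀) :
    s * sh W S₀ K U x u ≤ 10 * S₀ ^ 4 * W * K * U := by
  unfold sh
  have h1 := off_le S₀ K U hS x.1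
  have h2 : K * u + x.2 + 1 ≤ K * U := by
    have := x.2.2
    calc K * u + x.2 + 1 ≤ K * u + K := by omega
      _ = K * (u + 1) := by ring
      _ ≤ K * U := Nat.mul_le_mul_left _ hu
  set o := off S₀ K U x.1
  calc s * (1 + W * (K * u + x.2 + o)) ≤ S₀ * (W + W * (K * u + x.2 + o)) :=
        Nat.mul_le_mul hs (Nat.add_le_add_right hW _)
    _ = S₀ * W * ((K * u + x.2 + 1) + o) := by ring
    _ ≤ S₀ * W * (K * U + 8 * S₀ ^ 3 * (K * U)) := by
        apply Nat.mul_le_mul_left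
        omega
    _ ≤ S₀ * W * (2 * S₀ ^ 3 * (K * U) + 8 * S₀ ^ 3 * (K * U)) := by
        apply Nat.mul_le_mul_left
        apply Nat.add_le_add_right
        apply Nat.le_mul_of_pos_left
        positivity
    _ = 10 * S₀ ^ 4 * W * K * U := by ring

theorem sh_inj {W S₀ K U : ℕ} (hW : 0 < W) (hK : 1 ≤ K) (x : Fin 4 × Fin K) {u u' : ℕ}
    (h : sh W S₀ K U x u = sh W S₀ K U x u') : u = u' := by
  unfold sh at h
  have h1 : W * (K * u + x.2 + off S₀ K U x.1) = W * (K * u' + x.2 + off S₀ K U x.1) := by omega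
  have h2 := Nat.eq_of_mul_eq_mul_left hW h1
  have h3 : K * u = K * u' := by omega
  exact Nat.eq_of_mul_eq_mul_left hK h3

theorem sh_cop {W S₀ K U : ℕ} (x : Fin 4 × Fin K) (u : ℕ) : Nat.Coprime W (sh W S₀ K U x u) := by
  unfold sh
  simp

/-- all the shifts are different -/
theorem sh_ne {W S₀ K U : ℕ} (hW : 0 < W) (hS : 1 ≤ S₀) (hK : 1 ≤ K) {x y : Fin 4 × Fin K} (hxy : x ≠ y)
    {u v : ℕ} (hu : u < U) (hv : v < U) {s s' : ℕ} (hs : 1 ≤ s) (hs1 : s ∣ W) (hs' : 1 ≤ s') (hs1' : s' ∣ W)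
    (hsS : s ≤ S₀) (hsS' : s' ≤ S₀) :
    s * sh W S₀ K U x u ≠ s' * sh W S₀ K U y v := by
  rcases lt_trichotomy x.1 y.1 with h | h | h
  · exact (sh_lt hW hS h hv hs hsS').ne'
  · intro he
    have c1 : Nat.Coprime s (sh W S₀ K U y v) := Nat.Coprime.coprime_dvd_left hs1 (sh_cop y v)
    have c2 : Nat.Coprime s' (sh W S₀ K U x u) := Nat.Coprime.coprime_dvd_left hs1' (sh_cop x u)
    have d1 : s ∣ s' := by
      apply c1.dvd_of_dvd_mul_right
      rw [← he]; exact Dvd.intro _ rfl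
    have d2 : s' ∣ s := by
      apply c2.dvd_of_dvd_mul_right
      rw [he]; exact Dvd.intro _ rfl
    have e1 := Nat.dvd_antisymm d1 d2
    rw [← e1] at he
    have e2 := Nat.eq_of_mul_eq_mul_left hs he
    unfold sh at e2
    rw [h] at e2
    have h1 : W * (K * u + x.2 + off S₀ K U y.1) = W * (K * v + y.2 + off S₀ K U y.1) := by omega
    have h2 := Nat.eq_of_mul_eq_mul_left hW h1
    have h3 : K * u + x.2 = K * v + y.2 := by omega
    have h4 : (x.2 : ℕ) = y.2 := by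
      have h5 : (K * u + x.2) % K = (K * v + y.2) % K := by rw [h3]
      rw [Nat.mul_add_mod, Nat.mul_add_mod, Nat.mod_eq_of_lt x.2.2, Nat.mod_eq_of_lt y.2.2] at h5
      exact h5
    exact hxy (Prod.ext h (Fin.ext h4))
  · exact (sh_lt hW hS h hu hs' hsS).ne

/-- the difference of the shifts -/
def df (W S₀ K U : ℕ) (s s' : ℕ) (x y : Fin 4 × Fin K) (u v : ℕ) : ℤ :=
  (s : ℤ) * sh W S₀ K U x u - s' * sh W S₀ K U y v

/-- the numerators have no prime factor in common with the differences of the shifts -/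
def NiceA (W S₀ K U : ℕ) (s r : Fin 4 × Fin K → ℕ) (a : Fin 4 × Fin K → Fin U) : Prop :=
  ∀ x y, x ≠ y → ∀ l : ℕ, l.Prime → l ∣ r x → ¬ (l : ℤ) ∣ df W S₀ K U (s x) (s y) x y (a x) (a y)

theorem hit_many {K C : ℕ} (hK : 1 ≤ K) (H : Hit K C) (W S₀ U : ℕ) (hW : 0 < W) (hS : 1 ≤ S₀) (hU : 1 ≤ U)
    (hWι : ∀ l : ℕ, l.Prime → l ≤ 4 * K → l ∣ W) (s r : Fin 4 × Fin K → ℕ)
    (hs0 : ∀ x, 0 < s x) (hsS : ∀ x, s x ≤ S₀) (hs1 : ∀ x, s x ∣ W)
    (hs : ∀ x, ∀ l : ℕ, l.Prime → l ∣ W → s x * l ∣ W)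
    (hr0 : ∀ x, 0 < r x) (hr : ∀ x y, x ≠ y → Nat.Coprime (r x) (r y))
    (hrW : ∀ x, ∀ l : ℕ, l.Prime → l ∣ W → ¬ l ∣ r x)
    (hnice : 1 / 2 ≤ ∑ a : Fin 4 × Fin K → Fin U, (∏ _x : Fin 4 × Fin K, (1 / (U : ℝ))) * ind (NiceA W S₀ K U s r a)) :
    ∃ x y : Fin 4 × Fin K, x.1 < y.1 ∧ (U : ℝ) / (32 * K ^ 2) ≤
      ({c : ℕ | 1 ≤ c ∧ c ≤ 10 * S₀ ^ 4 * W * K * U ∧ Often C (Sol (s x * r x) (s y * r y) c)}.ncard : ℝ) := by
  classical
  have hU0 : (0 : ℝ) < U := by exact_mod_cast hU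
  have hK0 : (0 : ℝ) < K := by exact_mod_cast hK
  set G : Fin 4 × Fin K → Fin 4 × Fin K → Fin U → Fin U → Prop := fun x y u v =>
    Often C (Sol (s x * r x) (s y * r y) (df W S₀ K U (s x) (s y) x y u v)) with hG
  -- pointwise
  have hpt : ∀ a : Fin 4 × Fin K → Fin U, ind (NiceA W S₀ K U s r a) ≤
      ∑ z : (Fin 4 × Fin K) × (Fin 4 × Fin K), if z.1.1 < z.2.1 then ind (G z.1 z.2 (a z.1) (a z.2)) else 0 := by
    intro a
    have hnn : ∀ z ∈ (univ : Finset ((Fin 4 × Fin K) × (Fin 4 × Fin K))),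
        0 ≤ (if z.1.1 < z.2.1 then ind (G z.1 z.2 (a z.1) (a z.2)) else 0) := by
      intro z _
      split_ifs
      · exact ind_nonneg _
      · exact le_rfl
    by_cases ha : NiceA W S₀ K U s r a
    · obtain ⟨x, y, hxy, hO⟩ := H W hW hWι s r (fun x => ((sh W S₀ K U x (a x) : ℕ) : ℤ)) hs0 hs1 hs hr0 hr hrW
        (by
          intro x l hl hlW h
          have h1 : l ∣ sh W S₀ K U x (a x) := by exact_mod_cast h
          have h2 := Nat.dvd_gcd hlW h1
          rw [sh_cop x (a x)] at h2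
          exact hl.one_lt.ne' (Nat.dvd_one.1 h2))
        (fun x y hxy l hl hlr => ha x y hxy l hl hlr)
        (fun x y hxy h => sh_ne hW hS hK hxy (a x).2 (a y).2 (hs0 x) (hs1 x) (hs0 y) (hs1 y) (hsS x) (hsS y)
          (by exact_mod_cast h))
      have h1 := Finset.single_le_sum hnn (mem_univ (x, y))
      rw [if_pos hxy, ind_pos (P := G x y (a x) (a y)) hO] at h1
      rw [ind_pos ha]
      exact h1
    · rw [ind_neg ha]
      exact Finset.sum_nonneg hnn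
  have hw1 : ∑ _a : Fin U, (1 / (U : ℝ)) = 1 := by
    rw [Finset.sum_const, Finset.card_univ, Fintype.card_fin, nsmul_eq_mul]
    field_simp
  have hwn : 0 ≤ ∏ _x : Fin 4 × Fin K, (1 / (U : ℝ)) := Finset.prod_nonneg fun _ _ => by positivity
  set N : Fin 4 × Fin K → Fin 4 × Fin K → ℝ := fun x y => ∑ u : Fin U, ∑ v : Fin U, ind (G x y u v) with hN
  have hNn : ∀ x y, 0 ≤ N x y := fun x y => Finset.sum_nonneg fun u _ => Finset.sum_nonneg fun v _ => ind_nonneg _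
  -- sum over `a`
  have hsum : 1 / 2 ≤ ∑ z : (Fin 4 × Fin K) × (Fin 4 × Fin K), if z.1.1 < z.2.1 then N z.1 z.2 / (U : ℝ) ^ 2 else 0 := by
    refine hnice.trans ?_
    have h1 : ∑ a : Fin 4 × Fin K → Fin U, (∏ _x : Fin 4 × Fin K, (1 / (U : ℝ))) * ind (NiceA W S₀ K U s r a) ≤
        ∑ a : Fin 4 × Fin K → Fin U, (∏ _x : Fin 4 × Fin K, (1 / (U : ℝ))) *
          ∑ z : (Fin 4 × Fin K) × (Fin 4 × Fin K), if z.1.1 < z.2.1 then ind (G z.1 z.2 (a z.1) (a z.2)) else 0 :=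
      Finset.sum_le_sum fun a _ => mul_le_mul_of_nonneg_left (hpt a) hwn
    refine h1.trans (le_of_eq ?_)
    simp only [Finset.mul_sum]
    rw [Finset.sum_comm]
    apply Finset.sum_congr rfl
    rintro ⟨x, y⟩ _
    by_cases hxy : x.1 < y.1
    · simp only [hxy, if_true]
      have hne : x ≠ y := fun h => hxy.ne (congrArg Prod.fst h)
      have hinj : Function.Injective (![x, y] : Fin 2 → Fin 4 × Fin K) := by
        intro a b hab
        fin_cases a <;> fin_cases b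
        · rfl
        · exact absurd hab hne
        · exact absurd hab.symm hne
        · rfl
      have e := marg (fun _ : Fin U => 1 / (U : ℝ)) hw1 (![x, y] : Fin 2 → Fin 4 × Fin K) hinj
        (fun b : Fin 2 → Fin U => ind (G x y (b 0) (b 1)))
      simp only [Matrix.cons_val_zero, Matrix.cons_val_one] at e
      rw [e, hN, ← (finTwoArrowEquiv (Fin U)).symm.sum_comp, Fintype.sum_prod_type]
      simp only [Finset.sum_div]
      apply Finset.sum_congr rfl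
      intro u _
      apply Finset.sum_congr rfl
      intro v _
      change (∏ _j : Fin 2, (1 / (U : ℝ))) * ind (G x y u v) = ind (G x y u v) / (U : ℝ) ^ 2
      rw [Fin.prod_univ_two]
      field_simp
    · simp [hxy]
  -- a good pair of indices
  obtain ⟨x, y, hxy, hlow⟩ : ∃ x y : Fin 4 × Fin K, x.1 < y.1 ∧ 1 / (32 * (K : ℝ) ^ 2) ≤ N x y / (U : ℝ) ^ 2 := by
    by_contra hcon
    push Not at hcon
    have h1 : ∑ z : (Fin 4 × Fin K) × (Fin 4 × Fin K), (if z.1.1 < z.2.1 then N z.1 z.2 / (U : ℝ) ^ 2 else 0) <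
        ∑ _z : (Fin 4 × Fin K) × (Fin 4 × Fin K), 1 / (32 * (K : ℝ) ^ 2) := by
      apply Finset.sum_lt_sum_of_nonempty
      · exact ⟨((0, ⟨0, hK⟩), (0, ⟨0, hK⟩)), mem_univ _⟩
      · rintro ⟨x, y⟩ _
        by_cases hxy : x.1 < y.1
        · simp only [hxy, if_true]
          exact hcon x y hxy
        · simp only [hxy, if_false]
          positivity
    rw [Finset.sum_const, Finset.card_univ, Fintype.card_prod, Fintype.card_prod, Fintype.card_fin, Fintype.card_fin,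
      nsmul_eq_mul] at h1
    push_cast at h1
    have h2 : (4 * (K : ℝ) * (4 * K)) * (1 / (32 * (K : ℝ) ^ 2)) = 1 / 2 := by
      field_simp
      norm_num
    rw [h2] at h1
    linarith
  refine ⟨x, y, hxy, ?_⟩
  -- the constants
  set D : Set ℕ := {c : ℕ | 1 ≤ c ∧ c ≤ 10 * S₀ ^ 4 * W * K * U ∧ Often C (Sol (s x * r x) (s y * r y) c)} with hD
  have hDfin : D.Finite := (Set.finite_Iic (10 * S₀ ^ 4 * W * K * U)).subset fun c hc => hc.2.1
  have hN2 : N x y ≤ U * (D.ncard : ℝ) := by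
    rw [hN]
    simp only
    rw [Finset.sum_comm]
    have h1 : ∀ v : Fin U, ∑ u : Fin U, ind (G x y u v) ≤ (D.ncard : ℝ) := by
      intro v
      have h2 : ∑ u : Fin U, ind (G x y u v) = (((univ : Finset (Fin U)).filter (fun u => G x y u v)).card : ℝ) := by
        rw [Finset.card_filter]
        push_cast
        apply Finset.sum_congr rfl
        intro u _
        by_cases hu : G x y u v
        · rw [ind_pos hu, if_pos hu]
        · rw [ind_neg hu, if_neg hu]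
      rw [h2, Nat.cast_le, ← Set.ncard_coe_finset]
      apply Set.ncard_le_ncard_of_injOn (fun u : Fin U => s x * sh W S₀ K U x u - s y * sh W S₀ K U y v) _ _ hDfin
      · intro u hu
        have hu' : G x y u v := (mem_filter.1 (mem_coe.1 hu)).2
        have h3 := sh_lt hW hS hxy (u := (u : ℕ)) v.2 (hs0 x) (hsS y)
        have h4 := sh_le hW hS x u.2 (hsS x)
        refine ⟨by omega, by omega, ?_⟩
        have h5 : ((s x * sh W S₀ K U x u - s y * sh W S₀ K U y v : ℕ) : ℤ) =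
            df W S₀ K U (s x) (s y) x y u v := by
          unfold df
          push_cast [h3.le]
          ring
        rw [h5]
        exact hu'
      · intro u hu u' hu' he
        simp only at he
        have h3 := sh_lt hW hS hxy (u := (u : ℕ)) v.2 (hs0 x) (hsS y)
        have h3' := sh_lt hW hS hxy (u := (u' : ℕ)) v.2 (hs0 x) (hsS y)
        have h4 : s x * sh W S₀ K U x u = s x * sh W S₀ K U x u' := by omega
        exact Fin.ext (sh_inj hW hK x (Nat.eq_of_mul_eq_mul_left (hs0 x) h4))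
    calc ∑ v : Fin U, ∑ u : Fin U, ind (G x y u v) ≤ ∑ _v : Fin U, (D.ncard : ℝ) :=
          Finset.sum_le_sum fun v _ => h1 v
      _ = U * (D.ncard : ℝ) := by rw [Finset.sum_const, Finset.card_univ, Fintype.card_fin, nsmul_eq_mul]
  rw [le_div_iff₀ (by positivity)] at hlow
  have h3 := hlow.trans hN2
  have h4 : (U : ℝ) * ((U : ℝ) / (32 * K ^ 2)) ≤ U * (D.ncard : ℝ) := by
    calc (U : ℝ) * ((U : ℝ) / (32 * K ^ 2)) = 1 / (32 * (K : ℝ) ^ 2) * (U : ℝ) ^ 2 := by ring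
      _ ≤ _ := h3
  exact le_of_mul_le_mul_left h4 hU0

end Pool.Agent.H579
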