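import Pool.Agent.H579.Core

set_option autoImplicit false

/-! Limit points of the slopes of the solvable equations with a fixed constant. -/

namespace Pool.Agent.H579

open Finset Filter Pool.Agent.V11150.RatC

/-- `ξ` is a limit of the slopes `b / a` of solvable equations `a p - b q = c` -/
def LimSlope (C : ℕ) (c : ℤ) (ξ : ℝ) : Prop :=
  ∀ ε : ℝ, 0 < ε → ∀ N : ℕ, ∃ a b : ℕ, N ≤ a ∧ |(b : ℝ) / a - ξ| < ε ∧ Good C a b c

/-- pairwise coprime rough integers in prescribed proportions -/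
theorem exists_coprime_near {ι : Type} [Fintype ι] (B : ℕ) (v : ι → ℝ) (hv : ∀ x, 0 < v x) :
    ∃ (P : ℕ → ι → ℕ) (s : ℕ → ℝ), (∀ n, 0 < s n) ∧ (∀ n x, n ≤ P n x ∧ 1 ≤ P n x) ∧
      (∀ n, ∀ x y, x ≠ y → Nat.Coprime (P n x) (P n y)) ∧
      (∀ n x, ∀ l : ℕ, l.Prime → l ∣ P n x → B < l) ∧
      ∀ x, Tendsto (fun n => (P n x : ℝ) / s n) atTop (nhds (v x)) := by
  classical
  set k : ℕ := Fintype.card ι with hk
  set e : ι → Fin k := fun x => Fintype.equivFin ι x with he
  -- the approximations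
  set A : ℕ → ι → ℕ := fun n x => k * ⌊(n : ℝ) * v x⌋₊ + (e x : ℕ) + 1 with hA
  set M : ℕ → ℕ := fun n => (B + ∑ x, A n x).factorial with hM
  have hMpos : ∀ n, 0 < M n := fun n => Nat.factorial_pos _
  have hApos : ∀ n x, 1 ≤ A n x := fun n x => by simp only [hA]; omega
  refine ⟨fun n x => 1 + M n * (n + 1) * A n x, fun n => (M n : ℝ) * (n + 1) * (k * n + 1), ?_, ?_, ?_, ?_, ?_⟩
  · intro n
    have : (0 : ℝ) < M n := by exact_mod_cast hMpos n
    positivity
  · intro n x
    refine ⟨?_, Nat.le_add_right _ _⟩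
    calc n ≤ M n * (n + 1) * A n x := by
          have h1 : n + 1 ≤ M n * (n + 1) := Nat.le_mul_of_pos_left _ (hMpos n)
          have h2 : M n * (n + 1) ≤ M n * (n + 1) * A n x := Nat.le_mul_of_pos_right _ (hApos n x)
          omega
      _ ≤ 1 + M n * (n + 1) * A n x := Nat.le_add_left _ _
  · intro n x y hxy
    by_contra hnc
    obtain ⟨l, hl, hl1, hl2⟩ := Nat.Prime.not_coprime_iff_dvd.1 hnc
    have h1 : (l : ℤ) ∣ ((1 + M n * (n + 1) * A n x : ℕ) : ℤ) := by exact_mod_cast hl1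
    have h2 : (l : ℤ) ∣ ((1 + M n * (n + 1) * A n y : ℕ) : ℤ) := by exact_mod_cast hl2
    have h3 : (l : ℤ) ∣ (A n y : ℤ) - A n x := by
      have h4 := dvd_sub (h1.mul_left (A n y : ℤ)) (h2.mul_left (A n x : ℤ))
      have e1 : (A n y : ℤ) * ((1 + M n * (n + 1) * A n x : ℕ) : ℤ) -
          (A n x : ℤ) * ((1 + M n * (n + 1) * A n y : ℕ) : ℤ) = (A n y : ℤ) - A n x := by
        push_cast; ring
      rwa [e1] at h4
    have hne : A n y ≠ A n x := by
      intro h
      apply hxy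
      have h5 : ((e y : ℕ)) = e x := by
        have h6 : (k * ⌊(n : ℝ) * v y⌋₊ + (e y : ℕ)) % k = (k * ⌊(n : ℝ) * v x⌋₊ + (e x : ℕ)) % k := by
          simp only [hA] at h
          rw [Nat.succ.inj h]
        rw [Nat.mul_add_mod, Nat.mul_add_mod, Nat.mod_eq_of_lt (e y).2, Nat.mod_eq_of_lt (e x).2] at h6
        exact h6
      exact ((Fintype.equivFin ι).injective (Fin.ext h5)).symm
    have hle : ∀ z, A n z ≤ ∑ x, A n x := fun z =>
      Finset.single_le_sum (f := fun x => A n x) (fun _ _ => Nat.zero_le _) (mem_univ z)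
    have h7 : l ≤ ∑ x, A n x := by
      by_contra hlt
      push Not at hlt
      have h8 := Int.eq_zero_of_abs_lt_dvd h3 (by
        have i1 : (A n y : ℤ) ≤ ((∑ x, A n x : ℕ) : ℤ) := by exact_mod_cast hle y
        have i2 : (A n x : ℤ) ≤ ((∑ x, A n x : ℕ) : ℤ) := by exact_mod_cast hle x
        have i3 : ((∑ x, A n x : ℕ) : ℤ) < l := by exact_mod_cast hlt
        have i4 : (0 : ℤ) ≤ A n y := Nat.cast_nonneg _
        have i5 : (0 : ℤ) ≤ A n x := Nat.cast_nonneg _
        rw [abs_lt]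
        constructor <;> linarith)
      apply hne
      have : (A n y : ℤ) = A n x := by linarith
      exact_mod_cast this
    have h8 : l ∣ M n := by
      simp only [hM]
      exact (hl.dvd_factorial).2 (by omega)
    have h9 : l ∣ 1 := by
      have h10 : l ∣ M n * (n + 1) * A n x := (h8.mul_right _).mul_right _
      exact (Nat.dvd_add_left h10).1 hl1
    exact hl.one_lt.ne' (Nat.dvd_one.1 h9)
  · intro n x l hl hlP
    by_contra hle
    push Not at hle
    have h8 : l ∣ M n := by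
      simp only [hM]
      exact (hl.dvd_factorial).2 (by omega)
    have h9 : l ∣ 1 := by
      have h10 : l ∣ M n * (n + 1) * A n x := (h8.mul_right _).mul_right _
      exact (Nat.dvd_add_left h10).1 hlP
    exact hl.one_lt.ne' (Nat.dvd_one.1 h9)
  · intro x
    have hk0 : 0 < k := Fintype.card_pos_iff.2 ⟨x⟩
    have hkr : (0 : ℝ) < k := by exact_mod_cast hk0
    -- `P / s = 1 / s + A / (k n + 1)`
    have e1 : ∀ n : ℕ, ((1 + M n * (n + 1) * A n x : ℕ) : ℝ) / ((M n : ℝ) * (n + 1) * (k * n + 1)) =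
        1 / ((M n : ℝ) * (n + 1) * (k * n + 1)) + (A n x : ℝ) / (k * n + 1) := by
      intro n
      have : (0 : ℝ) < M n := by exact_mod_cast hMpos n
      push_cast
      field_simp
    simp only [e1]
    have t1 : Tendsto (fun n : ℕ => 1 / ((M n : ℝ) * (n + 1) * (k * n + 1))) atTop (nhds 0) := by
      refine squeeze_zero (fun n => ?_) (fun n => ?_) (tendsto_one_div_add_atTop_nhds_zero_nat (𝕜 := ℝ))
      · have : (0 : ℝ) < M n := by exact_mod_cast hMpos n
        positivity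
      · have h1 : (1 : ℝ) ≤ M n := by exact_mod_cast hMpos n
        apply one_div_le_one_div_of_le (by positivity)
        have h2 : (1 : ℝ) ≤ k * n + 1 := by
          have : (0 : ℝ) ≤ k * n := by positivity
          linarith
        have h3 : (1 : ℝ) * (n + 1) ≤ (M n : ℝ) * (n + 1) := mul_le_mul_of_nonneg_right h1 (by positivity)
        nlinarith
    have t2 : Tendsto (fun n : ℕ => (A n x : ℝ) / (k * n + 1)) atTop (nhds (v x)) := by
      have f1 : Tendsto (fun n : ℕ => (k * v x) * ((n : ℝ) / (k * n + 1))) atTop (nhds (v x)) := by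
        have f2 : Tendsto (fun n : ℕ => (n : ℝ) / (k * n + 1)) atTop (nhds (1 / k)) := by
          have f3 : Tendsto (fun n : ℕ => 1 / (k : ℝ) - (1 / k) * (1 / (k * n + 1))) atTop (nhds (1 / k - (1 / k) * 0)) := by
            apply Tendsto.sub tendsto_const_nhds
            apply Tendsto.const_mul
            apply Tendsto.comp (g := fun y : ℝ => 1 / y) (y := atTop)
            · simpa using tendsto_inv_atTop_zero (𝕜 := ℝ)
            · apply tendsto_atTop_add_const_right
              exact Tendsto.const_mul_atTop hkr tendsto_natCast_atTop_atTop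
          rw [mul_zero, sub_zero] at f3
          refine f3.congr fun n => ?_
          have : (k : ℝ) * n + 1 ≠ 0 := by positivity
          field_simp
          ring
        have f4 := f2.const_mul (k * v x)
        have e2 : (k * v x) * (1 / (k : ℝ)) = v x := by field_simp
        rwa [e2] at f4
      have f5 : Tendsto (fun n : ℕ => (A n x : ℝ) / (k * n + 1) - (k * v x) * ((n : ℝ) / (k * n + 1))) atTop (nhds 0) := by
        rw [tendsto_zero_iff_abs_tendsto_zero]
        have f6 : Tendsto (fun n : ℕ => (k : ℝ) * (1 / (k * n + 1))) atTop (nhds (k * 0)) := by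
          apply Tendsto.const_mul
          apply Tendsto.comp (g := fun y : ℝ => 1 / y) (y := atTop)
          · simpa using tendsto_inv_atTop_zero (𝕜 := ℝ)
          · apply tendsto_atTop_add_const_right
            exact Tendsto.const_mul_atTop hkr tendsto_natCast_atTop_atTop
        rw [mul_zero] at f6
        refine squeeze_zero (fun n => abs_nonneg _) (fun n => ?_) f6
        have h1 : (A n x : ℝ) / (k * n + 1) - (k * v x) * ((n : ℝ) / (k * n + 1)) =
            ((A n x : ℝ) - k * (n * v x)) / (k * n + 1) := by ring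
        rw [Function.comp_apply, h1, abs_div, abs_of_pos (show (0 : ℝ) < k * n + 1 by positivity), ← div_eq_mul_one_div]
        apply div_le_div_of_nonneg_right _ (by positivity)
        have h2 : (⌊(n : ℝ) * v x⌋₊ : ℝ) ≤ n * v x := Nat.floor_le (by have := hv x; positivity)
        have h3 : (n : ℝ) * v x < ⌊(n : ℝ) * v x⌋₊ + 1 := Nat.lt_floor_add_one _
        have h4 : (e x : ℕ) + 1 ≤ k := (e x).2
        have h5 : ((e x : ℕ) : ℝ) + 1 ≤ k := by exact_mod_cast h4
        have h6 : (0 : ℝ) ≤ ((e x : ℕ) : ℝ) := Nat.cast_nonneg _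
        simp only [hA]
        push_cast
        rw [abs_le]
        constructor <;> nlinarith
      have f7 := f5.add f1
      rw [zero_add] at f7
      refine f7.congr fun n => ?_
      ring
    have t3 := t1.add t2
    rw [zero_add] at t3
    exact t3

/-- the limit slopes for a fixed constant -/
theorem limit_slopes (T : ℕ) (hT : 1 ≤ T) : ∃ C : ℕ, ∀ c : ℤ, c ≠ 0 → (∀ l : ℕ, l.Prime → (l : ℤ) ∣ c → T < l) →
    ∀ ξ : Fin T → ℝ, (∀ i, 0 < ξ i) → ∃ S : Finset (Fin T), 5 * T ≤ 18 * S.card ∧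
      ∀ i ∈ S, ∀ j ∈ S, i < j → LimSlope C c (ξ j / ξ i) := by
  classical
  obtain ⟨M, hM⟩ : ∃ M : ℕ, M = (5 * T + 17) / 18 - 1 := ⟨_, rfl⟩
  have hM1 : 18 * M < 5 * T := by omega
  have hM2 : 5 * T ≤ 18 * (M + 1) := by omega
  obtain ⟨K, C, hK, H⟩ := core T M hT (by
    have h1 : (18 : ℝ) * M < 5 * T := by exact_mod_cast hM1
    linarith)
  refine ⟨C, ?_⟩
  intro c hc hcT ξ hξ
  obtain ⟨F, B, hF, hcB, HP⟩ := H c hc hcT
  have hFpos : ∀ g i, (0 : ℝ) < F g i := fun g i => by exact_mod_cast (hF g i).1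
  obtain ⟨P, s, hs, hP1, hP2, hP3, hP4⟩ := exists_coprime_near (ι := Fin T × Fin K) B
    (fun x => ξ x.1 / F x.1 x.2) (fun x => div_pos (hξ _) (hFpos _ _))
  -- the approximate slopes
  set y : ℕ → Fin T × Fin K → ℝ := fun n x => F x.1 x.2 * ((P n x : ℝ) / s n) with hy
  have hyt : ∀ x, Tendsto (fun n => y n x) atTop (nhds (ξ x.1)) := by
    intro x
    have h1 := (hP4 x).const_mul (F x.1 x.2 : ℝ)
    have e1 : (F x.1 x.2 : ℝ) * (ξ x.1 / F x.1 x.2) = ξ x.1 := by
      have := (hFpos x.1 x.2).ne'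
      field_simp
    rwa [e1] at h1
  have hyt2 : ∀ z : (Fin T × Fin K) × (Fin T × Fin K), Tendsto (fun n => y n z.2 / y n z.1) atTop
      (nhds (ξ z.2.1 / ξ z.1.1)) := fun z => (hyt z.2).div (hyt z.1) (hξ _).ne'
  -- sets for every `n`
  have hS : ∀ n : ℕ, ∃ S : Finset (Fin T), ∃ σ : Fin T → Fin K, M + 1 ≤ S.card ∧
      ∀ g ∈ S, ∀ h ∈ S, g < h → ∃ a b : ℕ, n ≤ a ∧
        (b : ℝ) / a = y n (h, σ h) / y n (g, σ g) ∧ Good C a b c := by
    intro n
    obtain ⟨S, σ, hS, hG⟩ := HP (fun g i => P n (g, i)) (fun g i => (hP1 n _).2) (fun x y hxy => hP2 n x y hxy)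
      (fun g i l hl hlP => hP3 n (g, i) l hl hlP)
    refine ⟨S, σ, hS, ?_⟩
    intro g hg h hh hgh
    obtain ⟨u, v, hu, hv, -, -, huv, hgood⟩ := hG g hg h hh hgh
    refine ⟨u * P n (g, σ g), v * P n (h, σ h), ?_, ?_, hgood⟩
    · calc n ≤ P n (g, σ g) := (hP1 n _).1
        _ ≤ u * P n (g, σ g) := Nat.le_mul_of_pos_left _ hu
    · simp only [hy]
      have e1 : (u : ℝ) * F h (σ h) = v * F g (σ g) := by exact_mod_cast huv
      have h1 := (hFpos g (σ g)).ne'
      have h2 : (u : ℝ) ≠ 0 := by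
        have : (0 : ℝ) < u := by exact_mod_cast hu
        exact this.ne'
      have h3 : (P n (g, σ g) : ℝ) ≠ 0 := by
        have : (0 : ℝ) < P n (g, σ g) := by exact_mod_cast (hP1 n (g, σ g)).2
        exact this.ne'
      have h4 := (hs n).ne'
      push_cast
      rw [div_eq_div_iff (by positivity) (by positivity)]
      linear_combination (-((P n (h, σ h) : ℝ) * P n (g, σ g) / s n)) * e1
  obtain ⟨S, hSf⟩ : ∃ S : Finset (Fin T), ∃ᶠ n : ℕ in atTop, ∃ σ : Fin T → Fin K, M + 1 ≤ S.card ∧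
      ∀ g ∈ S, ∀ h ∈ S, g < h → ∃ a b : ℕ, n ≤ a ∧
        (b : ℝ) / a = y n (h, σ h) / y n (g, σ g) ∧ Good C a b c := by
    by_contra hcon
    push Not at hcon
    have h1 : ∀ S : Finset (Fin T), ∀ᶠ n : ℕ in atTop, ¬ ∃ σ : Fin T → Fin K, M + 1 ≤ S.card ∧
      ∀ g ∈ S, ∀ h ∈ S, g < h → ∃ a b : ℕ, n ≤ a ∧
        (b : ℝ) / a = y n (h, σ h) / y n (g, σ g) ∧ Good C a b c := by
      intro S
      have := hcon S
      filter_upwards [this] with n hn
      rintro ⟨σ, h1, h2⟩
      obtain ⟨g, hg, h, hh, hgh, h3⟩ := hn σ h1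
      obtain ⟨a, b, h4, h5, h6⟩ := h2 g hg h hh hgh
      exact h3 a b h4 h5 h6
    obtain ⟨n, hn⟩ := (eventually_all.2 h1).exists
    obtain ⟨S, hS'⟩ := hS n
    exact hn S hS'
  have hScard : M + 1 ≤ S.card := by
    obtain ⟨n, σ, h1, -⟩ := hSf.exists
    exact h1
  refine ⟨S, by omega, ?_⟩
  intro i hi j hj hij ε hε N
  have hev : ∀ᶠ n : ℕ in atTop, ∀ z : (Fin T × Fin K) × (Fin T × Fin K),
      |y n z.2 / y n z.1 - ξ z.2.1 / ξ z.1.1| < ε := by
    rw [eventually_all]
    intro z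
    have h1 := (Metric.tendsto_nhds.1 (hyt2 z)) ε hε
    filter_upwards [h1] with n hn
    rwa [Real.dist_eq] at hn
  obtain ⟨n, ⟨σ, -, hn⟩, hn2, hnN⟩ := (hSf.and_eventually (hev.and (eventually_ge_atTop N))).exists
  obtain ⟨a, b, h1, h2, h3⟩ := hn i hi j hj hij
  refine ⟨a, b, hnN.trans h1, ?_, h3⟩
  rw [h2]
  exact hn2 ((i, σ i), (j, σ j))

end Pool.Agent.H579
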