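import Pool.Agent.H579.Limit

set_option autoImplicit false

/-! The limit points of the slopes cover a third of the positive reals, measured logarithmically. -/

namespace Pool.Agent.H579

open Finset Filter Pool.Agent.V11150.RatC MeasureTheory

/-- three dilates of the set of the limit slopes cover the positive reals -/
theorem three_dilates (Λ : ℝ → Prop) (h4 : ∀ ξ : Fin 4 → ℝ, (∀ i, 0 < ξ i) → ∃ i j : Fin 4, i < j ∧ Λ (ξ j / ξ i)) :
    ∃ m : ℕ, m ≤ 3 ∧ ∃ x : Fin m → ℝ, (∀ i, 0 < x i) ∧ ∀ ξ : ℝ, 0 < ξ → ∃ i, Λ (ξ / x i) := by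
  classical
  have hex : ∃ n : ℕ, ∀ ξ : Fin n → ℝ, (∀ i, 0 < ξ i) → ∃ i j : Fin n, i < j ∧ Λ (ξ j / ξ i) := ⟨4, h4⟩
  have hle : Nat.find hex ≤ 4 := Nat.find_min' hex h4
  have hpos : 0 < Nat.find hex := by
    by_contra h0
    have h1 : Nat.find hex = 0 := by omega
    have h2 := Nat.find_spec hex
    rw [h1] at h2
    obtain ⟨i, -⟩ := h2 (fun i => i.elim0) (fun i => i.elim0)
    exact i.elim0
  obtain ⟨m, hm⟩ : ∃ m, Nat.find hex = m + 1 := ⟨Nat.find hex - 1, by omega⟩
  have hmn := Nat.find_min hex (show m < Nat.find hex by omega)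
  have hsp := Nat.find_spec hex
  rw [hm] at hsp
  push Not at hmn
  obtain ⟨x, hx, hx2⟩ := hmn
  refine ⟨m, by omega, x, hx, ?_⟩
  intro ξ hξ
  obtain ⟨i, j, hij, hL⟩ := hsp (Fin.snoc x ξ) (by
    intro i
    refine Fin.lastCases ?_ (fun i => ?_) i
    · rw [Fin.snoc_last]; exact hξ
    · rw [Fin.snoc_castSucc]; exact hx i)
  induction j using Fin.lastCases with
  | last =>
    induction i using Fin.lastCases with
    | last => exact absurd hij (lt_irrefl _)
    | cast i =>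
      rw [Fin.snoc_last, Fin.snoc_castSucc] at hL
      exact ⟨i, hL⟩
  | cast j =>
    induction i using Fin.lastCases with
    | last =>
      exfalso
      have h1 := Fin.castSucc_lt_last j
      exact absurd (h1.trans hij) (lt_irrefl _)
    | cast i =>
      rw [Fin.snoc_castSucc, Fin.snoc_castSucc] at hL
      exact absurd hL (hx2 i j (Fin.castSucc_lt_castSucc_iff.1 hij))

theorem log_measure (Λ : ℝ → Prop) (h4 : ∀ ξ : Fin 4 → ℝ, (∀ i, 0 < ξ i) → ∃ i j : Fin 4, i < j ∧ Λ (ξ j / ξ i)) :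
    ∃ R : ℝ, ∀ u T : ℝ, ENNReal.ofReal ((T - R) / 3) ≤ volume {x : ℝ | u ≤ x ∧ x ≤ u + T ∧ Λ (Real.exp x)} := by
  obtain ⟨m, hm, x, hx, hcov⟩ := three_dilates Λ h4
  set D : ℝ := ∑ i, |Real.log (x i)| with hD
  refine ⟨2 * D, ?_⟩
  intro u T
  set A : Set ℝ := {y : ℝ | u ≤ y ∧ y ≤ u + T ∧ Λ (Real.exp y)} with hA
  have hDi : ∀ i, |Real.log (x i)| ≤ D := fun i =>
    Finset.single_le_sum (f := fun i => |Real.log (x i)|) (fun i _ => abs_nonneg _) (mem_univ i)
  have hsub : Set.Icc (u + D) (u + T - D) ⊆ ⋃ i : Fin m, (fun y : ℝ => -Real.log (x i) + y) ⁻¹' A := by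
    intro y hy
    obtain ⟨i, hi⟩ := hcov (Real.exp y) (Real.exp_pos y)
    rw [Set.mem_iUnion]
    refine ⟨i, ?_⟩
    have h1 := abs_le.1 (hDi i)
    have h2 := hy.1
    have h3 := hy.2
    refine ⟨by linarith [h1.1, h1.2], by linarith [h1.1, h1.2], ?_⟩
    have h4 : Real.exp (-Real.log (x i) + y) = Real.exp y / x i := by
      rw [Real.exp_add, Real.exp_neg, Real.exp_log (hx i)]
      ring
    rw [h4]
    exact hi
  have h1 : volume (Set.Icc (u + D) (u + T - D)) ≤ 3 * volume A := by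
    calc volume (Set.Icc (u + D) (u + T - D)) ≤ volume (⋃ i : Fin m, (fun y : ℝ => -Real.log (x i) + y) ⁻¹' A) :=
          measure_mono hsub
      _ ≤ ∑ i : Fin m, volume ((fun y : ℝ => -Real.log (x i) + y) ⁻¹' A) := by
          rw [← tsum_fintype (L := .unconditional _)]
          exact measure_iUnion_le _
      _ = ∑ _i : Fin m, volume A := Finset.sum_congr rfl fun i _ => measure_preimage_add volume _ _
      _ = m * volume A := by rw [Finset.sum_const, Finset.card_univ, Fintype.card_fin, nsmul_eq_mul]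
      _ ≤ 3 * volume A := by
          gcongr
          exact_mod_cast hm
  rw [Real.volume_Icc] at h1
  have h2 : ENNReal.ofReal ((T - 2 * D) / 3) = ENNReal.ofReal (u + T - D - (u + D)) / 3 := by
    have e : (T - 2 * D) / 3 = (u + T - D - (u + D)) / 3 := by ring
    rw [e, ENNReal.ofReal_div_of_pos (by norm_num)]
    norm_num
  rw [h2]
  apply ENNReal.div_le_of_le_mul
  rw [mul_comm]
  exact h1

theorem limit_measure : ∃ C : ℕ, ∀ c : ℤ, IsCoprime c 6 → ∃ R : ℝ, ∀ u T : ℝ,
    ENNReal.ofReal ((T - R) / 3) ≤ volume {x : ℝ | u ≤ x ∧ x ≤ u + T ∧ LimSlope C c (Real.exp x)} := by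
  obtain ⟨C, H⟩ := limit_slopes 4 (by norm_num)
  refine ⟨C, ?_⟩
  intro c hc
  have hc0 : c ≠ 0 := by
    intro h
    rw [h] at hc
    have := (isCoprime_zero_left.1 hc)
    rw [Int.isUnit_iff] at this
    omega
  apply log_measure
  intro ξ hξ
  obtain ⟨S, hS, hG⟩ := H c hc0 (by
    intro l hl hlc
    by_contra hle
    have hlt : l ≤ 4 := by omega
    have h23 : l = 2 ∨ l = 3 := by
      have := hl.two_le
      interval_cases l
      · exact Or.inl rfl
      · exact Or.inr rfl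
      · exact absurd hl (by norm_num)
    have h6 : (l : ℤ) ∣ 6 := by
      rcases h23 with h | h
      · rw [h]; norm_num
      · rw [h]; norm_num
    exact (Nat.prime_iff_prime_int.1 hl).not_isUnit (hc.isUnit_of_dvd' hlc h6)) ξ hξ
  obtain ⟨i, hi, j, hj, hij⟩ := Finset.one_lt_card.1 (by omega : 1 < S.card)
  rcases lt_or_gt_of_ne hij with h | h
  · exact ⟨i, j, h, hG i hi j hj h⟩
  · exact ⟨j, i, h, hG j hj i hi h⟩

end Pool.Agent.H579
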