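import Pool.Agent.H579.Hit
import Pool.Agent.H579.Abs2

set_option autoImplicit false

/-! Estimates for random coefficients. -/

namespace Pool.Agent.H579

open Finset Filter Pool.Agent.V11150.RatC

/-- union bound over one and over two coordinates -/
theorem union_bound' {κ α : Type} [Fintype κ] [Fintype α] [DecidableEq κ] (w : α → ℝ) (hw : ∀ a, 0 ≤ w a)
    (h1 : ∑ a, w a = 1) (N : (κ → α) → Prop) (G : α → ℝ) (F : κ → κ → α → α → ℝ)
    (h : ∀ A : κ → α, ind (¬ N A) ≤ ∑ x, G (A x) + ∑ z : κ × κ, (if z.1 = z.2 then 0 else F z.1 z.2 (A z.1) (A z.2)))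
    (γ φ : ℝ) (hγ : ∑ a, w a * G a ≤ γ) (hφ : ∀ x y, x ≠ y → ∑ a, ∑ b, w a * w b * F x y a b ≤ φ) (hφ0 : 0 ≤ φ) :
    ∑ A : κ → α, ind (¬ N A) * ∏ x, w (A x) ≤ Fintype.card κ * γ + Fintype.card κ ^ 2 * φ := by
  have s1 : ∑ A : κ → α, ind (¬ N A) * ∏ x, w (A x) ≤
      ∑ A : κ → α, (∏ k, w (A k)) *
        (∑ x, G (A x) + ∑ z : κ × κ, (if z.1 = z.2 then 0 else F z.1 z.2 (A z.1) (A z.2))) := by
    apply Finset.sum_le_sum
    intro A _
    rw [mul_comm]
    have h2 := h A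
    exact mul_le_mul_of_nonneg_left h2 (Finset.prod_nonneg fun k _ => hw _)
  refine s1.trans ?_
  have e1 : ∑ A : κ → α, (∏ k, w (A k)) *
        (∑ x, G (A x) + ∑ z : κ × κ, (if z.1 = z.2 then 0 else F z.1 z.2 (A z.1) (A z.2))) =
      ∑ x, ∑ A : κ → α, (∏ k, w (A k)) * G (A x) +
        ∑ z : κ × κ, ∑ A : κ → α, (∏ k, w (A k)) * (if z.1 = z.2 then 0 else F z.1 z.2 (A z.1) (A z.2)) := by
    rw [Finset.sum_comm, Finset.sum_comm (s := (univ : Finset (κ × κ))), ← Finset.sum_add_distrib]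
    apply Finset.sum_congr rfl
    intro A _
    rw [mul_add, Finset.mul_sum, Finset.mul_sum]
  rw [e1]
  apply add_le_add
  · calc ∑ x, ∑ A : κ → α, (∏ k, w (A k)) * G (A x) ≤ ∑ _x : κ, γ := by
          apply Finset.sum_le_sum
          intro x _
          rw [marg1 w h1 x G]
          exact hγ
      _ = Fintype.card κ * γ := by rw [Finset.sum_const, Finset.card_univ, nsmul_eq_mul]
  · calc ∑ z : κ × κ, ∑ A : κ → α, (∏ k, w (A k)) * (if z.1 = z.2 then 0 else F z.1 z.2 (A z.1) (A z.2)) ≤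
        ∑ _z : κ × κ, φ := by
          apply Finset.sum_le_sum
          rintro ⟨x, y⟩ _
          by_cases hxy : x = y
          · simp only [hxy, if_true, mul_zero, Finset.sum_const_zero]
            exact hφ0
          · simp only [hxy, if_false]
            rw [marg2 w h1 x y hxy (F x y)]
            exact hφ x y hxy
      _ = Fintype.card κ ^ 2 * φ := by
          rw [Finset.sum_const, Finset.card_univ, nsmul_eq_mul, Fintype.card_prod]
          push_cast
          ring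

/-- tails of convergent series -/
theorem tail_le (p : ℝ) (hp : 1 < p) (τ : ℝ) (hτ : 0 < τ) : ∃ z₀ : ℕ, ∀ F : Finset ℕ, (∀ n ∈ F, z₀ < n) →
    ∑ n ∈ F, (n : ℝ) ^ (-p) ≤ τ := by
  have hs : Summable (fun n : ℕ => (n : ℝ) ^ (-p)) := Real.summable_nat_rpow.2 (by linarith)
  obtain ⟨s, hs'⟩ := summable_iff_vanishing_norm.1 hs τ hτ
  refine ⟨s.sup id, ?_⟩
  intro F hF
  have hd : Disjoint F s := by
    rw [Finset.disjoint_left]
    intro n hn hns
    have h1 := hF n hn
    have h2 : n ≤ s.sup id := Finset.le_sup (f := id) hns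
    omega
  exact (le_abs_self _).trans (hs' F hd).le

/-- few elements of an interval in a residue class -/
theorem count_class (l : ℕ) (hl : l.Prime) (q : ℤ) (hq : ¬ (l : ℤ) ∣ q) (t : ℤ) (U : ℕ) (hlU : l ≤ U) :
    ∑ u : Fin U, ind ((l : ℤ) ∣ q * ((u : ℕ) : ℤ) + t) ≤ 2 * U / l := by
  classical
  have hl0 : 0 < l := hl.pos
  have h1 : ∑ u : Fin U, ind ((l : ℤ) ∣ q * ((u : ℕ) : ℤ) + t) =
      (((univ : Finset (Fin U)).filter (fun u : Fin U => (l : ℤ) ∣ q * ((u : ℕ) : ℤ) + t)).card : ℝ) := by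
    rw [Finset.card_filter]
    push_cast
    apply Finset.sum_congr rfl
    intro u _
    by_cases h : (l : ℤ) ∣ q * ((u : ℕ) : ℤ) + t
    · rw [ind_pos h, if_pos h]
    · rw [ind_neg h, if_neg h]
  rw [h1]
  have h2 : ((univ : Finset (Fin U)).filter (fun u : Fin U => (l : ℤ) ∣ q * ((u : ℕ) : ℤ) + t)).card ≤
      (range (U / l + 1)).card := by
    apply Finset.card_le_card_of_injOn (fun u : Fin U => (u : ℕ) / l)
    · intro u _
      rw [mem_coe, mem_range]
      exact Nat.lt_succ_of_le (Nat.div_le_div_right (c := l) u.2.le)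
    · intro u hu v hv huv
      have hu' := (mem_filter.1 (mem_coe.1 hu)).2
      have hv' := (mem_filter.1 (mem_coe.1 hv)).2
      have h3 := dvd_sub hu' hv'
      have e : q * ((u : ℕ) : ℤ) + t - (q * ((v : ℕ) : ℤ) + t) = q * (((u : ℕ) : ℤ) - ((v : ℕ) : ℤ)) := by ring
      rw [e] at h3
      rcases (Nat.prime_iff_prime_int.1 hl).dvd_or_dvd h3 with h4 | h4
      · exact absurd h4 hq
      · have h5 : (v : ℕ) ≡ (u : ℕ) [MOD l] := by
          apply (Int.natCast_modEq_iff).1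
          exact Int.modEq_iff_dvd.2 h4
        have h6 : (v : ℕ) % l = (u : ℕ) % l := h5
        have h7 : (u : ℕ) / l = (v : ℕ) / l := huv
        apply Fin.ext
        rw [← Nat.div_add_mod (u : ℕ) l, ← Nat.div_add_mod (v : ℕ) l, h6, h7]
  rw [card_range] at h2
  have h3 : (((univ : Finset (Fin U)).filter (fun u : Fin U => (l : ℤ) ∣ q * ((u : ℕ) : ℤ) + t)).card : ℝ) ≤
      ((U / l : ℕ) : ℝ) + 1 := by exact_mod_cast h2
  have h4 : ((U / l : ℕ) : ℝ) ≤ (U : ℝ) / l := Nat.cast_div_le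
  have h5 : (1 : ℝ) ≤ (U : ℝ) / l := by
    have : (0 : ℝ) < l := by exact_mod_cast hl0
    rw [le_div_iff₀ this, one_mul]
    exact_mod_cast hlU
  have h6 : (2 : ℝ) * U / l = U / l + U / l := by ring
  rw [h6]
  linarith

/-- a small number has at most one large prime factor -/
theorem one_large {D : ℤ} (hD : D ≠ 0) {U : ℕ} (hDU : D.natAbs < U * U) {l l' : ℕ} (hl : l.Prime) (hl' : l'.Prime)
    (hU : U < l) (hU' : U < l') (h : (l : ℤ) ∣ D) (h' : (l' : ℤ) ∣ D) : l = l' := by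
  by_contra hne
  have h1 : l ∣ D.natAbs := Int.natCast_dvd.1 h
  have h2 : l' ∣ D.natAbs := Int.natCast_dvd.1 h'
  have h3 : l * l' ∣ D.natAbs := ((Nat.coprime_primes hl hl').2 hne).mul_dvd_of_dvd_of_dvd h1 h2
  have h4 := Nat.le_of_dvd (Int.natAbs_pos.2 hD) h3
  have h5 : U * U < l * l' := Nat.mul_lt_mul'' hU hU'
  omega

end Pool.Agent.H579
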