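import Pool.Agent.H579.Spread

set_option autoImplicit false

/-! Estimates for random coefficients, continued. -/

namespace Pool.Agent.H579

open Finset Filter Pool.Agent.V11150.RatC

theorem ind_and (P Q : Prop) : ind (P ∧ Q) = ind P * ind Q := by
  by_cases hP : P
  · by_cases hQ : Q
    · rw [ind_pos hP, ind_pos hQ, ind_pos ⟨hP, hQ⟩, one_mul]
    · rw [ind_neg hQ, mul_zero, ind_neg (fun h => hQ h.2)]
  · rw [ind_neg hP, zero_mul, ind_neg (fun h => hP h.1)]

/-- the indicator of an existential statement over a finite set -/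
theorem ind_exists_le {β : Type} (S : Finset β) (P : β → Prop) (Q : Prop) (h : Q → ∃ b ∈ S, P b) :
    ind Q ≤ ∑ b ∈ S, ind (P b) := by
  by_cases hQ : Q
  · obtain ⟨b, hb, hP⟩ := h hQ
    rw [ind_pos hQ, ← ind_pos hP]
    exact Finset.single_le_sum (f := fun b => ind (P b)) (fun b _ => ind_nonneg _) hb
  · rw [ind_neg hQ]
    exact Finset.sum_nonneg fun b _ => ind_nonneg _

/-- a spread probability measure on positive integers -/
structure Spr {α : Type} [Fintype α] (w : α → ℝ) (f : α → ℕ) (C₀ θ : ℝ) : Prop where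
  nn : ∀ a, 0 ≤ w a
  one : ∑ a, w a = 1
  pos : ∀ a, 1 ≤ f a
  spr : ∀ d : ℕ, 1 ≤ d → ∑ a, w a * ind (d ∣ f a) ≤ C₀ * (d : ℝ) ^ (-θ)

theorem Spr.one_le {α : Type} [Fintype α] {w : α → ℝ} {f : α → ℕ} {C₀ θ : ℝ} (h : Spr w f C₀ θ) : 1 ≤ C₀ := by
  have h1 := h.spr 1 le_rfl
  have h2 : ∀ a, w a * ind (1 ∣ f a) = w a := fun a => by rw [ind_pos (one_dvd _), mul_one]
  simp only [h2, h.one, Nat.cast_one, Real.one_rpow, mul_one] at h1
  exact h1

/-- high powers of small primes -/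
theorem Spr.powers {α : Type} [Fintype α] {w : α → ℝ} {f : α → ℕ} {C₀ θ : ℝ} (h : Spr w f C₀ θ) (hθ : 0 < θ)
    (z E : ℕ) : ∑ a, w a * ind (∃ l : ℕ, l.Prime ∧ l ≤ z ∧ l ^ (E + 1) ∣ f a) ≤
      (z + 1) * (C₀ * ((2 : ℝ) ^ (E + 1)) ^ (-θ)) := by
  have hC := h.one_le
  calc ∑ a, w a * ind (∃ l : ℕ, l.Prime ∧ l ≤ z ∧ l ^ (E + 1) ∣ f a)
      ≤ ∑ a, w a * ∑ l ∈ (range (z + 1)).filter Nat.Prime, ind (l ^ (E + 1) ∣ f a) := by
        apply Finset.sum_le_sum
        intro a _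
        apply mul_le_mul_of_nonneg_left _ (h.nn a)
        apply ind_exists_le _ (fun l => l ^ (E + 1) ∣ f a)
        rintro ⟨l, hl, hlz, hd⟩
        exact ⟨l, mem_filter.2 ⟨mem_range.2 (by omega), hl⟩, hd⟩
    _ = ∑ l ∈ (range (z + 1)).filter Nat.Prime, ∑ a, w a * ind (l ^ (E + 1) ∣ f a) := by
        simp only [Finset.mul_sum]
        rw [Finset.sum_comm]
    _ ≤ ∑ l ∈ (range (z + 1)).filter Nat.Prime, C₀ * ((2 : ℝ) ^ (E + 1)) ^ (-θ) := by
        apply Finset.sum_le_sum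
        intro l hl
        have hlp := (mem_filter.1 hl).2
        refine (h.spr (l ^ (E + 1)) (Nat.one_le_pow _ _ hlp.pos)).trans ?_
        apply mul_le_mul_of_nonneg_left _ (by linarith)
        push_cast
        apply Real.rpow_le_rpow_of_nonpos (by positivity) _ (by linarith)
        apply pow_le_pow_left₀ (by norm_num)
        exact_mod_cast hlp.two_le
    _ ≤ (z + 1) * (C₀ * ((2 : ℝ) ^ (E + 1)) ^ (-θ)) := by
        rw [Finset.sum_const, nsmul_eq_mul]
        apply mul_le_mul_of_nonneg_right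
        · have h1 : ((range (z + 1)).filter Nat.Prime).card ≤ z + 1 := by
            refine (card_filter_le _ _).trans ?_
            rw [card_range]
          exact_mod_cast h1
        · have : 0 ≤ ((2 : ℝ) ^ (E + 1)) ^ (-θ) := Real.rpow_nonneg (by positivity) _
          nlinarith

/-- common large primes -/
theorem Spr.common {α : Type} [Fintype α] {w : α → ℝ} {f : α → ℕ} {C₀ θ : ℝ} (h : Spr w f C₀ θ)
    (z : ℕ) (τ : ℝ) (hz : ∀ F : Finset ℕ, (∀ n ∈ F, z < n) → ∑ n ∈ F, (n : ℝ) ^ (-(2 * θ)) ≤ τ) :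
    ∑ a, ∑ b, w a * w b * ind (∃ l : ℕ, l.Prime ∧ z < l ∧ l ∣ f a ∧ l ∣ f b) ≤ C₀ ^ 2 * τ := by
  classical
  have hC := h.one_le
  obtain ⟨M, hM⟩ : ∃ M : ℕ, ∀ a, f a ≤ M := ⟨∑ a, f a, fun a =>
    Finset.single_le_sum (f := f) (fun _ _ => Nat.zero_le _) (mem_univ a)⟩
  set S : Finset ℕ := (Ioc z M).filter Nat.Prime with hS
  calc ∑ a, ∑ b, w a * w b * ind (∃ l : ℕ, l.Prime ∧ z < l ∧ l ∣ f a ∧ l ∣ f b)
      ≤ ∑ a, ∑ b, w a * w b * ∑ l ∈ S, ind (l ∣ f a ∧ l ∣ f b) := by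
        apply Finset.sum_le_sum
        intro a _
        apply Finset.sum_le_sum
        intro b _
        apply mul_le_mul_of_nonneg_left _ (mul_nonneg (h.nn a) (h.nn b))
        apply ind_exists_le _ (fun l => l ∣ f a ∧ l ∣ f b)
        rintro ⟨l, hl, hlz, hd1, hd2⟩
        refine ⟨l, ?_, hd1, hd2⟩
        rw [hS, mem_filter, mem_Ioc]
        exact ⟨⟨hlz, (Nat.le_of_dvd (h.pos a) hd1).trans (hM a)⟩, hl⟩
    _ = ∑ l ∈ S, (∑ a, w a * ind (l ∣ f a)) * (∑ b, w b * ind (l ∣ f b)) := by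
        have e1 : ∀ l, (∑ a, w a * ind (l ∣ f a)) * (∑ b, w b * ind (l ∣ f b)) =
            ∑ a, ∑ b, w a * w b * ind (l ∣ f a ∧ l ∣ f b) := by
          intro l
          rw [Finset.sum_mul_sum]
          apply Finset.sum_congr rfl
          intro a _
          apply Finset.sum_congr rfl
          intro b _
          rw [ind_and]
          ring
        simp only [e1, Finset.mul_sum]
        rw [Finset.sum_comm]
        have e2 : ∀ b, ∑ a, ∑ l ∈ S, w a * w b * ind (l ∣ f a ∧ l ∣ f b) =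
            ∑ l ∈ S, ∑ a, w a * w b * ind (l ∣ f a ∧ l ∣ f b) := fun b => Finset.sum_comm
        rw [Finset.sum_congr rfl (fun b _ => e2 b), Finset.sum_comm]
        apply Finset.sum_congr rfl
        intro l _
        rw [Finset.sum_comm]
    _ ≤ ∑ l ∈ S, C₀ ^ 2 * (l : ℝ) ^ (-(2 * θ)) := by
        apply Finset.sum_le_sum
        intro l hl
        have hl0 : 1 ≤ l := by
          have := mem_Ioc.1 (mem_filter.1 hl).1
          omega
        have hlr : (0 : ℝ) < l := by exact_mod_cast hl0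
        have h1 := h.spr l hl0
        have h2 : 0 ≤ ∑ a, w a * ind (l ∣ f a) := Finset.sum_nonneg fun a _ => mul_nonneg (h.nn a) (ind_nonneg _)
        have h3 : (l : ℝ) ^ (-(2 * θ)) = (l : ℝ) ^ (-θ) * (l : ℝ) ^ (-θ) := by
          rw [← Real.rpow_add hlr]; congr 1; ring
        calc (∑ a, w a * ind (l ∣ f a)) * (∑ b, w b * ind (l ∣ f b)) ≤
            (C₀ * (l : ℝ) ^ (-θ)) * (C₀ * (l : ℝ) ^ (-θ)) := mul_le_mul h1 h1 h2 (h2.trans h1)
          _ = C₀ ^ 2 * (l : ℝ) ^ (-(2 * θ)) := by rw [h3]; ring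
    _ = C₀ ^ 2 * ∑ l ∈ S, (l : ℝ) ^ (-(2 * θ)) := by rw [Finset.mul_sum]
    _ ≤ C₀ ^ 2 * τ := by
        apply mul_le_mul_of_nonneg_left _ (by positivity)
        apply hz
        intro n hn
        exact (mem_Ioc.1 (mem_filter.1 hn).1).1

end Pool.Agent.H579
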