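import Pool.Agent.H579.Spread2

set_option autoImplicit false

/-! Estimates for random coefficients and random shifts. -/

namespace Pool.Agent.H579

open Finset Filter Pool.Agent.V11150.RatC

theorem df_abs {W S₀ K U : ℕ} (hW : 0 < W) (hS : 1 ≤ S₀) {x y : Fin 4 × Fin K}
    {u v : ℕ} (hu : u < U) (hv : v < U) {s s' : ℕ} (hsS : s ≤ S₀) (hsS' : s' ≤ S₀) :
    (df W S₀ K U s s' x y u v).natAbs ≤ 10 * S₀ ^ 4 * W * K * U := by
  have h1 := sh_le hW hS x hu hsS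
  have h2 := sh_le hW hS y hv hsS'
  unfold df
  have h3 : (s : ℤ) * sh W S₀ K U x u ≤ ((10 * S₀ ^ 4 * W * K * U : ℕ) : ℤ) := by exact_mod_cast h1
  have h4 : (s' : ℤ) * sh W S₀ K U y v ≤ ((10 * S₀ ^ 4 * W * K * U : ℕ) : ℤ) := by exact_mod_cast h2
  have h5 : (0 : ℤ) ≤ (s : ℤ) * sh W S₀ K U x u := by positivity
  have h6 : (0 : ℤ) ≤ (s' : ℤ) * sh W S₀ K U y v := by positivity
  omega

/-- one prime, all shifts -/
theorem shift_count {W S₀ K U : ℕ} {z : ℕ} (hWz : ∀ l : ℕ, l.Prime → z < l → ¬ l ∣ W) (hK : 1 ≤ K)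
    (hKz : K ≤ z) (x y : Fin 4 × Fin K) {s s' : ℕ} (hs1 : s ∣ W) {l : ℕ} (hl : l.Prime)
    (hlz : z < l) (hlU : l ≤ U) :
    ∑ u : Fin U, ∑ v : Fin U, ind ((l : ℤ) ∣ df W S₀ K U s s' x y u v) ≤ (U : ℝ) ^ 2 * (2 / l) := by
  rw [Finset.sum_comm]
  have hlW := hWz l hl hlz
  have hq : ¬ (l : ℤ) ∣ (s : ℤ) * W * K := by
    intro h
    have h1 : l ∣ s * W * K := by exact_mod_cast h
    rcases (hl.dvd_mul).1 h1 with h2 | h2
    · rcases (hl.dvd_mul).1 h2 with h3 | h3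
      · exact hlW (h3.trans hs1)
      · exact hlW h3
    · have := Nat.le_of_dvd hK h2
      omega
  have h1 : ∀ v : Fin U, ∑ u : Fin U, ind ((l : ℤ) ∣ df W S₀ K U s s' x y u v) ≤ 2 * U / l := by
    intro v
    have h2 := count_class l hl _ hq ((s : ℤ) * (1 + W * (x.2 + off S₀ K U x.1)) - s' * sh W S₀ K U y v) U hlU
    refine le_trans (le_of_eq ?_) h2
    apply Finset.sum_congr rfl
    intro u _
    congr 2
    unfold df sh
    push_cast
    ring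
  calc ∑ v : Fin U, ∑ u : Fin U, ind ((l : ℤ) ∣ df W S₀ K U s s' x y u v) ≤ ∑ _v : Fin U, (2 * U / l : ℝ) :=
        Finset.sum_le_sum fun v _ => h1 v
    _ = (U : ℝ) ^ 2 * (2 / l) := by
        rw [Finset.sum_const, Finset.card_univ, Fintype.card_fin, nsmul_eq_mul]
        ring

/-- large primes -/
theorem Spr.large {α : Type} [Fintype α] {w : α → ℝ} {f : α → ℕ} {C₀ θ : ℝ} (h : Spr w f C₀ θ) (hθ : 0 < θ)
    {U : ℕ} (hU : 1 ≤ U) {D : ℤ} (hD : D ≠ 0) (hDU : D.natAbs < U * U) :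
    ∑ a, w a * ind (∃ l : ℕ, l.Prime ∧ U < l ∧ l ∣ f a ∧ (l : ℤ) ∣ D) ≤ C₀ * (U : ℝ) ^ (-θ) := by
  have hC := h.one_le
  by_cases hex : ∃ l : ℕ, l.Prime ∧ U < l ∧ (l : ℤ) ∣ D
  · obtain ⟨l, hl, hlU, hlD⟩ := hex
    have h1 : ∑ a, w a * ind (∃ l : ℕ, l.Prime ∧ U < l ∧ l ∣ f a ∧ (l : ℤ) ∣ D) ≤ ∑ a, w a * ind (l ∣ f a) := by
      apply Finset.sum_le_sum
      intro a _
      apply mul_le_mul_of_nonneg_left _ (h.nn a)
      apply ind_mono
      rintro ⟨l', hl', hlU', hd, hD'⟩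
      rw [one_large hD hDU hl hl' hlU hlU' hlD hD']
      exact hd
    refine h1.trans ((h.spr l hl.one_le).trans ?_)
    apply mul_le_mul_of_nonneg_left _ (by linarith)
    apply Real.rpow_le_rpow_of_nonpos _ _ (by linarith)
    · exact_mod_cast hU
    · exact_mod_cast hlU.le
  · have h1 : ∀ a, w a * ind (∃ l : ℕ, l.Prime ∧ U < l ∧ l ∣ f a ∧ (l : ℤ) ∣ D) = 0 := by
      intro a
      rw [ind_neg, mul_zero]
      rintro ⟨l, h2, h3, -, h4⟩
      exact hex ⟨l, h2, h3, h4⟩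
    simp only [h1, Finset.sum_const_zero]
    have : 0 ≤ (U : ℝ) ^ (-θ) := Real.rpow_nonneg (Nat.cast_nonneg _) _
    nlinarith

theorem Spr.shifts {α : Type} [Fintype α] {w : α → ℝ} {f : α → ℕ} {C₀ θ : ℝ} (h : Spr w f C₀ θ) (hθ : 0 < θ)
    {W S₀ K U z : ℕ} (hW : 0 < W) (hS : 1 ≤ S₀) (hU : 1 ≤ U) (hUL : 10 * S₀ ^ 4 * W * K < U)
    (hWz : ∀ l : ℕ, l.Prime → z < l → ¬ l ∣ W) (hK : 1 ≤ K) (hKz : K ≤ z) (s : α → ℕ) (hs0 : ∀ a, 1 ≤ s a)
    (hsS : ∀ a, s a ≤ S₀) (hsW : ∀ a, s a ∣ W) (x y : Fin 4 × Fin K) (hxy : x ≠ y)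
    (τ : ℝ) (hz : ∀ F : Finset ℕ, (∀ n ∈ F, z < n) → ∑ n ∈ F, (n : ℝ) ^ (-(1 + θ)) ≤ τ) :
    ∑ a, ∑ b, w a * w b * (1 / (U : ℝ) ^ 2 * ∑ u : Fin U, ∑ v : Fin U,
      ind (∃ l : ℕ, l.Prime ∧ z < l ∧ l ∣ f a ∧ (l : ℤ) ∣ df W S₀ K U (s a) (s b) x y u v)) ≤
      2 * C₀ * τ + (S₀ : ℝ) ^ 2 * (C₀ * (U : ℝ) ^ (-θ)) := by
  classical
  have hC := h.one_le
  have hUr : (0 : ℝ) < U := by exact_mod_cast hU
  set S1 : Finset ℕ := (Ioc z U).filter Nat.Prime with hS1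
  set D : Finset ℕ := (W.divisors).filter (fun d => d ≤ S₀) with hD
  have hDc : D.card ≤ S₀ := by
    have h1 : D ⊆ Icc 1 S₀ := by
      intro d hd
      obtain ⟨h2, h3⟩ := mem_filter.1 hd
      rw [mem_Icc]
      exact ⟨Nat.pos_of_mem_divisors h2, h3⟩
    have h2 := card_le_card h1
    rwa [Nat.card_Icc, Nat.add_sub_cancel] at h2
  have hmem : ∀ a, s a ∈ D := fun a => mem_filter.2 ⟨Nat.mem_divisors.2 ⟨hsW a, hW.ne'⟩, hsS a⟩
  -- pointwise
  have hpt : ∀ (a b : α) (u v : Fin U),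
      ind (∃ l : ℕ, l.Prime ∧ z < l ∧ l ∣ f a ∧ (l : ℤ) ∣ df W S₀ K U (s a) (s b) x y u v) ≤
      ∑ l ∈ S1, ind (l ∣ f a) * ind ((l : ℤ) ∣ df W S₀ K U (s a) (s b) x y u v) +
      ∑ d ∈ D, ∑ d' ∈ D, ind (∃ l : ℕ, l.Prime ∧ U < l ∧ l ∣ f a ∧ (l : ℤ) ∣ df W S₀ K U d d' x y u v) := by
    intro a b u v
    have n1 : 0 ≤ ∑ l ∈ S1, ind (l ∣ f a) * ind ((l : ℤ) ∣ df W S₀ K U (s a) (s b) x y u v) :=
      Finset.sum_nonneg fun l _ => mul_nonneg (ind_nonneg _) (ind_nonneg _)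
    have n2 : ∀ d d' : ℕ, 0 ≤ ind (∃ l : ℕ, l.Prime ∧ U < l ∧ l ∣ f a ∧ (l : ℤ) ∣ df W S₀ K U d d' x y u v) :=
      fun d d' => ind_nonneg _
    have n3 : 0 ≤ ∑ d ∈ D, ∑ d' ∈ D, ind (∃ l : ℕ, l.Prime ∧ U < l ∧ l ∣ f a ∧
        (l : ℤ) ∣ df W S₀ K U d d' x y u v) :=
      Finset.sum_nonneg fun d _ => Finset.sum_nonneg fun d' _ => n2 d d'
    by_cases hex : ∃ l : ℕ, l.Prime ∧ z < l ∧ l ∣ f a ∧ (l : ℤ) ∣ df W S₀ K U (s a) (s b) x y u v
    · obtain ⟨l, hl, hlz, hla, hld⟩ := hex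
      rw [ind_pos ⟨l, hl, hlz, hla, hld⟩]
      by_cases hlU : l ≤ U
      · have h1 := Finset.single_le_sum
          (f := fun l : ℕ => ind (l ∣ f a) * ind ((l : ℤ) ∣ df W S₀ K U (s a) (s b) x y u v))
          (fun l _ => mul_nonneg (ind_nonneg _) (ind_nonneg _))
          (mem_filter.2 ⟨mem_Ioc.2 ⟨hlz, hlU⟩, hl⟩ : l ∈ S1)
        simp only [ind_pos hla, ind_pos hld, one_mul] at h1
        linarith
      · have h1 := Finset.single_le_sum
          (f := fun d : ℕ => ∑ d' ∈ D, ind (∃ l : ℕ, l.Prime ∧ U < l ∧ l ∣ f a ∧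
            (l : ℤ) ∣ df W S₀ K U d d' x y u v))
          (fun d _ => Finset.sum_nonneg fun d' _ => n2 d d') (hmem a)
        have h2 := Finset.single_le_sum
          (f := fun d' : ℕ => ind (∃ l : ℕ, l.Prime ∧ U < l ∧ l ∣ f a ∧
            (l : ℤ) ∣ df W S₀ K U (s a) d' x y u v))
          (fun d' _ => n2 _ d') (hmem b)
        rw [ind_pos (P := ∃ l : ℕ, l.Prime ∧ U < l ∧ l ∣ f a ∧ (l : ℤ) ∣ df W S₀ K U (s a) (s b) x y u v)
          ⟨l, hl, by omega, hla, hld⟩] at h2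
        linarith
    · rw [ind_neg hex]
      exact add_nonneg n1 n3
  -- the first part
  have p1 : ∀ a b : α, 1 / (U : ℝ) ^ 2 * ∑ u : Fin U, ∑ v : Fin U,
      ∑ l ∈ S1, ind (l ∣ f a) * ind ((l : ℤ) ∣ df W S₀ K U (s a) (s b) x y u v) ≤
      ∑ l ∈ S1, ind (l ∣ f a) * (2 / l) := by
    intro a b
    have e1 : ∑ u : Fin U, ∑ v : Fin U,
        ∑ l ∈ S1, ind (l ∣ f a) * ind ((l : ℤ) ∣ df W S₀ K U (s a) (s b) x y u v) =
        ∑ l ∈ S1, ind (l ∣ f a) * ∑ u : Fin U, ∑ v : Fin U, ind ((l : ℤ) ∣ df W S₀ K U (s a) (s b) x y u v) := by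
      have e2 : ∀ u : Fin U, ∑ v : Fin U,
          ∑ l ∈ S1, ind (l ∣ f a) * ind ((l : ℤ) ∣ df W S₀ K U (s a) (s b) x y u v) =
          ∑ l ∈ S1, ∑ v : Fin U, ind (l ∣ f a) * ind ((l : ℤ) ∣ df W S₀ K U (s a) (s b) x y u v) :=
        fun u => Finset.sum_comm
      rw [Finset.sum_congr rfl (fun u _ => e2 u), Finset.sum_comm]
      apply Finset.sum_congr rfl
      intro l _
      simp only [Finset.mul_sum]
    rw [e1, Finset.mul_sum]
    apply Finset.sum_le_sum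
    intro l hl
    obtain ⟨h1, h2⟩ := mem_filter.1 hl
    obtain ⟨h3, h4⟩ := mem_Ioc.1 h1
    have h5 := shift_count (S₀ := S₀) hWz hK hKz x y (s' := s b) (hsW a) h2 h3 h4
    calc 1 / (U : ℝ) ^ 2 * (ind (l ∣ f a) * ∑ u : Fin U, ∑ v : Fin U,
          ind ((l : ℤ) ∣ df W S₀ K U (s a) (s b) x y u v)) ≤
          1 / (U : ℝ) ^ 2 * (ind (l ∣ f a) * ((U : ℝ) ^ 2 * (2 / l))) := by
          apply mul_le_mul_of_nonneg_left _ (by positivity)
          exact mul_le_mul_of_nonneg_left h5 (ind_nonneg _)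
      _ = ind (l ∣ f a) * (2 / l) := by field_simp
  have P1 : ∑ a, ∑ b, w a * w b * (1 / (U : ℝ) ^ 2 * ∑ u : Fin U, ∑ v : Fin U,
      ∑ l ∈ S1, ind (l ∣ f a) * ind ((l : ℤ) ∣ df W S₀ K U (s a) (s b) x y u v)) ≤ 2 * C₀ * τ := by
    calc ∑ a, ∑ b, w a * w b * (1 / (U : ℝ) ^ 2 * ∑ u : Fin U, ∑ v : Fin U,
        ∑ l ∈ S1, ind (l ∣ f a) * ind ((l : ℤ) ∣ df W S₀ K U (s a) (s b) x y u v)) ≤
        ∑ a, ∑ b, w a * w b * ∑ l ∈ S1, ind (l ∣ f a) * (2 / l) := by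
          apply Finset.sum_le_sum
          intro a _
          apply Finset.sum_le_sum
          intro b _
          exact mul_le_mul_of_nonneg_left (p1 a b) (mul_nonneg (h.nn a) (h.nn b))
      _ = ∑ a, w a * ∑ l ∈ S1, ind (l ∣ f a) * (2 / l) := by
          apply Finset.sum_congr rfl
          intro a _
          rw [← Finset.sum_mul, ← Finset.mul_sum, h.one, mul_one]
      _ = ∑ l ∈ S1, (2 / l) * ∑ a, w a * ind (l ∣ f a) := by
          simp only [Finset.mul_sum]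
          rw [Finset.sum_comm]
          apply Finset.sum_congr rfl
          intro l _
          apply Finset.sum_congr rfl
          intro a _
          ring
      _ ≤ ∑ l ∈ S1, 2 * C₀ * (l : ℝ) ^ (-(1 + θ)) := by
          apply Finset.sum_le_sum
          intro l hl
          have hlp := (mem_filter.1 hl).2
          have hlr : (0 : ℝ) < l := by exact_mod_cast hlp.pos
          have h1 := h.spr l hlp.one_le
          have h3 : (l : ℝ) ^ (-(1 + θ)) = (l : ℝ)⁻¹ * (l : ℝ) ^ (-θ) := by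
            rw [← Real.rpow_neg_one, ← Real.rpow_add hlr]; congr 1; ring
          rw [h3]
          calc (2 / (l : ℝ)) * ∑ a, w a * ind (l ∣ f a) ≤ (2 / (l : ℝ)) * (C₀ * (l : ℝ) ^ (-θ)) :=
                mul_le_mul_of_nonneg_left h1 (by positivity)
            _ = _ := by ring
      _ = 2 * C₀ * ∑ l ∈ S1, (l : ℝ) ^ (-(1 + θ)) := by rw [Finset.mul_sum]
      _ ≤ 2 * C₀ * τ := by
          apply mul_le_mul_of_nonneg_left _ (by linarith)
          apply hz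
          intro n hn
          exact (mem_Ioc.1 (mem_filter.1 hn).1).1
  -- the second part
  have P2 : ∑ a, ∑ b, w a * w b * (1 / (U : ℝ) ^ 2 * ∑ u : Fin U, ∑ v : Fin U,
      ∑ d ∈ D, ∑ d' ∈ D, ind (∃ l : ℕ, l.Prime ∧ U < l ∧ l ∣ f a ∧ (l : ℤ) ∣ df W S₀ K U d d' x y u v)) ≤
      (S₀ : ℝ) ^ 2 * (C₀ * (U : ℝ) ^ (-θ)) := by
    set q : ℕ → ℕ → Fin U → Fin U → α → ℝ := fun d d' u v a =>
      ind (∃ l : ℕ, l.Prime ∧ U < l ∧ l ∣ f a ∧ (l : ℤ) ∣ df W S₀ K U d d' x y u v) with hq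
    have hqle : ∀ d ∈ D, ∀ d' ∈ D, ∀ u v : Fin U, ∑ a, w a * q d d' u v a ≤ C₀ * (U : ℝ) ^ (-θ) := by
      intro d hd d' hd' u v
      obtain ⟨h1, h2⟩ := mem_filter.1 hd
      obtain ⟨h1', h2'⟩ := mem_filter.1 hd'
      apply h.large hθ hU
      · intro h0
        unfold df at h0
        have h3 := sh_ne hW hS hK hxy u.2 v.2 (Nat.pos_of_mem_divisors h1) (Nat.dvd_of_mem_divisors h1)
          (Nat.pos_of_mem_divisors h1') (Nat.dvd_of_mem_divisors h1') h2 h2'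
        apply h3
        have : (d : ℤ) * sh W S₀ K U x u = d' * sh W S₀ K U y v := by linarith
        exact_mod_cast this
      · refine lt_of_le_of_lt (df_abs hW hS u.2 v.2 h2 h2') ?_
        exact Nat.mul_lt_mul_of_pos_right hUL hU
    calc ∑ a, ∑ b, w a * w b * (1 / (U : ℝ) ^ 2 * ∑ u : Fin U, ∑ v : Fin U, ∑ d ∈ D, ∑ d' ∈ D, q d d' u v a) =
        ∑ a, w a * (1 / (U : ℝ) ^ 2 * ∑ u : Fin U, ∑ v : Fin U, ∑ d ∈ D, ∑ d' ∈ D, q d d' u v a) := by
          apply Finset.sum_congr rfl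
          intro a _
          rw [← Finset.sum_mul, ← Finset.mul_sum, h.one, mul_one]
      _ = 1 / (U : ℝ) ^ 2 * ∑ u : Fin U, ∑ v : Fin U, ∑ d ∈ D, ∑ d' ∈ D, ∑ a, w a * q d d' u v a := by
          simp only [Finset.mul_sum]
          rw [Finset.sum_comm]
          apply Finset.sum_congr rfl
          intro u _
          rw [Finset.sum_comm]
          apply Finset.sum_congr rfl
          intro v _
          rw [Finset.sum_comm]
          apply Finset.sum_congr rfl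
          intro d _
          rw [Finset.sum_comm]
          apply Finset.sum_congr rfl
          intro d' _
          apply Finset.sum_congr rfl
          intro a _
          ring
      _ ≤ 1 / (U : ℝ) ^ 2 * ∑ _u : Fin U, ∑ _v : Fin U, ∑ _d ∈ D, ∑ _d' ∈ D, C₀ * (U : ℝ) ^ (-θ) := by
          apply mul_le_mul_of_nonneg_left _ (by positivity)
          apply Finset.sum_le_sum
          intro u _
          apply Finset.sum_le_sum
          intro v _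
          apply Finset.sum_le_sum
          intro d hd
          apply Finset.sum_le_sum
          intro d' hd'
          exact hqle d hd d' hd' u v
      _ = (D.card : ℝ) ^ 2 * (C₀ * (U : ℝ) ^ (-θ)) := by
          simp only [Finset.sum_const, nsmul_eq_mul, Finset.card_univ, Fintype.card_fin]
          field_simp
      _ ≤ (S₀ : ℝ) ^ 2 * (C₀ * (U : ℝ) ^ (-θ)) := by
          apply mul_le_mul_of_nonneg_right
          · apply pow_le_pow_left₀ (Nat.cast_nonneg _)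
            exact_mod_cast hDc
          · have : 0 ≤ (U : ℝ) ^ (-θ) := Real.rpow_nonneg hUr.le _
            nlinarith
  -- together
  refine le_trans ?_ (add_le_add P1 P2)
  rw [← Finset.sum_add_distrib]
  apply Finset.sum_le_sum
  intro a _
  rw [← Finset.sum_add_distrib]
  apply Finset.sum_le_sum
  intro b _
  rw [← mul_add]
  apply mul_le_mul_of_nonneg_left _ (mul_nonneg (h.nn a) (h.nn b))
  rw [← mul_add]
  apply mul_le_mul_of_nonneg_left _ (by positivity)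
  rw [← Finset.sum_add_distrib]
  apply Finset.sum_le_sum
  intro u _
  rw [← Finset.sum_add_distrib]
  apply Finset.sum_le_sum
  intro v _
  exact hpt a b u v

end Pool.Agent.H579
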