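import Mathlib

set_option autoImplicit false

/-! An oriented, weighted form of Turan's theorem for families in which every nice blown up quadruple
contains a related pair. -/

namespace Pool.Agent.H579

open Finset

/-- marginals of a product measure -/
theorem marg {ι κ α : Type} [Fintype ι] [Fintype κ] [Fintype α] [DecidableEq κ] [DecidableEq α] [DecidableEq ι]
    (w : α → ℝ) (h1 : ∑ a, w a = 1) (τ : ι → κ) (hτ : Function.Injective τ) (F : (ι → α) → ℝ) :
    ∑ x : κ → α, (∏ k, w (x k)) * F (fun j => x (τ j)) = ∑ y : ι → α, (∏ j, w (y j)) * F y := by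
  have e1 : ∀ x : κ → α, (∏ k, w (x k)) * F (fun j => x (τ j)) =
      ∑ y : ι → α, (if (fun j => x (τ j)) = y then (∏ k, w (x k)) else 0) * F y := by
    intro x
    rw [Finset.sum_eq_single (fun j => x (τ j))]
    · rw [if_pos rfl]
    · intro y _ hy
      rw [if_neg (fun h => hy h.symm), zero_mul]
    · intro h
      exact absurd (mem_univ _) h
  rw [Finset.sum_congr rfl (fun x _ => e1 x), Finset.sum_comm]
  apply Finset.sum_congr rfl
  intro y _
  rw [← Finset.sum_mul]
  congr 1
  have e2 : ∀ x : κ → α, (if (fun j => x (τ j)) = y then (∏ k, w (x k)) else 0) =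
      ∏ k, (if ∀ j, τ j = k → x k = y j then w (x k) else 0) := by
    intro x
    by_cases h : (fun j => x (τ j)) = y
    · rw [if_pos h]
      apply Finset.prod_congr rfl
      intro k _
      rw [if_pos]
      intro j hj
      rw [← hj, ← h]
    · rw [if_neg h]
      have h2 : ∃ j, x (τ j) ≠ y j := by
        by_contra hcon
        push Not at hcon
        exact h (funext hcon)
      obtain ⟨j, hj⟩ := h2
      symm
      apply Finset.prod_eq_zero (mem_univ (τ j))
      rw [if_neg]
      intro h3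
      exact hj (h3 j rfl)
  rw [Finset.sum_congr rfl (fun x _ => e2 x)]
  have e3 := Finset.prod_univ_sum (fun _ : κ => (univ : Finset α))
    (fun k a => if ∀ j, τ j = k → a = y j then w a else 0)
  rw [Fintype.piFinset_univ] at e3
  rw [← e3]
  have e4 : ∀ k ∈ (univ : Finset κ), k ∉ univ.image τ →
      ∑ a : α, (if ∀ j, τ j = k → a = y j then w a else 0) = 1 := by
    intro k _ hk
    rw [← h1]
    apply Finset.sum_congr rfl
    intro a _
    rw [if_pos]
    intro j hj
    exact absurd (mem_image.2 ⟨j, mem_univ _, hj⟩) hk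
  rw [← Finset.prod_subset (subset_univ (univ.image τ)) e4, Finset.prod_image (fun a _ b _ h => hτ h)]
  apply Finset.prod_congr rfl
  intro j _
  rw [Finset.sum_eq_single (y j)]
  · rw [if_pos]
    intro j' hj'
    rw [hτ hj']
  · intro a _ ha
    rw [if_neg]
    intro h
    exact ha (h j rfl)
  · intro h
    exact absurd (mem_univ _) h

/-- blowing up a function of `T` variables -/
theorem blow {α : Type} [Fintype α] [DecidableEq α] (w : α → ℝ) (hw : ∀ a, 0 ≤ w a) (h1 : ∑ a, w a = 1) (K : ℕ) :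
    ∀ (T : ℕ) (f : (Fin T → α) → ℝ), (∀ x, 0 ≤ f x) →
      (∑ x : Fin T → α, (∏ g, w (x g)) * f x) ^ (K ^ T) ≤
        ∑ A : Fin T → Fin K → α, (∏ g, ∏ i, w (A g i)) * ∏ c : Fin T → Fin K, f (fun g => A g (c g)) := by
  intro T
  induction T with
  | zero =>
    intro f hf
    simp only [pow_zero, pow_one, Finset.univ_eq_empty, Finset.prod_empty, one_mul]
    rw [Fintype.sum_unique, Fintype.sum_unique, Fintype.prod_unique]
    apply le_of_eq
    congr 1
    funext g
    exact g.elim0
  | succ T ih =>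
    intro f hf
    have hW1 : ∀ n : ℕ, ∑ y : Fin n → α, ∏ g, w (y g) = 1 := by
      intro n
      have e3 := Finset.prod_univ_sum (fun _ : Fin n => (univ : Finset α)) (fun _ a => w a)
      rw [Fintype.piFinset_univ] at e3
      rw [← e3, Finset.prod_congr rfl (fun _ _ => h1), Finset.prod_const_one]
    -- right side
    have hR : ∑ A : Fin (T + 1) → Fin K → α, (∏ g, ∏ i, w (A g i)) *
          ∏ c : Fin (T + 1) → Fin K, f (fun g => A g (c g)) =
        ∑ A0 : Fin K → α, (∏ i, w (A0 i)) * ∑ A' : Fin T → Fin K → α, (∏ g, ∏ i, w (A' g i)) *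
          ∏ c : Fin T → Fin K, (fun y : Fin T → α => ∏ i, f (Fin.cons (A0 i) y)) (fun g => A' g (c g)) := by
      rw [← (Fin.consEquiv (fun _ : Fin (T + 1) => Fin K → α)).sum_comp, Fintype.sum_prod_type]
      apply Finset.sum_congr rfl
      intro A0 _
      rw [Finset.mul_sum]
      apply Finset.sum_congr rfl
      intro A' _
      simp only [Fin.consEquiv, Equiv.coe_fn_mk]
      rw [Fin.prod_univ_succ]
      simp only [Fin.cons_zero, Fin.cons_succ]
      rw [← mul_assoc]
      congr 1
      rw [← (Fin.consEquiv (fun _ : Fin (T + 1) => Fin K)).prod_comp, Fintype.prod_prod_type, Finset.prod_comm]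
      apply Finset.prod_congr rfl
      intro c _
      apply Finset.prod_congr rfl
      intro i _
      congr 1
      funext g
      refine Fin.cases ?_ (fun g => ?_) g
      · simp [Fin.consEquiv]
      · simp [Fin.consEquiv]
    rw [hR]
    -- the induction hypothesis
    have hf' : ∀ (A0 : Fin K → α) (y : Fin T → α), 0 ≤ ∏ i, f (Fin.cons (A0 i) y) :=
      fun A0 y => Finset.prod_nonneg fun i _ => hf _
    have hWn : ∀ (n : ℕ) (y : Fin n → α), 0 ≤ ∏ g, w (y g) := fun n y => Finset.prod_nonneg fun g _ => hw _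
    set E : (Fin K → α) → ℝ := fun A0 => ∑ y : Fin T → α, (∏ g, w (y g)) * ∏ i, f (Fin.cons (A0 i) y) with hE
    have hEn : ∀ A0, 0 ≤ E A0 := fun A0 => Finset.sum_nonneg fun y _ => mul_nonneg (hWn _ _) (hf' _ _)
    have s1 : ∑ A0 : Fin K → α, (∏ i, w (A0 i)) * E A0 ^ (K ^ T) ≤
        ∑ A0 : Fin K → α, (∏ i, w (A0 i)) * ∑ A' : Fin T → Fin K → α, (∏ g, ∏ i, w (A' g i)) *
          ∏ c : Fin T → Fin K, (fun y : Fin T → α => ∏ i, f (Fin.cons (A0 i) y)) (fun g => A' g (c g)) := by
      apply Finset.sum_le_sum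
      intro A0 _
      apply mul_le_mul_of_nonneg_left _ (hWn _ _)
      exact ih (fun y => ∏ i, f (Fin.cons (A0 i) y)) (hf' A0)
    have s2 : (∑ A0 : Fin K → α, (∏ i, w (A0 i)) * E A0) ^ (K ^ T) ≤
        ∑ A0 : Fin K → α, (∏ i, w (A0 i)) * E A0 ^ (K ^ T) :=
      Real.pow_arith_mean_le_arith_mean_pow univ _ _ (fun A0 _ => hWn _ _) (hW1 K) (fun A0 _ => hEn A0) _
    -- the inner sum
    have s3 : ∑ A0 : Fin K → α, (∏ i, w (A0 i)) * E A0 =
        ∑ y : Fin T → α, (∏ g, w (y g)) * (∑ a, w a * f (Fin.cons a y)) ^ K := by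
      have t1 : ∀ A0 : Fin K → α, (∏ i, w (A0 i)) * E A0 =
          ∑ y : Fin T → α, (∏ g, w (y g)) * ∏ i, (w (A0 i) * f (Fin.cons (A0 i) y)) := by
        intro A0
        rw [hE, Finset.mul_sum]
        apply Finset.sum_congr rfl
        intro y _
        rw [Finset.prod_mul_distrib]
        ring
      rw [Finset.sum_congr rfl (fun A0 _ => t1 A0), Finset.sum_comm]
      apply Finset.sum_congr rfl
      intro y _
      rw [← Finset.mul_sum]
      congr 1
      have e3 := Finset.prod_univ_sum (fun _ : Fin K => (univ : Finset α))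
        (fun _ a => w a * f (Fin.cons a y))
      rw [Fintype.piFinset_univ, Finset.prod_const, Finset.card_univ, Fintype.card_fin] at e3
      exact e3.symm
    have s4 : (∑ y : Fin T → α, (∏ g, w (y g)) * ∑ a, w a * f (Fin.cons a y)) ^ K ≤
        ∑ y : Fin T → α, (∏ g, w (y g)) * (∑ a, w a * f (Fin.cons a y)) ^ K :=
      Real.pow_arith_mean_le_arith_mean_pow univ _ _ (fun y _ => hWn _ _) (hW1 T)
        (fun y _ => Finset.sum_nonneg fun a _ => mul_nonneg (hw a) (hf _)) _
    have s5 : ∑ y : Fin T → α, (∏ g, w (y g)) * ∑ a, w a * f (Fin.cons a y) =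
        ∑ x : Fin (T + 1) → α, (∏ g, w (x g)) * f x := by
      rw [← (Fin.consEquiv (fun _ : Fin (T + 1) => α)).sum_comp, Fintype.sum_prod_type, Finset.sum_comm]
      apply Finset.sum_congr rfl
      intro y _
      rw [Finset.mul_sum]
      apply Finset.sum_congr rfl
      intro a _
      simp only [Fin.consEquiv, Equiv.coe_fn_mk]
      rw [Fin.prod_univ_succ]
      simp only [Fin.cons_zero, Fin.cons_succ]
      ring
    have hX : 0 ≤ ∑ x : Fin (T + 1) → α, (∏ g, w (x g)) * f x :=
      Finset.sum_nonneg fun x _ => mul_nonneg (hWn _ _) (hf x)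
    calc (∑ x : Fin (T + 1) → α, (∏ g, w (x g)) * f x) ^ (K ^ (T + 1))
        = ((∑ x : Fin (T + 1) → α, (∏ g, w (x g)) * f x) ^ K) ^ (K ^ T) := by
          rw [← pow_mul, pow_succ, mul_comm]
      _ ≤ (∑ A0 : Fin K → α, (∏ i, w (A0 i)) * E A0) ^ (K ^ T) := by
          apply pow_le_pow_left₀ (pow_nonneg hX _)
          rw [s3, ← s5]
          exact s4
      _ ≤ _ := s2
      _ ≤ _ := s1

end Pool.Agent.H579
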